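import Pool.Agent.N253.LS.Stm
import Pool.Agent.N253.SM.Bnd

set_option autoImplicit false

/-!
# The passage near the critical point, without escape (helper8; the proof of SM/Bnd.lean with one
more conclusion)
-/

open Set Filter Metric Topology

namespace Pool.Agent.N253.LS

open Pool.Agent.TH279.MD Pool.Agent.Y298.SH Pool.Agent.Y298.SH.CD Pool.Agent.Y298.CA
open Pool.Agent.N253.SM (bnd_deriv)

namespace Bnd2_

theorem pow_sub_le {R : ℝ} (hR : 0 ≤ R) {w z : ℂ} (hw : ‖w‖ ≤ R) (hz : ‖z‖ ≤ R) (n : ℕ) :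
    ‖w ^ n - z ^ n‖ ≤ n * R ^ (n - 1) * ‖w - z‖ := by
  induction n with
  | zero => simp
  | succ m ih =>
    have e : w ^ (m + 1) - z ^ (m + 1) = w * (w ^ m - z ^ m) + (w - z) * z ^ m := by ring
    have h1 : ‖w * (w ^ m - z ^ m)‖ ≤ m * R ^ m * ‖w - z‖ := by
      rw [norm_mul]
      rcases m with _ | k
      · simp
      · calc ‖w‖ * ‖w ^ (k + 1) - z ^ (k + 1)‖
            ≤ R * (((k + 1 : ℕ) : ℝ) * R ^ (k + 1 - 1) * ‖w - z‖) :=
              mul_le_mul hw ih (norm_nonneg _) hR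
          _ = ((k + 1 : ℕ) : ℝ) * R ^ (k + 1) * ‖w - z‖ := by
              rw [Nat.add_sub_cancel]; ring
    have h2 : ‖(w - z) * z ^ m‖ ≤ R ^ m * ‖w - z‖ := by
      rw [norm_mul, norm_pow, mul_comm]
      exact mul_le_mul_of_nonneg_right (pow_le_pow_left₀ (norm_nonneg _) hz m) (norm_nonneg _)
    rw [e, Nat.add_sub_cancel]
    refine (norm_add_le _ _).trans ?_
    push_cast
    linarith

end Bnd2_

/-- The passage near the critical point: the loss of derivative is recovered, with a gain. -/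
theorem t_BND2 : S_BND2 := by
  classical
  intro d c₀ hd hL
  obtain ⟨⟨C₁, lam, hCE⟩, hC⟩ := hL
  have hC1 := hCE.C1
  have hlam := hCE.lam1
  obtain ⟨l, hl⟩ : ∃ l : ℝ, l = Real.log lam := ⟨_, rfl⟩
  have hl0 : 0 < l := by rw [hl]; exact Real.log_pos hlam
  have hlC : 0 ≤ Real.log C₁ := Real.log_nonneg hC1
  have hd0 : (0 : ℝ) ≤ d := Nat.cast_nonneg d
  obtain ⟨K, hK⟩ : ∃ K : ℝ, K = 2 + (Real.log C₁ + d) / l := ⟨_, rfl⟩
  have hK2 : 2 ≤ K := by
    rw [hK]
    have : 0 ≤ (Real.log C₁ + d) / l := by positivity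
    linarith
  have hK0 : 0 < K := by linarith
  have hKl : K * l = 2 * l + Real.log C₁ + d := by
    rw [hK, add_mul, div_mul_cancel₀ _ hl0.ne']
    ring
  obtain ⟨B₀, Ca, hPC₀⟩ := Pool.Agent.Y434.CA.pa d C₁ lam (Real.exp (1 / (8 * K))) hd hC1 hlam
    (Real.one_lt_exp_iff.2 (by positivity))
  obtain ⟨B, hBdef⟩ : ∃ B : ℝ, B = max B₀ (4 * (d * (5 / 2) ^ (d - 1)) * Ca) := ⟨_, rfl⟩
  have hB0B : B₀ ≤ B := by rw [hBdef]; exact le_max_left _ _
  have hBM : 4 * (d * (5 / 2) ^ (d - 1)) * Ca ≤ B := by rw [hBdef]; exact le_max_right _ _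
  have hPC : PC d C₁ lam (Real.exp (1 / (8 * K))) B Ca := by
    refine ⟨hPC₀.Ca1, hPC₀.CaB.trans hB0B, fun c₁ h1 c s k hs hc hk =>
      hPC₀.pass c₁ h1 c s k hs hc fun j hj => le_trans ?_ (hk j hj)⟩
    refine mul_le_mul_of_nonneg_right ?_ (Pd_nonneg _ _ _)
    refine mul_le_mul_of_nonneg_right ?_ hs.le
    exact mul_le_mul_of_nonneg_right hB0B (by positivity)
  have hB : 1 ≤ B := hPC.Ca1.trans hPC.CaB
  obtain ⟨C, hC1', hCn⟩ := hC (1 / (8 * K)) (by positivity)
  refine ⟨min (1 / (2 * C₁)) (1 / (4 * C)), 1 / (4 * K), K, by positivity, by positivity,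
    by linarith, ?_⟩
  intro Γ hΓ
  obtain ⟨a, ha⟩ : ∃ a : ℝ, a = C * B * Γ := ⟨_, rfl⟩
  have ha1 : 1 ≤ a := by
    rw [ha]
    exact one_le_mul_of_one_le_of_one_le (one_le_mul_of_one_le_of_one_le hC1' hB) hΓ
  have ha8 : 1 / (8 * a) ≤ 1 / 8 := by
    apply one_div_le_one_div_of_le <;> linarith
  have ha80 : 0 < 1 / (8 * a) := by positivity
  refine ⟨(1 / (8 * a)) ^ 2 / 2, by positivity, by nlinarith, ?_⟩
  intro c y hy0 hy hc
  obtain ⟨u, hu⟩ : ∃ u : ℝ, u = ‖y‖ := ⟨_, rfl⟩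
  rw [← hu] at hy hc ⊢
  have hu0 : 0 < u := by rw [hu]; exact norm_pos_iff.2 hy0
  have hua : u ≤ (1 / (8 * a)) ^ 2 := by linarith
  have hu1 : u ≤ 1 := by nlinarith
  have hlu : 0 ≤ Real.log (1 / u) := Real.log_nonneg (by rw [le_div_iff₀ hu0]; linarith)
  obtain ⟨Lu, hLu⟩ : ∃ Lu : ℝ, Lu = 1 + Real.log (1 / u) := ⟨_, rfl⟩
  have hLu1 : 1 ≤ Lu := by linarith
  obtain ⟨E, hE⟩ : ∃ E : ℝ, E = Real.exp (Lu / 4) := ⟨_, rfl⟩
  have hE0 : 0 < E := by rw [hE]; exact Real.exp_pos _
  have hE4 : E ^ 4 * u = Real.exp 1 := by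
    rw [hE, ← Real.exp_nat_mul, hLu]
    have h1 : ((4 : ℕ) : ℝ) * ((1 + Real.log (1 / u)) / 4) = 1 + Real.log (1 / u) := by
      push_cast
      ring
    rw [h1, Real.exp_add, Real.exp_log (by positivity)]
    field_simp
  have he3 : Real.exp 1 < 3 := lt_trans Real.exp_one_lt_d9 (by norm_num)
  -- the time
  obtain ⟨s, hs⟩ : ∃ s : ℝ, s = 2 * u ^ d := ⟨_, rfl⟩
  have hud : 0 < u ^ d := by positivity
  have hs0 : 0 < s := by rw [hs]; positivity
  obtain ⟨θ, hθ⟩ : ∃ θ : ℝ, θ = Real.exp (1 / (8 * K)) := ⟨_, rfl⟩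
  rw [← hθ] at hPC
  have hθ1 : 1 ≤ θ := by rw [hθ]; exact Real.one_le_exp (by positivity)
  have hBθ : ∀ j : ℕ, 1 ≤ B * θ ^ j := fun j =>
    one_le_mul_of_one_le_of_one_le hB (one_le_pow₀ hθ1)
  have hex : ∃ j, ‖zz d c₀ j‖ < B * θ ^ j * s * Pd d c₀ j := by
    obtain ⟨j, hj⟩ := pow_unbounded_of_one_lt (2 * C₁ / s) hlam
    refine ⟨j, ?_⟩
    have h1 := hCE.exp j
    have h2 : 2 * C₁ < C₁ * Pd d c₀ j * s := by
      rw [div_lt_iff₀ hs0] at hj
      exact hj.trans_le (mul_le_mul_of_nonneg_right h1 hs0.le)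
    have h3 : 2 < s * Pd d c₀ j := by
      have h4 : C₁ * 2 < C₁ * (s * Pd d c₀ j) := by linarith
      exact lt_of_mul_lt_mul_left h4 (by linarith)
    have h5 : s * Pd d c₀ j ≤ B * θ ^ j * s * Pd d c₀ j := by
      rw [mul_assoc (B * θ ^ j)]
      exact le_mul_of_one_le_left (mul_nonneg hs0.le (Pd_nonneg _ _ _)) (hBθ j)
    linarith [hCE.bd j]
  obtain ⟨k, hk1, hk2⟩ : ∃ k, ‖zz d c₀ k‖ < B * θ ^ k * s * Pd d c₀ k ∧
      ∀ j < k, B * θ ^ j * s * Pd d c₀ j ≤ ‖zz d c₀ j‖ :=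
    ⟨Nat.find hex, Nat.find_spec hex, fun j hj => not_lt.1 (Nat.find_min hex hj)⟩
  have hkK : (k : ℝ) + 1 ≤ K * Lu := by
    rcases k with _ | m
    · push_cast
      nlinarith
    · have h1 := hk2 m (Nat.lt_succ_self m)
      have h2 : s * Pd d c₀ m ≤ B * θ ^ m * s * Pd d c₀ m := by
        rw [mul_assoc (B * θ ^ m)]
        exact le_mul_of_one_le_left (mul_nonneg hs0.le (Pd_nonneg _ _ _)) (hBθ m)
      have h3 : u ^ d * Pd d c₀ m ≤ 1 := by
        have h4 : s * Pd d c₀ m ≤ 2 := h2.trans (h1.trans (hCE.bd m))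
        rw [hs] at h4
        have h5 : 2 * u ^ d * Pd d c₀ m = 2 * (u ^ d * Pd d c₀ m) := by ring
        linarith
      have h4 : lam ^ m * u ^ d ≤ C₁ := by
        have h5 := mul_le_mul_of_nonneg_right (hCE.exp m) hud.le
        have h6 := mul_le_mul_of_nonneg_left h3 (show (0 : ℝ) ≤ C₁ from zero_le_one.trans hC1)
        have h7 : C₁ * (u ^ d * Pd d c₀ m) = C₁ * Pd d c₀ m * u ^ d := by ring
        rw [h7, mul_one] at h6
        exact h5.trans h6
      have hlam0 : 0 < lam := by linarith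
      have h5 := Real.log_le_log (by positivity) h4
      rw [Real.log_mul (by positivity) (by positivity), Real.log_pow, Real.log_pow, ← hl] at h5
      have h6 : Real.log (1 / u) = - Real.log u := by rw [one_div, Real.log_inv]
      have h7 : ((m : ℝ) + 2) * l ≤ K * Lu * l := by
        have h8 : K * Lu * l = (2 * l + Real.log C₁ + d) * Lu := by rw [← hKl]; ring
        rw [h8, hLu]
        have h9 : Real.log u = - Real.log (1 / u) := by rw [h6]; ring
        rw [h9] at h5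
        nlinarith [mul_nonneg hl0.le hlu, mul_nonneg hlC hlu]
      have h8 := le_of_mul_le_mul_right h7 hl0
      push_cast
      linarith
  have hk4 : (1 / (4 * K)) * ((k : ℝ) + 1) ≤ Lu / 4 := by
    rw [div_mul_eq_mul_div, one_mul, div_le_div_iff₀ (by positivity) (by norm_num)]
    nlinarith
  -- the iterates
  have hx : y ^ d + c ∈ ball c s := by
    rw [mem_ball, dist_eq_norm, add_sub_cancel_right, norm_pow, ← hu, hs]
    linarith
  have hcs : ‖c - c₀‖ ≤ s := by
    rw [hs]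
    linarith
  have hpass := hPC.pass c₀ hCE c s k hs0 hcs hk2 (y ^ d + c) hx
  have hdu : u ^ (d - 1) * u = u ^ d := by
    rw [← pow_succ]
    congr 1
    omega
  have hdd : (1 : ℝ) ≤ d := by exact_mod_cast (by omega : 1 ≤ d)
  have hud1 : 0 < u ^ (d - 1) := by positivity
  refine ⟨k, ?_, ?_, ?_, ?_⟩
  · rw [← hLu]
    exact hkK
  · -- the end of the passage
    have h1 := (hpass k le_rfl).2.1
    obtain ⟨D, hD⟩ : ∃ D : ℝ, D = ‖deriv ((f d c)^[k + 1]) y‖ := ⟨_, rfl⟩
    rw [← hD]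
    rw [bnd_deriv, ← hu] at hD
    have h2 : u ^ (d - 1) * (Pd d c₀ k / 2) ≤ D := by
      rw [hD]
      have h3 : u ^ (d - 1) * (Pd d c₀ k / 2) ≤
          u ^ (d - 1) * ‖deriv ((f d c)^[k]) (y ^ d + c)‖ := mul_le_mul_of_nonneg_left h1 hud1.le
      have h4 : 0 ≤ u ^ (d - 1) * ‖deriv ((f d c)^[k]) (y ^ d + c)‖ := by positivity
      have h5 : ‖deriv ((f d c)^[k]) (y ^ d + c)‖ * (d * u ^ (d - 1)) =
          d * (u ^ (d - 1) * ‖deriv ((f d c)^[k]) (y ^ d + c)‖) := by ring
      rw [h5]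
      exact h3.trans (le_mul_of_one_le_left h4 hdd)
    have h3 : Real.exp (1 / (8 * K) * k) * θ ^ k ≤ E := by
      rw [hθ, ← Real.exp_nat_mul, ← Real.exp_add, hE]
      apply Real.exp_le_exp.2
      have h4 : 1 / (8 * K) * k + k * (1 / (8 * K)) = (1 / (4 * K)) * k := by
        field_simp
        ring
      rw [h4]
      have h5 : 0 ≤ 1 / (4 * K) := by positivity
      linarith
    have h4 := (hCn k)
    have h5 : 1 ≤ C * B * E * (2 * u ^ d) * Pd d c₀ k := by
      have h6 : C * Real.exp (1 / (8 * K) * k) * ‖zz d c₀ k‖ ≤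
          C * Real.exp (1 / (8 * K) * k) * (B * θ ^ k * s * Pd d c₀ k) :=
        mul_le_mul_of_nonneg_left hk1.le (by positivity)
      have h7 : C * Real.exp (1 / (8 * K) * k) * (B * θ ^ k * s * Pd d c₀ k) =
          (Real.exp (1 / (8 * K) * k) * θ ^ k) * (C * B * s * Pd d c₀ k) := by ring
      have h8 : (Real.exp (1 / (8 * K) * k) * θ ^ k) * (C * B * s * Pd d c₀ k) ≤
          E * (C * B * s * Pd d c₀ k) :=
        mul_le_mul_of_nonneg_right h3 (mul_nonneg (by positivity) (Pd_nonneg _ _ _))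
      have h9 : C * B * E * (2 * u ^ d) * Pd d c₀ k = E * (C * B * s * Pd d c₀ k) := by
        rw [hs]; ring
      rw [h9]
      linarith
    have h6 : 1 ≤ 4 * C * B * E * u * D := by
      have h7 : C * B * E * (2 * u ^ d) * Pd d c₀ k =
          4 * C * B * E * u * (u ^ (d - 1) * (Pd d c₀ k / 2)) := by
        rw [← hdu]; ring
      rw [h7] at h5
      exact h5.trans (mul_le_mul_of_nonneg_left h2 (by positivity))
    have h7 : 4 * C * B * E * u * (Γ * E) ≤ 1 := by
      have h8 : 4 * C * B * E * u * (Γ * E) = 4 * a * E ^ 2 * u := by rw [ha]; ring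
      rw [h8]
      have h9 : (4 * a * E ^ 2 * u) ^ 2 ≤ 1 := by
        have h10 : (4 * a * E ^ 2 * u) ^ 2 = 16 * a ^ 2 * (E ^ 4 * u) * u := by ring
        rw [h10, hE4]
        have h11 : 64 * a ^ 2 * u ≤ 1 := by
          have h12 := mul_le_mul_of_nonneg_left hua (by positivity : 0 ≤ 64 * a ^ 2)
          have h13 : 64 * a ^ 2 * (1 / (8 * a)) ^ 2 = 1 := by
            field_simp
            norm_num
          linarith
        have h12 : 0 ≤ 16 * (a ^ 2 * u) := by positivity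
        have h13 := mul_le_mul_of_nonneg_right he3.le h12
        have h14 : 16 * a ^ 2 * Real.exp 1 * u = Real.exp 1 * (16 * (a ^ 2 * u)) := by ring
        have h15 : 64 * a ^ 2 * u = 64 * (a ^ 2 * u) := by ring
        rw [h15] at h11
        rw [h14]
        linarith
      have h10 : 0 ≤ 4 * a * E ^ 2 * u := by positivity
      exact (sq_le_one_iff₀ h10).1 h9
    have h8 : Γ * E ≤ D := by
      have h9 : 4 * C * B * E * u * (Γ * E) ≤ 4 * C * B * E * u * D := h7.trans h6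
      exact le_of_mul_le_mul_left h9 (by positivity)
    refine le_trans ?_ h8
    refine mul_le_mul_of_nonneg_left ?_ (by linarith)
    rw [hE]
    apply Real.exp_le_exp.2
    push_cast
    exact hk4
  · -- no escape during the passage
    intro j hj
    rw [Function.iterate_succ_apply]
    change ‖(f d c)^[j] (y ^ d + c)‖ ≤ 3
    have hu64 : u ≤ 1 / 64 := by
      refine hua.trans ((pow_le_pow_left₀ ha80.le ha8 2).trans ?_)
      norm_num
    have hudu : u ^ d ≤ u := by
      rw [← hdu]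
      exact mul_le_of_le_one_left hu0.le (pow_le_one₀ hu0.le hu1)
    rcases hj.lt_or_eq with hj' | hj'
    · have h4 := (hpass j hj).2.2.2 hj'
      have h5 := hCE.bd j
      have h6 := norm_le_insert' ((f d c)^[j] (y ^ d + c)) (zz d c₀ j)
      linarith
    · subst hj'
      rcases j with _ | m
      · have h5 := hCE.bd 0
        have h6 : zz d c₀ 0 = c₀ := rfl
        rw [h6] at h5
        change ‖y ^ d + c‖ ≤ 3
        have h7 : y ^ d + c = y ^ d + (c - c₀) + c₀ := by ring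
        rw [h7]
        have h8 := norm_add_le (y ^ d + (c - c₀)) c₀
        have h9 := norm_add_le (y ^ d) (c - c₀)
        rw [norm_pow, ← hu] at h9
        linarith
      · obtain ⟨w, hw⟩ : ∃ w : ℂ, w = (f d c)^[m] (y ^ d + c) := ⟨_, rfl⟩
        obtain ⟨z, hz⟩ : ∃ z : ℂ, z = zz d c₀ m := ⟨_, rfl⟩
        have hm := hpass m (Nat.le_succ m)
        have h4 := hm.2.2.2 (Nat.lt_succ_self m)
        have h5 := hm.1
        have h6 := hk2 m (Nat.lt_succ_self m)
        have h7 := hCE.bd m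
        have h8 := hCE.bd (m + 1)
        rw [← hw, ← hz] at h4 h5
        rw [← hz] at h6 h7
        have e1 : (f d c)^[m + 1] (y ^ d + c) = w ^ d + c := by
          rw [Function.iterate_succ_apply', ← hw]; rfl
        have e2 : zz d c₀ (m + 1) = z ^ d + c₀ := by
          rw [hz]
          change (f d c₀)^[m + 1] c₀ = _
          rw [Function.iterate_succ_apply']; rfl
        have hwn : ‖w‖ ≤ 5 / 2 := by
          have := norm_le_insert' w z
          linarith
        have hM0 : 0 < (d : ℝ) * (5 / 2) ^ (d - 1) := by positivity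
        have hwz : (d : ℝ) * (5 / 2) ^ (d - 1) * ‖w - z‖ ≤ 1 / 2 := by
          have h9 : 4 * (d * (5 / 2) ^ (d - 1)) * Ca * s * Pd d c₀ m ≤ ‖z‖ := by
            refine le_trans ?_ h6
            refine mul_le_mul_of_nonneg_right ?_ (Pd_nonneg _ _ _)
            refine mul_le_mul_of_nonneg_right ?_ hs0.le
            exact hBM.trans (le_mul_of_one_le_right (by linarith) (one_le_pow₀ hθ1))
          have h10 : (d : ℝ) * (5 / 2) ^ (d - 1) * ‖w - z‖ ≤
              (d : ℝ) * (5 / 2) ^ (d - 1) * (Ca * s * Pd d c₀ m) :=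
            mul_le_mul_of_nonneg_left h5 hM0.le
          have h11 : 4 * ((d : ℝ) * (5 / 2) ^ (d - 1) * (Ca * s * Pd d c₀ m)) =
              4 * (d * (5 / 2) ^ (d - 1)) * Ca * s * Pd d c₀ m := by ring
          linarith
        have h9 := Bnd2_.pow_sub_le (by norm_num : (0 : ℝ) ≤ 5 / 2) hwn
          (by linarith : ‖z‖ ≤ 5 / 2) d
        rw [e1]
        have e3 : w ^ d + c = (w ^ d - z ^ d) + (c - c₀) + (z ^ d + c₀) := by ring
        rw [e3, ← e2]
        have h10 := norm_add_le ((w ^ d - z ^ d) + (c - c₀)) (zz d c₀ (m + 1))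
        have h11 := norm_add_le (w ^ d - z ^ d) (c - c₀)
        linarith
  · intro j hj
    obtain ⟨_, h1, _, h3⟩ := hpass j hj.le
    have h4 := h3 hj
    constructor
    · rw [bnd_deriv, ← hu]
      have h5 : 1 / C₁ ≤ Pd d c₀ j := by
        rw [div_le_iff₀ (by linarith)]
        have h6 := hCE.exp j
        have h7 : 1 ≤ lam ^ j := one_le_pow₀ hlam.le
        linarith
      have h6 : min (1 / (2 * C₁)) (1 / (4 * C)) ≤ ‖deriv ((f d c)^[j]) (y ^ d + c)‖ := by
        refine (min_le_left _ _).trans ?_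
        have h7 : 1 / (2 * C₁) = 1 / C₁ / 2 := by ring
        rw [h7]
        linarith
      have h7 := mul_le_mul_of_nonneg_right h6 hud1.le
      refine h7.trans ?_
      rw [mul_left_comm]
      exact le_mul_of_one_le_left (by positivity) hdd
    · rw [Function.iterate_succ_apply]
      change min (1 / (2 * C₁)) (1 / (4 * C)) * Real.sqrt u ≤ ‖(f d c)^[j] (y ^ d + c)‖
      have h5 : 3 / 4 * ‖zz d c₀ j‖ ≤ ‖(f d c)^[j] (y ^ d + c)‖ := by
        have h6 := norm_sub_norm_le (zz d c₀ j) ((f d c)^[j] (y ^ d + c))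
        rw [norm_sub_rev] at h6
        linarith
      have h6 := (hCn j)
      have h7 : Real.exp (1 / (8 * K) * j) ≤ Real.exp (Lu / 8) := by
        apply Real.exp_le_exp.2
        have h8 : (j : ℝ) ≤ k := by exact_mod_cast hj.le
        have h9 : 1 / (8 * K) * j ≤ 1 / (8 * K) * ((k : ℝ) + 1) :=
          mul_le_mul_of_nonneg_left (by linarith) (by positivity)
        have h10 : 1 / (8 * K) * ((k : ℝ) + 1) = (1 / (4 * K)) * ((k : ℝ) + 1) / 2 := by
          field_simp
          ring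
        linarith
      have h8 : Real.exp (Lu / 8) * Real.sqrt u ≤ Real.exp 1 := by
        have h9 : Real.sqrt u = Real.exp (- Real.log (1 / u) / 2) := by
          rw [Real.sqrt_eq_iff_mul_self_eq hu0.le (Real.exp_pos _).le, ← Real.exp_add]
          have h10 : - Real.log (1 / u) / 2 + - Real.log (1 / u) / 2 = Real.log u := by
            rw [one_div, Real.log_inv]; ring
          rw [h10, Real.exp_log hu0]
        rw [h9, ← Real.exp_add]
        apply Real.exp_le_exp.2
        rw [hLu]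
        linarith
      have h9 : 1 ≤ C * Real.exp (Lu / 8) * ‖zz d c₀ j‖ := by
        refine h6.trans ?_
        refine mul_le_mul_of_nonneg_right ?_ (norm_nonneg _)
        exact mul_le_mul_of_nonneg_left h7 (by linarith)
      have h10 : Real.sqrt u ≤ 3 * C * ‖zz d c₀ j‖ := by
        have h11 := mul_le_mul_of_nonneg_right h9 (Real.sqrt_nonneg u)
        have h12 : C * Real.exp (Lu / 8) * ‖zz d c₀ j‖ * Real.sqrt u =
            C * ‖zz d c₀ j‖ * (Real.exp (Lu / 8) * Real.sqrt u) := by ring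
        have h13 : C * ‖zz d c₀ j‖ * (Real.exp (Lu / 8) * Real.sqrt u) ≤
            C * ‖zz d c₀ j‖ * 3 := mul_le_mul_of_nonneg_left (by linarith) (by positivity)
        linarith
      have h11 : min (1 / (2 * C₁)) (1 / (4 * C)) * Real.sqrt u ≤ 1 / (4 * C) * Real.sqrt u :=
        mul_le_mul_of_nonneg_right (min_le_right _ _) (Real.sqrt_nonneg u)
      have h12 : 1 / (4 * C) * Real.sqrt u ≤ 1 / (4 * C) * (3 * C * ‖zz d c₀ j‖) :=
        mul_le_mul_of_nonneg_left h10 (by positivity)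
      have h13 : 1 / (4 * C) * (3 * C * ‖zz d c₀ j‖) = 3 / 4 * ‖zz d c₀ j‖ := by
        field_simp
      linarith

end Pool.Agent.N253.LS
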