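import Mathlib
import Pool.Agent.N253.LC.Stm

/-!
# Project LS: from small impressions to local connectivity up to a given size (helper253)
-/

set_option autoImplicit false

open Set Filter Metric Topology

namespace Pool.Agent.N253.LS

open Pool.Agent.H713R2 (IsExteriorMap)
open Pool.Agent.N253.LC (S_CON)

variable {M : Set ℂ} {ψ : ℂ → ℂ} {c₀ : ℂ} {R ρ : ℝ}

theorem nexp' (t : ℝ) {u : ℂ} (hu : ‖u‖ = 1) : ‖(Real.exp t : ℂ) * u‖ = Real.exp t := by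
  rw [norm_mul, hu, mul_one, Complex.norm_real, Real.norm_of_nonneg (Real.exp_pos _).le]

/-- Rays of small level are short. -/
theorem ray_small (hψ : IsExteriorMap M ψ) (hρ : 0 < ρ)
    (himp : ∀ ζ : ℂ, ‖ζ‖ = 1 → ∀ c₁ : ℂ, MapClusterPt c₁ (𝓝[{w | 1 < ‖w‖}] ζ) ψ →
      ‖c₁ - c₀‖ ≤ R / 2 → ∀ c : ℂ, MapClusterPt c (𝓝[{w | 1 < ‖w‖}] ζ) ψ → ‖c - c₁‖ ≤ ρ) :
    ∃ T : ℝ, 0 < T ∧ ∀ u : ℂ, ‖u‖ = 1 → ∀ t t' : ℝ, 0 < t' → t' ≤ t → t < T →
      ‖ψ (Real.exp t * u) - c₀‖ ≤ R / 2 → ‖ψ (Real.exp t' * u) - ψ (Real.exp t * u)‖ ≤ 2 * ρ := by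
  by_contra hcon
  push Not at hcon
  have h1 : ∀ n : ℕ, ∃ (u : ℂ) (t s : ℝ), ‖u‖ = 1 ∧ 0 < s ∧ s ≤ t ∧ t < 1 / ((n : ℝ) + 1) ∧
      ‖ψ (Real.exp t * u) - c₀‖ ≤ R / 2 ∧ ‖ψ (Real.exp s * u) - ψ (Real.exp t * u)‖ = 2 * ρ := by
    intro n
    obtain ⟨u, hu, t, t', ht', htt, htn, hR, hd⟩ := hcon (1 / ((n : ℝ) + 1)) (by positivity)
    have hcont : ContinuousOn (fun s : ℝ => ‖ψ (Real.exp s * u) - ψ (Real.exp t * u)‖)
        (Icc t' t) := by
      refine ContinuousOn.norm (ContinuousOn.sub ?_ continuousOn_const)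
      refine hψ.diff.continuousOn.comp (by fun_prop) (fun s hs => ?_)
      show 1 < ‖(Real.exp s : ℂ) * u‖
      rw [nexp' s hu]
      exact Real.one_lt_exp_iff.mpr (ht'.trans_le hs.1)
    have h2 := intermediate_value_Icc' htt hcont
    have h3 : 2 * ρ ∈ Icc ((fun s : ℝ => ‖ψ (Real.exp s * u) - ψ (Real.exp t * u)‖) t)
        ((fun s : ℝ => ‖ψ (Real.exp s * u) - ψ (Real.exp t * u)‖) t') := by
      refine ⟨?_, hd.le⟩
      simp only [sub_self, norm_zero]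
      positivity
    obtain ⟨s, hs1, hs2⟩ := h2 h3
    exact ⟨u, t, s, hu, ht'.trans_le hs1.1, hs1.2, htn, hR, hs2⟩
  choose u t s hu hs hst ht hR hd using h1
  have hK : IsCompact (sphere (0 : ℂ) 1 ×ˢ (closedBall c₀ (R / 2) ×ˢ closedBall c₀ (R / 2 + 2 * ρ))) :=
    (isCompact_sphere _ _).prod ((isCompact_closedBall _ _).prod (isCompact_closedBall _ _))
  have hmem : ∀ n, ((u n, ψ (Real.exp (t n) * u n), ψ (Real.exp (s n) * u n)) : ℂ × ℂ × ℂ) ∈
      sphere (0 : ℂ) 1 ×ˢ (closedBall c₀ (R / 2) ×ˢ closedBall c₀ (R / 2 + 2 * ρ)) := by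
    intro n
    refine ⟨by simpa using hu n, ?_, ?_⟩
    · rw [mem_closedBall, dist_eq_norm]
      exact hR n
    · rw [mem_closedBall, dist_eq_norm]
      have := norm_add_le (ψ (Real.exp (s n) * u n) - ψ (Real.exp (t n) * u n))
        (ψ (Real.exp (t n) * u n) - c₀)
      rw [sub_add_sub_cancel, hd n] at this
      linarith [hR n]
  obtain ⟨⟨ζ, x, y⟩, hz, φ, hφ, hlim⟩ := hK.tendsto_subseq hmem
  obtain ⟨hζ, hx, hy⟩ := hz
  have hζ : ‖ζ‖ = 1 := by simpa using hζ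
  have l1 : Tendsto (fun n => u (φ n)) atTop (𝓝 ζ) :=
    (continuous_fst.tendsto _).comp hlim
  have l2 : Tendsto (fun n => ψ (Real.exp (t (φ n)) * u (φ n))) atTop (𝓝 x) :=
    ((continuous_fst.comp continuous_snd).tendsto _).comp hlim
  have l3 : Tendsto (fun n => ψ (Real.exp (s (φ n)) * u (φ n))) atTop (𝓝 y) :=
    ((continuous_snd.comp continuous_snd).tendsto _).comp hlim
  have ht0 : Tendsto (fun n => t (φ n)) atTop (𝓝 0) := by
    have h2 : Tendsto (fun n : ℕ => 1 / (((φ n : ℕ) : ℝ) + 1)) atTop (𝓝 0) :=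
      tendsto_one_div_add_atTop_nhds_zero_nat.comp hφ.tendsto_atTop
    refine squeeze_zero (fun n => ((hs _).le.trans (hst _))) (fun n => (ht _).le) h2
  have hs0 : Tendsto (fun n => s (φ n)) atTop (𝓝 0) :=
    squeeze_zero (fun n => (hs _).le) (fun n => hst _) ht0
  have key : ∀ r : ℕ → ℝ, (∀ n, 0 < r n) → Tendsto r atTop (𝓝 0) →
      Tendsto (fun n => (Real.exp (r n) : ℂ) * u (φ n)) atTop (𝓝[{w | 1 < ‖w‖}] ζ) := by
    intro r hr0 hr
    rw [tendsto_nhdsWithin_iff]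
    constructor
    · have h2 : Tendsto (fun n => (Real.exp (r n) : ℂ)) atTop (𝓝 ((Real.exp 0 : ℝ) : ℂ)) :=
        (Complex.continuous_ofReal.tendsto _).comp ((Real.continuous_exp.tendsto 0).comp hr)
      have h3 := h2.mul l1
      rw [Real.exp_zero, Complex.ofReal_one, one_mul] at h3
      exact h3
    · refine Eventually.of_forall fun n => ?_
      show 1 < ‖(Real.exp (r n) : ℂ) * u (φ n)‖
      rw [nexp' _ (hu _)]
      exact Real.one_lt_exp_iff.mpr (hr0 n)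
  have m1 : MapClusterPt x (𝓝[{w | 1 < ‖w‖}] ζ) ψ :=
    MapClusterPt.of_comp (key _ (fun n => (hs _).trans_le (hst _)) ht0) (Tendsto.mapClusterPt l2)
  have m2 : MapClusterPt y (𝓝[{w | 1 < ‖w‖}] ζ) ψ :=
    MapClusterPt.of_comp (key _ (fun n => hs _) hs0) (Tendsto.mapClusterPt l3)
  have hxy : ‖y - x‖ = 2 * ρ := by
    have h2 := (l3.sub l2).norm
    refine tendsto_nhds_unique h2 ?_
    refine tendsto_const_nhds.congr fun n => ?_
    rw [hd]
  have h4 := himp ζ hζ x m1 (by rwa [mem_closedBall, dist_eq_norm] at hx) y m2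
  linarith

/-- Near `M` the levels are small. -/
theorem level_small (hM : IsCompact M) (hψ : IsExteriorMap M ψ) {T : ℝ} (hT : 0 < T) :
    ∃ δ : ℝ, 0 < δ ∧ ∀ w : ℂ, 1 < ‖w‖ → ∀ m ∈ M, ‖ψ w - m‖ ≤ δ → Real.log ‖w‖ < T := by
  by_contra hcon
  push Not at hcon
  have h1 : ∀ n : ℕ, ∃ (w m : ℂ), 1 < ‖w‖ ∧ m ∈ M ∧ ‖ψ w - m‖ ≤ 1 / ((n : ℝ) + 1) ∧
      T ≤ Real.log ‖w‖ := by
    intro n
    obtain ⟨w, hw, m, hm, h2, h3⟩ := hcon (1 / ((n : ℝ) + 1)) (by positivity)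
    exact ⟨w, m, hw, hm, h2, h3⟩
  choose w m hw hm hd hT' using h1
  obtain ⟨B, hB⟩ := hM.isBounded.exists_norm_le
  -- boundedness of `w`
  have hinf : ∀ᶠ z : ℂ in Bornology.cobounded ℂ, ‖z‖ / 2 ≤ ‖ψ z‖ := by
    have h2 : ∀ᶠ z : ℂ in Bornology.cobounded ℂ, 1 / 2 < ‖ψ z / z‖ := by
      have h3 := hψ.infinity.norm
      rw [norm_one] at h3
      exact h3.eventually_const_lt (by norm_num)
    filter_upwards [h2, Bornology.eventually_ne_cobounded (0 : ℂ)] with z hz hz0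
    rw [norm_div, lt_div_iff₀ (norm_pos_iff.mpr hz0)] at hz
    linarith
  have hb : ∃ K : ℝ, ∀ n, ‖w n‖ ≤ K := by
    have hinf' : Bornology.IsBounded {z : ℂ | ‖z‖ / 2 ≤ ‖ψ z‖}ᶜ := by
      rw [Bornology.isBounded_def, compl_compl]
      exact hinf
    obtain ⟨K, hK⟩ := hinf'.exists_norm_le
    refine ⟨max K (2 * (B + 1)), fun n => ?_⟩
    by_cases h : w n ∈ {z : ℂ | ‖z‖ / 2 ≤ ‖ψ z‖}ᶜ
    · exact (hK _ h).trans (le_max_left _ _)
    · have h3 : ‖w n‖ / 2 ≤ ‖ψ (w n)‖ := by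
        rw [Set.mem_compl_iff, not_not] at h
        exact h
      have h4 : ‖ψ (w n)‖ ≤ B + 1 := by
        have h5 := norm_add_le (ψ (w n) - m n) (m n)
        rw [sub_add_cancel] at h5
        have h6 := hB _ (hm n)
        have h7 : 1 / ((n : ℝ) + 1) ≤ 1 := by
          rw [div_le_one (by positivity)]
          have : (0 : ℝ) ≤ n := Nat.cast_nonneg n
          linarith
        linarith [hd n]
      exact le_trans (by linarith) (le_max_right _ _)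
  obtain ⟨K, hK⟩ := hb
  have hcomp : IsCompact (closedBall (0 : ℂ) K ×ˢ M) := (isCompact_closedBall _ _).prod hM
  obtain ⟨⟨w', m'⟩, hz, φ, hφ, hlim⟩ := hcomp.tendsto_subseq (x := fun n => (w n, m n))
    (fun n => ⟨by simpa using hK n, hm n⟩)
  obtain ⟨-, hm'⟩ := hz
  have l1 : Tendsto (fun n => w (φ n)) atTop (𝓝 w') := (continuous_fst.tendsto _).comp hlim
  have l2 : Tendsto (fun n => m (φ n)) atTop (𝓝 m') := (continuous_snd.tendsto _).comp hlim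
  have hw' : Real.exp T ≤ ‖w'‖ := by
    refine ge_of_tendsto l1.norm (Eventually.of_forall fun n => ?_)
    have h2 := hT' (φ n)
    have h3 := hw (φ n)
    rwa [Real.le_log_iff_exp_le (by linarith)] at h2
  have hw1 : 1 < ‖w'‖ := (Real.one_lt_exp_iff.mpr hT).trans_le hw'
  have hopen : IsOpen {z : ℂ | 1 < ‖z‖} := isOpen_lt continuous_const continuous_norm
  have hc : ContinuousAt ψ w' := (hψ.diff.differentiableAt (hopen.mem_nhds hw1)).continuousAt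
  have l3 : Tendsto (fun n => ψ (w (φ n))) atTop (𝓝 (ψ w')) := hc.tendsto.comp l1
  have l4 : Tendsto (fun n => ‖ψ (w (φ n)) - m (φ n)‖) atTop (𝓝 0) := by
    have h2 : Tendsto (fun n : ℕ => 1 / (((φ n : ℕ) : ℝ) + 1)) atTop (𝓝 0) :=
      tendsto_one_div_add_atTop_nhds_zero_nat.comp hφ.tendsto_atTop
    exact squeeze_zero (fun n => norm_nonneg _) (fun n => hd _) h2
  have h5 := tendsto_nhds_unique (l3.sub l2).norm l4
  have h6 : ψ w' = m' := by
    rw [norm_eq_zero, sub_eq_zero] at h5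
    exact h5
  have h7 : ψ w' ∈ Mᶜ := by
    rw [← hψ.image]
    exact mem_image_of_mem ψ hw1
  rw [h6] at h7
  exact h7 hm'

/-- **Local connectivity up to the size of the impressions.** -/
theorem coarse (hC : S_CON) (hM : IsCompact M) (hψ : IsExteriorMap M ψ) (hR : 0 < R) (hρ : 0 < ρ)
    (himp : ∀ ζ : ℂ, ‖ζ‖ = 1 → ∀ c₁ : ℂ, MapClusterPt c₁ (𝓝[{w | 1 < ‖w‖}] ζ) ψ →
      ‖c₁ - c₀‖ ≤ R / 2 → ∀ c : ℂ, MapClusterPt c (𝓝[{w | 1 < ‖w‖}] ζ) ψ → ‖c - c₁‖ ≤ ρ) :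
    ∃ δ : ℝ, 0 < δ ∧ ∀ c ∈ M, ‖c - c₀‖ ≤ R / 4 → ∀ c' ∈ M, ‖c' - c‖ ≤ δ →
      ∃ S : Set ℂ, S ⊆ M ∧ IsCompact S ∧ IsConnected S ∧ c ∈ S ∧ c' ∈ S ∧
        S ⊆ closedBall c (3 * ρ) := by
  obtain ⟨T, hT, H⟩ := ray_small hψ hρ himp
  obtain ⟨δ, hδ, hδT⟩ := level_small hM hψ hT
  refine ⟨min δ (min ρ (R / 4)), by positivity, ?_⟩
  intro c hc hcR c' hc' hcc
  have h1 : ‖c' - c‖ ≤ δ := hcc.trans (min_le_left _ _)
  have h2 : ‖c' - c‖ ≤ ρ := hcc.trans ((min_le_right _ _).trans (min_le_left _ _))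
  have h3 : ‖c' - c‖ ≤ R / 4 := hcc.trans ((min_le_right _ _).trans (min_le_right _ _))
  obtain ⟨S, s1, s2, s3, s4, s5, s6⟩ := hC M ψ c' c (3 * ρ) hM hψ hc' hc (by linarith) (by
    intro w hw hseg t ht htw
    have hw0 : 0 < ‖w‖ := by linarith
    obtain ⟨u, hu⟩ : ∃ u : ℂ, u = w / ‖w‖ := ⟨_, rfl⟩
    have hw0' : (‖w‖ : ℂ) ≠ 0 := by exact_mod_cast hw0.ne'
    have hun : ‖u‖ = 1 := by
      rw [hu, norm_div, Complex.norm_real, norm_norm, div_self hw0.ne']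
    have hwu : w = (Real.exp (Real.log ‖w‖) : ℂ) * u := by
      rw [Real.exp_log hw0, hu]; field_simp
    have hd : ∀ q : ℝ, ‖c' - c‖ ≤ q → ‖ψ w - c‖ ≤ q := by
      intro q hq
      have h4 : segment ℝ c' c ⊆ closedBall c q := by
        apply (convex_closedBall c q).segment_subset
        · rwa [mem_closedBall, dist_eq_norm]
        · exact mem_closedBall_self ((norm_nonneg _).trans hq)
      have h5 := h4 hseg
      rwa [mem_closedBall, dist_eq_norm] at h5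
    have hlT : Real.log ‖w‖ < T := hδT w hw c hc (hd δ h1)
    have h6 := H u hun (Real.log ‖w‖) (Real.log t) (Real.log_pos ht)
      (Real.log_le_log (by linarith) htw) hlT (by
        rw [← hwu]
        have := norm_add_le (ψ w - c) (c - c₀)
        rw [sub_add_sub_cancel] at this
        linarith [hd _ h3])
    rw [← hwu, Real.exp_log (by linarith)] at h6
    rw [← hu]
    have := norm_add_le (ψ (t * u) - ψ w) (ψ w - c)
    rw [sub_add_sub_cancel] at this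
    linarith [hd _ h2])
  exact ⟨S, s1, s2, s3, s5, s4, s6⟩

end Pool.Agent.N253.LS
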