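import Mathlib
import Pool.Agent.N253.LC.Stm

/-!
# Trivial impressions at Collet-Eckmann parameters with slow recurrence: statements

Project LS, helper253: the statements of project LC, now for all Collet-Eckmann parameters with slow
recurrence (all semihyperbolic parameters, in particular all Misiurewicz parameters, and all
parameters with a Lyapunov exponent). Generalisations of `Pool/Agent/N253/LC/Stm.lean` and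
`Pool/Agent/N253/SM/Stm.lean`.
-/

set_option autoImplicit false

open Set Filter Metric Topology

namespace Pool.Agent.N253.LS

open Pool.Agent.TH279.MD Pool.Agent.Y298.SH Pool.Agent.Y298.SH.CD Pool.Agent.Y298.CA
open Pool.Agent.H713R2 (IsExteriorMap IsGm)
open Pool.Agent.H712R2 (P)
open Pool.Agent.N253.LC (Ray Disp)

/-- Collet-Eckmann parameters with slow recurrence: `|(f^n)' (c₀)|` grows exponentially and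
`|f^n (c₀)|` is at least `exp (-e n)` up to a constant, for every `e > 0`. -/
def Slow (d : ℕ) (c₀ : ℂ) : Prop := (∃ C₁ lam : ℝ, CEp d C₁ lam c₀) ∧
  ∀ e : ℝ, 0 < e → ∃ C : ℝ, 1 ≤ C ∧ ∀ n : ℕ, 1 ≤ C * Real.exp (e * n) * ‖zz d c₀ n‖

/-- Expansion away from the critical point, with a constant which does not depend on the
neighbourhood of the critical point if the orbit segment ends there. -/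
def S_FREE : Prop := ∀ (d : ℕ) (c₀ : ℂ), 2 ≤ d → Slow d c₀ →
  ∃ ρ₀ Γ : ℝ, 0 < ρ₀ ∧ 1 ≤ Γ ∧ ∀ δ : ℝ, 0 < δ → δ ≤ ρ₀ →
  ∃ κ η e : ℝ, 0 < κ ∧ 0 < η ∧ 0 < e ∧ ∀ c : ℂ, ‖c - c₀‖ ≤ e → ∀ (y : ℂ) (n : ℕ),
    (∀ j < n, 2 * δ ≤ ‖(f d c)^[j] y‖) → (∀ j ≤ n, ‖(f d c)^[j] y‖ ≤ 4) →
    κ * Real.exp (η * n) ≤ ‖deriv ((f d c)^[n]) y‖ ∧
    (‖(f d c)^[n] y‖ ≤ 2 * δ → Real.exp (η * n) ≤ Γ * ‖deriv ((f d c)^[n]) y‖)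

/-- The passage near the critical point, once more: the orbit does not escape during the passage. -/
def S_BND2 : Prop := ∀ (d : ℕ) (c₀ : ℂ), 2 ≤ d → Slow d c₀ →
  ∃ κ η K : ℝ, 0 < κ ∧ 0 < η ∧ 1 ≤ K ∧ ∀ Γ : ℝ, 1 ≤ Γ → ∃ δ₁ : ℝ, 0 < δ₁ ∧ δ₁ ≤ 1 / 4 ∧
  ∀ (c y : ℂ), y ≠ 0 → ‖y‖ ≤ 2 * δ₁ → ‖c - c₀‖ ≤ ‖y‖ ^ d → ∃ k : ℕ,
    ((k : ℝ) + 1 ≤ K * (1 + Real.log (1 / ‖y‖))) ∧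
    Γ * Real.exp (η * (k + 1 : ℕ)) ≤ ‖deriv ((f d c)^[k + 1]) y‖ ∧
    (∀ j ≤ k, ‖(f d c)^[j + 1] y‖ ≤ 3) ∧
    ∀ j < k, κ * ‖y‖ ^ (d - 1) ≤ ‖deriv ((f d c)^[j + 1]) y‖ ∧
      κ * Real.sqrt ‖y‖ ≤ ‖(f d c)^[j + 1] y‖

/-- Expansion along orbits which pass the critical point at distance at least
`|c - c₀| ^ (1 / d)`: either the time `n` is free, or it belongs to the passage which begins at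
the time `i`. -/
def S_EXP : Prop := ∀ (d : ℕ) (c₀ : ℂ), 2 ≤ d → Slow d c₀ →
  ∃ κ η K r₀ : ℝ, 0 < κ ∧ κ ≤ 1 ∧ 0 < η ∧ 1 ≤ K ∧ 0 < r₀ ∧ ∀ (c : ℂ) (r : ℝ) (y : ℂ) (n : ℕ),
    0 < r → r ≤ r₀ → ‖c - c₀‖ ≤ r → (∀ j ≤ n, ‖(f d c)^[j] y‖ ≤ 4) →
    (∀ j < n, r ≤ ‖(f d c)^[j] y‖ ^ d) →
    κ * Real.exp (η * n) ≤ ‖deriv ((f d c)^[n]) y‖ ∨
    ∃ i < n, κ * Real.exp (η * i) ≤ ‖deriv ((f d c)^[i]) y‖ ∧ ‖(f d c)^[i] y‖ ≤ 1 ∧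
      (n : ℝ) - i ≤ K * (1 + Real.log (1 / ‖(f d c)^[i] y‖)) ∧
      κ * ‖(f d c)^[i] y‖ ^ (d - 1) * ‖deriv ((f d c)^[i]) y‖ ≤ ‖deriv ((f d c)^[n]) y‖ ∧
      κ * Real.sqrt ‖(f d c)^[i] y‖ ≤ ‖(f d c)^[n] y‖

/-- Expansion, three forms: up to the time of escape; up to a return near the critical point;
for orbits which stay away from the critical point. -/
def S_EXQ : Prop := ∀ (d : ℕ) (c₀ : ℂ), 2 ≤ d → Slow d c₀ →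
  ∃ κ η a₁ A r₀ : ℝ, 0 < κ ∧ κ ≤ 1 ∧ 0 < η ∧ η ≤ Real.log d ∧ 0 < a₁ ∧ 1 ≤ A ∧ 0 < r₀ ∧
  ∀ (c : ℂ) (r : ℝ) (y : ℂ) (n : ℕ), 0 < r → r ≤ r₀ → ‖c - c₀‖ ≤ r →
    ((∀ j < n, ‖(f d c)^[j] y‖ ≤ 3) → 3 < ‖(f d c)^[n] y‖ → (∀ j < n, r ≤ ‖(f d c)^[j] y‖ ^ d) →
      κ * Real.exp (η * n) ≤ ‖deriv ((f d c)^[n]) y‖) ∧
    (1 ≤ n → (∀ j ≤ n, ‖(f d c)^[j] y‖ ≤ 4) → (∀ j < n, r ≤ ‖(f d c)^[j] y‖ ^ d) →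
      ‖(f d c)^[n] y‖ ≤ r ^ (3 / (4 * (d : ℝ))) →
      κ * Real.exp (η * n) * ‖y‖ ^ (-a₁) ≤ ‖deriv ((f d c)^[n]) y‖) ∧
    (∀ t : ℝ, 0 < t → t ≤ 1 → r ≤ t ^ d → (∀ j ≤ n, ‖(f d c)^[j] y‖ ≤ 4) →
      (∀ j < n, t ≤ ‖(f d c)^[j] y‖) → κ * t ^ A * Real.exp (η * n) ≤ ‖deriv ((f d c)^[n]) y‖)

/-- The logarithm of the largest possible derivative of `z ^ d` in the disc of radius `3`. -/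
noncomputable def QQ (d : ℕ) : ℝ := Real.log (d * 3 ^ (d - 1))

/-- Shadowing of the orbit of `c₀` at the scale `σ`, up to the scale `σ ^ (2 ε)`; `N σ` is the time. -/
def S_SHAD : Prop := ∀ (d : ℕ) (c₀ : ℂ), 2 ≤ d → Slow d c₀ → ∀ ε : ℝ, 0 < ε → ε < 1 / 2 →
  ∃ (C r₀ : ℝ) (N : ℝ → ℕ), 1 ≤ C ∧ 0 < r₀ ∧ r₀ ≤ 1 / 4 ∧ ∀ σ : ℝ, 0 < σ → σ ≤ r₀ →
    (N σ : ℝ) ≤ C * (1 + Real.log (1 / σ)) ∧ (1 - 2 * ε) * Real.log (1 / σ) ≤ QQ d * N σ ∧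
    (∀ σ' : ℝ, σ ≤ σ' → σ' ≤ r₀ → N σ' ≤ N σ ∧
      (1 - 2 * ε) * Real.log (1 / σ) - Real.log (1 / σ') - C ≤ QQ d * ((N σ : ℝ) - N σ')) ∧
    (∀ c x : ℂ, ‖c - c₀‖ ≤ σ → ‖x - c‖ ≤ σ → ∀ j ≤ N σ, ‖(f d c)^[j] x‖ ≤ 3) ∧
    (∀ c x x' : ℂ, ‖c - c₀‖ ≤ σ → ‖x - c‖ ≤ σ → ‖x' - c‖ ≤ σ →
      σ ^ (2 * ε - 1) * ‖x - x'‖ ≤ ‖(f d c)^[N σ] x - (f d c)^[N σ] x'‖) ∧
    (∀ c c' : ℂ, ‖c - c₀‖ ≤ σ → ‖c' - c₀‖ ≤ σ →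
      σ ^ (2 * ε - 1) * ‖c - c'‖ ≤ ‖(f d c)^[N σ] c - (f d c')^[N σ] c'‖)

/-- A curve which comes back near the critical point for the first time has small diameter. -/
def S_PULL : Prop := ∀ (d : ℕ) (c₀ : ℂ), 2 ≤ d → Slow d c₀ →
  ∃ δ₀ η : ℝ, 0 < δ₀ ∧ δ₀ ≤ 1 / (4 * (d : ℝ)) ∧ 0 < η ∧ ∀ δ : ℝ, 0 < δ → δ ≤ δ₀ →
  ∃ C r₀ : ℝ, 1 ≤ C ∧ 0 < r₀ ∧ ∀ r : ℝ, 0 < r → r ≤ r₀ → ∀ c : ℂ, ‖c - c₀‖ ≤ r →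
  ∀ (n : ℕ) (Y : ℝ → ℂ) (a b : ℝ), a ≤ b → ContinuousOn Y (Icc a b) →
    (∀ j < n, r ≤ ‖(f d c)^[j] (Y b)‖ ^ d) → (∀ j ≤ n, ‖(f d c)^[j] (Y b)‖ ≤ 4) →
    (∀ t ∈ Icc a b, ‖(f d c)^[n] (Y t)‖ ≤ r ^ (1 / (d : ℝ) - δ)) →
    ∀ t ∈ Icc a b, ‖Y t - Y b‖ ≤ C * Real.exp (-(η * n)) * r ^ (1 / (d : ℝ) - δ)

/-- A ray which has come very near the critical point stays near the critical point. -/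
def S_EXC : Prop := ∀ (d : ℕ) (c₀ : ℂ), 2 ≤ d → Slow d c₀ → ∀ (δ β C T₀ : ℝ), 0 < δ →
  δ ≤ 1 / (4 * (d : ℝ)) → 0 < β → β ≤ 1 → 1 ≤ C → 0 < T₀ → ∃ r₀ : ℝ, 0 < r₀ ∧ ∀ r : ℝ, 0 < r →
  r ≤ r₀ → ∀ c : ℂ, ‖c - c₀‖ ≤ r → ∀ j : ℕ,
  (∀ i < j, Disp C (C * r ^ (1 / (d : ℝ) - δ)) β T₀ d c i) →
  ∀ (v : ℂ) (Y : ℝ → ℂ) (a b : ℝ), Ray d c j v Y a b → ‖Y b‖ ^ d ≤ r →
    ∀ t ∈ Icc a b, ‖Y t‖ < r ^ (1 / (d : ℝ) - δ)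

/-- **The displacement along rays**, uniformly in the level and for all perturbations. -/
def S_DISP : Prop := ∀ (d : ℕ) (c₀ : ℂ), 2 ≤ d → Slow d c₀ →
  ∃ C β δ T₀ r₀ : ℝ, 1 ≤ C ∧ 0 < β ∧ β ≤ 1 ∧ 0 < δ ∧ δ ≤ 1 / (4 * (d : ℝ)) ∧ 0 < T₀ ∧ T₀ ≤ 1 / 2 ∧
  0 < r₀ ∧ ∀ r : ℝ, 0 < r → r ≤ r₀ → ∀ c : ℂ, ‖c - c₀‖ ≤ r → ∀ j : ℕ,
  Disp C (C * r ^ (1 / (d : ℝ) - δ)) β T₀ d c j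

/-- The points of a given level and angle hardly depend on the parameter. -/
def S_CMP : Prop := ∀ (d : ℕ) (c₀ : ℂ), 2 ≤ d → Slow d c₀ →
  ∃ A : ℝ, 1 ≤ A ∧ ∀ (r T : ℝ) (j : ℕ) (x γ : ℝ → ℂ) (u : ℂ), 0 < r → 0 < T → A * T ≤ 1 →
    r ≤ T ^ A → 4 ≤ Real.exp ((d : ℝ) ^ j * T) → ‖u‖ = Real.exp ((d : ℝ) ^ j * T) →
    ContinuousOn x (Icc 0 1) → ContinuousOn γ (Icc 0 1) → (∀ s ∈ Icc (0 : ℝ) 1, ‖γ s - c₀‖ ≤ r) →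
    (∀ s ∈ Icc (0 : ℝ) 1, (f d (γ s))^[j] (x s) = u) → ‖x 0 - x 1‖ ≤ r * T ^ (-A)

/-- Two points of a parameter ray of finite level near `c₀`, qualitative form. -/
def S_TWOQ : Prop := ∀ (d : ℕ) (c₀ : ℂ), 2 ≤ d → Slow d c₀ →
  ∃ R₀ : ℝ, 0 < R₀ ∧ ∀ R : ℝ, 0 < R → R ≤ R₀ → ∃ T : ℝ, 0 < T ∧ ∃ m₀ : ℕ, ∀ m : ℕ, m₀ ≤ m →
  ∀ (g : ℂ → ℂ) (u : ℂ), IsGm d m g → ‖u‖ = 1 → ∀ t₁ t₂ : ℝ, 4 ≤ Real.exp ((d : ℝ) ^ m * t₁) →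
  4 ≤ Real.exp ((d : ℝ) ^ m * t₂) →
  ‖Real.exp t₁ * u * g (Real.exp t₁ * u)⁻¹ - c₀‖ ≤ R →
  ‖Real.exp t₂ * u * g (Real.exp t₂ * u)⁻¹ - c₀‖ ≤ R →
  R / 8 ≤ ‖Real.exp t₁ * u * g (Real.exp t₁ * u)⁻¹ - Real.exp t₂ * u * g (Real.exp t₂ * u)⁻¹‖ →
  T ≤ max t₁ t₂

/-- Two points of an external ray near `c₀`, qualitative form. -/
def S_INFQ : Prop := ∀ (d : ℕ) (c₀ : ℂ), 2 ≤ d → Slow d c₀ → ∃ R₀ : ℝ, 0 < R₀ ∧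
  ∀ ψ : ℂ → ℂ, IsExteriorMap (N62a1eb23.multibrotSet d) ψ → ∀ R : ℝ, 0 < R → R ≤ R₀ →
  ∃ T : ℝ, 0 < T ∧ ∀ u : ℂ, ‖u‖ = 1 → ∀ t₁ t₂ : ℝ, 0 < t₁ → 0 < t₂ →
    ‖ψ (Real.exp t₁ * u) - c₀‖ ≤ R → ‖ψ (Real.exp t₂ * u) - c₀‖ ≤ R →
    R / 4 ≤ ‖ψ (Real.exp t₁ * u) - ψ (Real.exp t₂ * u)‖ → T ≤ max t₁ t₂

/-- Small displacement along the rays at small levels implies trivial impressions (general fact). -/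
def S_TRV : Prop := ∀ (M : Set ℂ) (ψ : ℂ → ℂ) (c₀ : ℂ), IsCompact M → IsExteriorMap M ψ → c₀ ∈ M →
  (∃ R₀ : ℝ, 0 < R₀ ∧ ∀ R : ℝ, 0 < R → R ≤ R₀ → ∃ T : ℝ, 0 < T ∧ ∀ u : ℂ, ‖u‖ = 1 →
    ∀ t₁ t₂ : ℝ, 0 < t₁ → 0 < t₂ → ‖ψ (Real.exp t₁ * u) - c₀‖ ≤ R →
    ‖ψ (Real.exp t₂ * u) - c₀‖ ≤ R → R / 4 ≤ ‖ψ (Real.exp t₁ * u) - ψ (Real.exp t₂ * u)‖ →
    T ≤ max t₁ t₂) →
  ∀ ζ : ℂ, ‖ζ‖ = 1 → MapClusterPt c₀ (𝓝[{w | 1 < ‖w‖}] ζ) ψ →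
  Tendsto ψ (𝓝[{w | 1 < ‖w‖}] ζ) (𝓝 c₀)

/-- Near a parameter with a Lyapunov exponent the parameters of `M_d` whose critical orbit does not
enter the disc of radius `R ^ τ` are Collet-Eckmann parameters with slow recurrence. -/
def S_SEMI : Prop := ∀ (d : ℕ) (χ : ℝ) (c₀ : ℂ), 2 ≤ d → Lyap d χ c₀ → ∀ τ : ℝ, 0 < τ →
  τ * ((d : ℝ) - 1) < 1 → ∃ R₀ : ℝ, 0 < R₀ ∧ ∀ R : ℝ, 0 < R → R ≤ R₀ →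
  ∀ c ∈ N62a1eb23.multibrotSet d, ‖c - c₀‖ ≤ R → (∀ k : ℕ, 1 ≤ k → R ^ τ ≤ ‖(f d c)^[k] 0‖) →
  Slow d c

end Pool.Agent.N253.LS
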