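import Mathlib
import Pool.Agent.N253.LS.Stm

/-!
# LS/EXC: a ray which has come very near the critical point stays near the critical point
-/

set_option autoImplicit false

open Set Filter Metric Topology

namespace Pool.Agent.N253.LS

open Pool.Agent.TH279.MD Pool.Agent.Y298.SH Pool.Agent.Y298.SH.CD Pool.Agent.Y298.CA
open Pool.Agent.H713R2 (IsExteriorMap IsGm)
open Pool.Agent.H712R2 (P)
open Pool.Agent.N253.LC (Ray Disp)

/-- growth of an orbit, from above -/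
theorem exc_growth {d : ℕ} (hd : 2 ≤ d) {c z : ℂ} (hc : ‖c‖ ≤ 3) (hz : ‖z‖ ≤ 3) (k : ℕ) :
    ‖(f d c)^[k] z‖ + 1 ≤ (4 : ℝ) ^ (d ^ k) := by
  induction k with
  | zero =>
    rw [Function.iterate_zero, id, pow_zero, pow_one]
    linarith
  | succ k ih =>
    rw [Function.iterate_succ_apply']
    set w := (f d c)^[k] z with hw
    set x : ℝ := 4 ^ (d ^ k) with hx
    have hdk : d ^ k ≠ 0 := pow_ne_zero _ (by omega)
    have hx4 : (4 : ℝ) ≤ x := le_self_pow₀ (by norm_num) hdk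
    have h1 : ‖f d c w‖ ≤ ‖w‖ ^ d + 3 := by
      calc ‖f d c w‖ = ‖w ^ d + c‖ := rfl
        _ ≤ ‖w ^ d‖ + ‖c‖ := norm_add_le _ _
        _ ≤ ‖w‖ ^ d + 3 := by rw [norm_pow]; linarith
    have h2 : ‖w‖ ^ d ≤ (x - 1) ^ d := pow_le_pow_left₀ (norm_nonneg _) (by linarith) d
    have h3 : (x - 1) ^ d ≤ x ^ d - 4 := by
      obtain ⟨e, rfl⟩ : ∃ e, d = e + 1 := ⟨d - 1, by omega⟩
      have he : e ≠ 0 := by omega
      have h4 : (x - 1) ^ e ≤ x ^ e := pow_le_pow_left₀ (by linarith) (by linarith) e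
      have h5 : x ≤ x ^ e := le_self_pow₀ (by linarith) he
      calc (x - 1) ^ (e + 1) = (x - 1) ^ e * (x - 1) := pow_succ _ _
        _ ≤ x ^ e * (x - 1) := mul_le_mul_of_nonneg_right h4 (by linarith)
        _ = x ^ (e + 1) - x ^ e := by ring
        _ ≤ x ^ (e + 1) - 4 := by linarith
    have h4 : (4 : ℝ) ^ (d ^ (k + 1)) = x ^ d := by rw [hx, ← pow_mul, pow_succ]
    rw [h4]
    linarith

theorem exc_small (K p θ : ℝ) (hp : 0 < p) (hθ : 0 < θ) :
    ∀ᶠ r in 𝓝[>] (0 : ℝ), K * r ^ p < θ := by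
  have h1 : Tendsto (fun r : ℝ => K * r ^ p) (𝓝[>] 0) (𝓝 (K * 0)) := by
    refine Tendsto.const_mul K ?_
    have h2 := (Real.continuousAt_rpow_const 0 p (Or.inr hp.le)).tendsto
    rw [Real.zero_rpow hp.ne'] at h2
    exact h2.mono_left nhdsWithin_le_nhds
  rw [mul_zero] at h1
  exact h1.eventually_lt_const hθ

theorem t_EXC (h : S_SHAD) : S_EXC := by
  intro d c₀ hd hS δ β C T₀ hδ hδd hβ hβ1 hC hT₀
  have hd2 : (2 : ℝ) ≤ d := by exact_mod_cast hd
  have hd0 : (0 : ℝ) < d := by linarith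
  have hc₀2 : ‖c₀‖ ≤ 2 := by
    obtain ⟨⟨C₁, lam, hCE⟩, -⟩ := hS
    exact hCE.bd 0
  have hlogd : 0 < Real.log d := Real.log_pos (by linarith)
  set Q : ℝ := QQ d with hQ
  have hQ0 : 0 < Q := by
    rw [hQ]
    unfold QQ
    apply Real.log_pos
    have h1 : (1 : ℝ) ≤ 3 ^ (d - 1) := one_le_pow₀ (by norm_num)
    nlinarith
  set α : ℝ := Real.log d / Q with hα
  have hα0 : 0 < α := div_pos hlogd hQ0
  have hαQ : α * Q = Real.log d := div_mul_cancel₀ _ hQ0.ne'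
  set ε : ℝ := min (1 / 8) (min (β * d * δ * α / 16) (min (d * δ / 4) (1 / (8 * d)))) with hε
  have hε0 : 0 < ε := by positivity
  have hε1 : ε ≤ 1 / 8 := min_le_left _ _
  have hε2 : ε ≤ β * d * δ * α / 16 := (min_le_right _ _).trans (min_le_left _ _)
  have hε4 : ε ≤ d * δ / 4 :=
    (min_le_right _ _).trans ((min_le_right _ _).trans (min_le_left _ _))
  have hε3 : ε ≤ 1 / (8 * d) :=
    (min_le_right _ _).trans ((min_le_right _ _).trans (min_le_right _ _))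
  obtain ⟨C', r₁, N, hC', hr₁, hr₁4, H⟩ := h d c₀ hd hS ε hε0 (by linarith)
  have hX : 0 < β * d * δ * α := by positivity
  set q : ℝ := α * (d * δ - 2 * ε) with hq
  have hdδ0' : 0 < (d : ℝ) * δ := by positivity
  have hq0 : 0 < q := by
    have : 0 < d * δ - 2 * ε := by linarith
    positivity
  have hqβ : 4 * ε ≤ q * β := by
    have h1 : d * δ / 2 ≤ d * δ - 2 * ε := by linarith
    have h2 : (β * α) * (d * δ / 2) ≤ (β * α) * (d * δ - 2 * ε) :=
      mul_le_mul_of_nonneg_left h1 (by positivity)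
    have h3 : q * β = (β * α) * (d * δ - 2 * ε) := by rw [hq]; ring
    rw [h3]
    nlinarith
  have hdδ : (d : ℝ) * δ ≤ 1 / 4 := by
    calc (d : ℝ) * δ ≤ d * (1 / (4 * d)) := mul_le_mul_of_nonneg_left hδd hd0.le
      _ = 1 / 4 := by field_simp
  have hdδ0 : 0 < (d : ℝ) * δ := by positivity
  have hexp2 : 4 * ε ≤ 1 / (d : ℝ) - δ := by
    have h1 : 1 / (8 * (d : ℝ)) = 1 / d / 8 := by field_simp
    have h2 : 1 / (4 * (d : ℝ)) = 1 / d / 4 := by field_simp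
    rw [h1] at hε3
    rw [h2] at hδd
    have : 0 < 1 / (d : ℝ) := by positivity
    linarith
  set G : ℝ := Real.exp (C' * α) with hG
  have hG0 : 0 < G := Real.exp_pos _
  have hlog4 : 0 < Real.log 4 := Real.log_pos (by norm_num)
  set B : ℝ := Real.log 4 * G with hB
  have hB0 : 0 < B := by positivity
  set K : ℝ := C * (B ^ β + 1) with hK
  have hev : ∀ᶠ r in 𝓝[>] (0 : ℝ), (1 * r ^ (1 : ℝ) < r₁ ∧ 1 * r ^ (1 - d * δ) < r₁) ∧
      (1 * r ^ (d * δ) < 1 / 2 ∧ G * r ^ q < 1) ∧ (B * r ^ q < T₀ ∧ K * r ^ (2 * ε) < 1 / 2) :=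
    ((exc_small 1 1 r₁ one_pos hr₁).and (exc_small 1 _ r₁ (by linarith) hr₁)).and
      (((exc_small 1 _ _ hdδ0 (by norm_num)).and (exc_small G q 1 hq0 one_pos)).and
        ((exc_small B q T₀ hq0 hT₀).and (exc_small K _ _ (by linarith) (by norm_num))))
  obtain ⟨r₀, hr₀, Hr⟩ := mem_nhdsGT_iff_exists_Ioc_subset.1 hev
  refine ⟨r₀, hr₀, ?_⟩
  intro r hr hrr c hc j hdisp v Y a b hY hYb t ht
  obtain ⟨⟨e1, e2⟩, ⟨e3, e4⟩, e5, e6⟩ := Hr ⟨hr, hrr⟩
  rw [one_mul, Real.rpow_one] at e1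
  rw [one_mul] at e2 e3
  by_contra hcon
  push Not at hcon
  set ρ : ℝ := r ^ (1 / (d : ℝ) - δ) with hρ
  have hρ0 : 0 < ρ := Real.rpow_pos_of_pos hr _
  set σ : ℝ := r ^ (1 - (d : ℝ) * δ) with hσ
  have hσ0 : 0 < σ := Real.rpow_pos_of_pos hr _
  have hρσ : ρ ^ d = σ := by
    rw [hρ, hσ, ← Real.rpow_natCast, ← Real.rpow_mul hr.le]
    congr 1
    field_simp
  have hrσ : r ≤ σ / 2 := by
    have h1 : r = σ * r ^ ((d : ℝ) * δ) := by
      rw [hσ, ← Real.rpow_add hr]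
      have : 1 - (d : ℝ) * δ + d * δ = 1 := by ring
      rw [this, Real.rpow_one]
    have h2 : σ * r ^ ((d : ℝ) * δ) ≤ σ * (1 / 2) := mul_le_mul_of_nonneg_left e3.le hσ0.le
    linarith
  have hr1 : r < 1 := by linarith
  have hYbρ : ‖Y b‖ < ρ := by
    refine lt_of_pow_lt_pow_left₀ d hρ0.le ?_
    rw [hρσ]
    linarith
  -- a time at which the norm is exactly `ρ`
  have hcont : ContinuousOn (fun s => ‖Y s‖) (Icc t b) :=
    (hY.cont.mono (Icc_subset_Icc_left ht.1)).norm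
  obtain ⟨t₁, ht₁, ht₁ρ⟩ := intermediate_value_Icc' ht.2 hcont ⟨hYbρ.le, hcon⟩
  simp only at ht₁ρ
  have hat₁ : a ≤ t₁ := ht.1.trans ht₁.1
  obtain ⟨-, -, hcomp, hnr3, -, -⟩ := H r hr e1.le
  obtain ⟨-, -, -, -, hn₁s, -⟩ := H σ hσ0 e2.le
  obtain ⟨hnn, hnQ⟩ := hcomp σ (by linarith) e2.le
  set nr : ℕ := N r with hnrdef
  set n₁ : ℕ := N σ with hn₁def
  have hc3 : ‖c‖ ≤ 3 := by
    calc ‖c‖ = ‖c₀ + (c - c₀)‖ := by ring_nf
      _ ≤ ‖c₀‖ + ‖c - c₀‖ := norm_add_le _ _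
      _ ≤ 3 := by linarith
  -- comparison of the times
  have hkey : (d : ℝ) ^ n₁ ≤ G * r ^ q * (d : ℝ) ^ nr := by
    have h1 : Real.log (1 / σ) = (1 - d * δ) * Real.log (1 / r) := by
      rw [hσ, one_div, one_div, Real.log_inv, Real.log_inv, Real.log_rpow hr]
      ring
    rw [h1] at hnQ
    set L := Real.log (1 / r) with hLdef
    have hLr : Real.log r = -L := by rw [hLdef, one_div, Real.log_inv, neg_neg]
    have h4 : ((n₁ : ℝ) - nr) * Q ≤ -((d * δ - 2 * ε) * L) + C' := by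
      nlinarith
    have h5 : (n₁ : ℝ) * Real.log d ≤ C' * α + Real.log r * q + nr * Real.log d := by
      have h6 := mul_le_mul_of_nonneg_left h4 hα0.le
      rw [hLr, hq, ← hαQ]
      nlinarith
    have h7 : ∀ n : ℕ, (d : ℝ) ^ n = Real.exp (n * Real.log d) := by
      intro n
      rw [Real.exp_nat_mul, Real.exp_log hd0]
    rw [h7, h7, hG, Real.rpow_def_of_pos hr, ← Real.exp_add, ← Real.exp_add]
    exact Real.exp_le_exp.2 h5
  -- the level is larger than `nr + 1`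
  have hdj : (0 : ℝ) < (d : ℝ) ^ j := by positivity
  have hb4 : (4 : ℝ) ≤ Real.exp ((d : ℝ) ^ j * b) :=
    hY.four.trans (Real.exp_le_exp.2 (mul_le_mul_of_nonneg_left hY.le hdj.le))
  have hnorm : ‖(f d c)^[j] (Y b)‖ = Real.exp ((d : ℝ) ^ j * b) := by
    rw [hY.eq b ⟨hY.le, le_rfl⟩, norm_mul, hY.unit, mul_one, Complex.norm_real, Real.norm_eq_abs,
      abs_of_pos (Real.exp_pos _)]
  have hx' : ‖f d c (Y b) - c‖ ≤ r := by
    have : f d c (Y b) - c = Y b ^ d := by unfold f; ring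
    rw [this, norm_pow]
    exact hYb
  have hthree : ∀ l ≤ nr, ‖(f d c)^[l + 1] (Y b)‖ ≤ 3 := by
    intro l hl
    rw [Function.iterate_succ_apply]
    exact hnr3 c (f d c (Y b)) hc hx' l hl
  have hj : nr + 1 < j := by
    by_contra hj
    push Not at hj
    rcases Nat.eq_zero_or_pos j with h0 | h0
    · rw [h0, Function.iterate_zero, id, ← h0] at hnorm
      have hρ1 : ρ ≤ 1 := Real.rpow_le_one hr.le hr1.le (by linarith)
      linarith
    · obtain ⟨l, rfl⟩ : ∃ l, j = l + 1 := ⟨j - 1, by omega⟩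
      have := hthree l (by omega)
      linarith
  obtain ⟨m, hm⟩ : ∃ m, j = m + (nr + 1) := ⟨j - (nr + 1), by omega⟩
  have hbound : (d : ℝ) ^ (nr + 1) * b ≤ Real.log 4 := by
    have h1 := exc_growth hd hc3 (hthree nr le_rfl) m
    rw [← Function.iterate_add_apply, ← hm, hnorm] at h1
    have h2 : (d : ℝ) ^ j * b ≤ (d : ℝ) ^ m * Real.log 4 := by
      have h3 : Real.exp ((d : ℝ) ^ j * b) ≤ (4 : ℝ) ^ (d ^ m) := by linarith
      have h4 := Real.log_le_log (Real.exp_pos _) h3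
      rw [Real.log_exp, Real.log_pow] at h4
      exact_mod_cast h4
    rw [hm, pow_add, mul_assoc] at h2
    exact le_of_mul_le_mul_left h2 (by positivity)
  have hb0 : 0 < b := by
    by_contra hb
    push Not at hb
    have h1 : (d : ℝ) ^ j * b ≤ 0 := mul_nonpos_of_nonneg_of_nonpos hdj.le hb
    have h2 : Real.exp ((d : ℝ) ^ j * b) ≤ 1 := Real.exp_le_one_iff.2 h1
    linarith
  -- the ray after `n₁ + 1` steps
  set s := n₁ + 1 with hs
  have hds : (0 : ℝ) < (d : ℝ) ^ s := by positivity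
  obtain ⟨j', hj'⟩ : ∃ j', j = j' + s := ⟨j - s, by omega⟩
  have hb' : (d : ℝ) ^ s * b ≤ B * r ^ q := by
    have h1 : (d : ℝ) ^ nr * ((d : ℝ) ^ s * b) ≤ (d : ℝ) ^ nr * (B * r ^ q) := by
      calc (d : ℝ) ^ nr * ((d : ℝ) ^ s * b) = (d : ℝ) ^ n₁ * ((d : ℝ) ^ (nr + 1) * b) := by
            rw [hs]; ring
        _ ≤ (d : ℝ) ^ n₁ * Real.log 4 := mul_le_mul_of_nonneg_left hbound (by positivity)
        _ ≤ (G * r ^ q * (d : ℝ) ^ nr) * Real.log 4 := mul_le_mul_of_nonneg_right hkey hlog4.le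
        _ = (d : ℝ) ^ nr * (B * r ^ q) := by rw [hB]; ring
    exact le_of_mul_le_mul_left h1 (by positivity)
  have hjds : (d : ℝ) ^ j = (d : ℝ) ^ j' * (d : ℝ) ^ s := by rw [hj', pow_add]
  have hray : Ray d c j' v (fun τ => (f d c)^[s] (Y (τ / (d : ℝ) ^ s))) ((d : ℝ) ^ s * t₁)
      ((d : ℝ) ^ s * b) := by
    have hmem : ∀ τ ∈ Icc ((d : ℝ) ^ s * t₁) ((d : ℝ) ^ s * b), τ / (d : ℝ) ^ s ∈ Icc a b := by
      intro τ hτ
      refine ⟨hat₁.trans ?_, ?_⟩
      · rw [le_div_iff₀ hds, mul_comm]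
        exact hτ.1
      · rw [div_le_iff₀ hds, mul_comm]
        exact hτ.2
    have hfour : (4 : ℝ) ≤ Real.exp ((d : ℝ) ^ j' * ((d : ℝ) ^ s * t₁)) := by
      rw [← mul_assoc, ← hjds]
      exact hY.four.trans (Real.exp_le_exp.2 (mul_le_mul_of_nonneg_left hat₁ hdj.le))
    refine ⟨mul_le_mul_of_nonneg_left ht₁.2 hds.le, ?_, hY.unit, ?_, hfour, ?_⟩
    · have hfc : Continuous ((f d c)^[s]) := by
        refine Continuous.iterate ?_ s
        unfold f
        fun_prop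
      refine hfc.comp_continuousOn ?_
      exact hY.cont.comp (continuousOn_id.div_const _) hmem
    · intro τ hτ
      show (f d c)^[j'] ((f d c)^[s] (Y (τ / (d : ℝ) ^ s))) = _
      rw [← Function.iterate_add_apply, ← hj', hY.eq _ (hmem τ hτ), hjds]
      congr 3
      field_simp
    · intro i hi hij
      refine (hY.crit i hi (by omega)).trans_le ?_
      rw [← mul_assoc, ← hjds]
      exact Real.exp_le_exp.2 (mul_le_mul_of_nonneg_left hat₁ hdj.le)
  have hD := hdisp j' (by omega) v _ _ _ hray (hb'.trans e5.le)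
  rw [mul_div_cancel_left₀ _ hds.ne', mul_div_cancel_left₀ _ hds.ne', hs,
    Function.iterate_succ_apply, Function.iterate_succ_apply] at hD
  -- the lower bound
  have hx1 : ‖f d c (Y t₁) - c‖ ≤ σ := by
    have : f d c (Y t₁) - c = Y t₁ ^ d := by unfold f; ring
    rw [this, norm_pow, ht₁ρ, hρσ]
  have hlow := hn₁s c (f d c (Y t₁)) (f d c (Y b)) (by linarith) hx1 (by linarith)
  have hdiff : σ / 2 ≤ ‖f d c (Y t₁) - f d c (Y b)‖ := by
    have h1 : f d c (Y t₁) - f d c (Y b) = Y t₁ ^ d - Y b ^ d := by unfold f; ring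
    rw [h1]
    have h2 := norm_sub_norm_le (Y t₁ ^ d) (Y b ^ d)
    rw [norm_pow, norm_pow, ht₁ρ, hρσ] at h2
    linarith
  have hlow2 : r ^ (2 * ε) / 2 ≤ σ ^ (2 * ε - 1) * ‖f d c (Y t₁) - f d c (Y b)‖ := by
    calc r ^ (2 * ε) / 2 ≤ σ ^ (2 * ε) / 2 := by
          have := Real.rpow_le_rpow hr.le (by linarith : r ≤ σ) (by linarith : 0 ≤ 2 * ε)
          linarith
      _ = σ ^ (2 * ε - 1) * (σ / 2) := by
          rw [Real.rpow_sub_one hσ0.ne']
          field_simp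
      _ ≤ _ := mul_le_mul_of_nonneg_left hdiff (Real.rpow_nonneg hσ0.le _)
  -- the upper bound
  have hup : C * ((d : ℝ) ^ (n₁ + 1) * b) ^ β + C * ρ ≤ K * r ^ (4 * ε) := by
    have h1 : ((d : ℝ) ^ (n₁ + 1) * b) ^ β ≤ B ^ β * r ^ (4 * ε) := by
      calc ((d : ℝ) ^ (n₁ + 1) * b) ^ β ≤ (B * r ^ q) ^ β :=
            Real.rpow_le_rpow (by positivity) hb' hβ.le
        _ = B ^ β * r ^ (q * β) := by
            rw [Real.mul_rpow hB0.le (Real.rpow_nonneg hr.le _), ← Real.rpow_mul hr.le]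
        _ ≤ B ^ β * r ^ (4 * ε) := mul_le_mul_of_nonneg_left
            (Real.rpow_le_rpow_of_exponent_ge hr hr1.le hqβ) (Real.rpow_nonneg hB0.le _)
    have h2 : ρ ≤ r ^ (4 * ε) := Real.rpow_le_rpow_of_exponent_ge hr hr1.le hexp2
    have h3 : C * ((d : ℝ) ^ (n₁ + 1) * b) ^ β ≤ C * (B ^ β * r ^ (4 * ε)) :=
      mul_le_mul_of_nonneg_left h1 (by linarith)
    have h4 : C * ρ ≤ C * r ^ (4 * ε) := mul_le_mul_of_nonneg_left h2 (by linarith)
    calc C * ((d : ℝ) ^ (n₁ + 1) * b) ^ β + C * ρ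
        ≤ C * (B ^ β * r ^ (4 * ε)) + C * r ^ (4 * ε) := add_le_add h3 h4
      _ = K * r ^ (4 * ε) := by rw [hK]; ring
  have hfin : r ^ (2 * ε) / 2 ≤ K * r ^ (4 * ε) :=
    hlow2.trans (hlow.trans (hD.trans hup))
  have hsplit : r ^ (4 * ε) = r ^ (2 * ε) * r ^ (2 * ε) := by
    rw [← Real.rpow_add hr]
    congr 1
    ring
  rw [hsplit] at hfin
  have hpos : 0 < r ^ (2 * ε) := Real.rpow_pos_of_pos hr _
  nlinarith

end Pool.Agent.N253.LS
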