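import Pool.Agent.N253.LS.Stm
import Pool.Agent.N253.SM.Exp

/-!
# Expansion by blocks (project SM of helper253; by helper821)
-/

set_option autoImplicit false

open Set Filter Metric Topology

namespace Pool.Agent.N253.LS

open Pool.Agent.TH279.MD Pool.Agent.Y298.SH Pool.Agent.Y298.SH.CD Pool.Agent.Y298.CA



open Pool.Agent.N253.SM.EXPaux

theorem t_EXP (h1 : S_FREE) (h2 : S_BND2) : S_EXP := by
  classical
  intro d c₀ hd hL
  obtain ⟨ρ₀, Γ, hρ₀, hΓ, hfree⟩ := h1 d c₀ hd hL
  obtain ⟨κB, ηB, K, hκB, hηB, hK, hbnd⟩ := h2 d c₀ hd hL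
  obtain ⟨δ₁, hδ₁, hδ₁4, hb⟩ := hbnd Γ hΓ
  obtain ⟨κF, ηF, e, hκF, hηF, he, hf⟩ := hfree (min ρ₀ δ₁) (lt_min hρ₀ hδ₁) (min_le_left _ _)
  have hΓ0 : 0 < Γ := by linarith
  set δ : ℝ := min ρ₀ δ₁ with hδ
  have hδδ₁ : δ ≤ δ₁ := min_le_right _ _
  set η : ℝ := min ηF ηB with hη
  have hη0 : 0 < η := lt_min hηF hηB
  have hηF' : η ≤ ηF := min_le_left _ _
  have hηB' : η ≤ ηB := min_le_right _ _
  set κ : ℝ := min 1 (min κF (min (1 / Γ) κB)) with hκ
  have hκ0 : 0 < κ := lt_min one_pos (lt_min hκF (lt_min (by positivity) hκB))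
  have hκ1 : κ ≤ 1 := min_le_left _ _
  have hκF' : κ ≤ κF := (min_le_right _ _).trans (min_le_left _ _)
  have hκΓ : κ ≤ 1 / Γ := ((min_le_right _ _).trans (min_le_right _ _)).trans (min_le_left _ _)
  have hκB' : κ ≤ κB := ((min_le_right _ _).trans (min_le_right _ _)).trans (min_le_right _ _)
  refine ⟨κ, η, K, e, hκ0, hκ1, hη0, hK, he, fun c r y n hr hre hc => ?_⟩
  have hce : ‖c - c₀‖ ≤ e := hc.trans hre
  induction n using Nat.strong_induction_on generalizing y with
  | _ n ih =>
    intro h4 hfar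
    by_cases hcase : ∀ j < n, 2 * δ ≤ ‖(f d c)^[j] y‖
    · left
      obtain ⟨g1, -⟩ := hf c hce y n hcase h4
      refine le_trans ?_ g1
      have : Real.exp (η * n) ≤ Real.exp (ηF * n) :=
        Real.exp_le_exp.2 (mul_le_mul_of_nonneg_right hηF' (Nat.cast_nonneg _))
      exact mul_le_mul hκF' this (Real.exp_pos _).le hκF.le
    · push Not at hcase
      obtain ⟨m, ⟨hmn, hmδ⟩, hmin⟩ : ∃ m, (m < n ∧ ‖(f d c)^[m] y‖ < 2 * δ) ∧
          ∀ j < m, 2 * δ ≤ ‖(f d c)^[j] y‖ := by
        refine ⟨Nat.find hcase, Nat.find_spec hcase, fun j hj => ?_⟩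
        have h5 := Nat.find_min hcase hj
        by_contra hcon
        push Not at hcon
        exact h5 ⟨hj.trans (Nat.find_spec hcase).1, hcon⟩
      set p : ℂ := (f d c)^[m] y with hp
      have hDm : Real.exp (η * m) ≤ Γ * ‖deriv ((f d c)^[m]) y‖ := by
        obtain ⟨-, g2⟩ := hf c hce y m hmin (fun j hj => h4 j (by omega))
        refine le_trans (Real.exp_le_exp.2 ?_) (g2 hmδ.le)
        exact mul_le_mul_of_nonneg_right hηF' (Nat.cast_nonneg _)
      have hrp : r ≤ ‖p‖ ^ d := hfar m hmn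
      have hp0 : p ≠ 0 := by
        intro h0
        rw [h0, norm_zero, zero_pow (by omega)] at hrp
        linarith
      have hp2 : ‖p‖ ≤ 2 * δ₁ := by linarith
      obtain ⟨k, hk1, hk2, -, hk3⟩ := hb c p hp0 hp2 (hc.trans hrp)
      rcases le_or_gt n (m + k) with hn | hn
      · right
        obtain ⟨j, hj, hjk⟩ : ∃ j, n = (j + 1) + m ∧ j < k := ⟨n - m - 1, by omega, by omega⟩
        obtain ⟨q1, q2⟩ := hk3 j hjk
        refine ⟨m, hmn, ?_, by linarith, ?_, ?_, ?_⟩
        · calc κ * Real.exp (η * m) ≤ 1 / Γ * (Γ * ‖deriv ((f d c)^[m]) y‖) :=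
                mul_le_mul hκΓ hDm (Real.exp_pos _).le (by positivity)
            _ = ‖deriv ((f d c)^[m]) y‖ := by field_simp
        · refine le_trans ?_ hk1
          have h6 : (n : ℝ) = (j : ℝ) + 1 + m := by rw [hj]; push_cast; ring
          have h7 : (j : ℝ) ≤ k := by exact_mod_cast hjk.le
          rw [h6]
          linarith
        · rw [hj, chain, norm_mul, ← hp]
          refine mul_le_mul_of_nonneg_right (le_trans ?_ q1) (norm_nonneg _)
          exact mul_le_mul_of_nonneg_right hκB' (by positivity)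
        · rw [hj, Function.iterate_add_apply, ← hp]
          refine le_trans ?_ q2
          exact mul_le_mul_of_nonneg_right hκB' (Real.sqrt_nonneg _)
      · -- a free block and a bound block
        set g : ℕ := (k + 1) + m with hg
        have hgn : g ≤ n := by omega
        have hDg : Real.exp (η * g) ≤ ‖deriv ((f d c)^[g]) y‖ := by
          rw [hg, chain, norm_mul, ← hp]
          have e1 : Real.exp (η * ((k + 1 + m : ℕ) : ℝ)) =
              Real.exp (η * ((k + 1 : ℕ) : ℝ)) * Real.exp (η * m) := by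
            rw [← Real.exp_add]
            congr 1
            push_cast
            ring
          have e2 : Real.exp (η * ((k + 1 : ℕ) : ℝ)) ≤ Real.exp (ηB * ((k + 1 : ℕ) : ℝ)) :=
            Real.exp_le_exp.2 (mul_le_mul_of_nonneg_right hηB' (Nat.cast_nonneg _))
          rw [e1]
          calc Real.exp (η * ((k + 1 : ℕ) : ℝ)) * Real.exp (η * m)
              ≤ Real.exp (ηB * ((k + 1 : ℕ) : ℝ)) * (Γ * ‖deriv ((f d c)^[m]) y‖) :=
                mul_le_mul e2 hDm (Real.exp_pos _).le (Real.exp_pos _).le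
            _ = Γ * Real.exp (ηB * ((k + 1 : ℕ) : ℝ)) * ‖deriv ((f d c)^[m]) y‖ := by ring
            _ ≤ _ := mul_le_mul_of_nonneg_right hk2 (norm_nonneg _)
        obtain ⟨n', hn'⟩ : ∃ n', n = n' + g := ⟨n - g, by omega⟩
        have hn'n : n' < n := by omega
        have hit : ∀ j, (f d c)^[j] ((f d c)^[g] y) = (f d c)^[j + g] y := fun j =>
          (Function.iterate_add_apply _ _ _ _).symm
        have hD : ∀ j, ‖deriv ((f d c)^[j]) ((f d c)^[g] y)‖ * ‖deriv ((f d c)^[g]) y‖ =
            ‖deriv ((f d c)^[j + g]) y‖ := fun j => by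
          rw [chain d c y j g, norm_mul]
        have hexp : ∀ j : ℕ, Real.exp (η * ((j + g : ℕ) : ℝ)) =
            Real.exp (η * j) * Real.exp (η * g) := fun j => by
          rw [← Real.exp_add]
          congr 1
          push_cast
          ring
        rcases ih n' hn'n ((f d c)^[g] y) (fun j hj => by rw [hit]; exact h4 _ (by omega))
          (fun j hj => by rw [hit]; exact hfar _ (by omega)) with hA | ⟨i, hi, b1, b2, b3, b4, b5⟩
        · left
          rw [hn', hexp, ← hD]
          calc κ * (Real.exp (η * n') * Real.exp (η * g))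
              = κ * Real.exp (η * n') * Real.exp (η * g) := by ring
            _ ≤ _ := mul_le_mul hA hDg (Real.exp_pos _).le (norm_nonneg _)
        · right
          simp only [hit] at b2 b3 b4 b5
          refine ⟨i + g, by omega, ?_, b2, ?_, ?_, ?_⟩
          · rw [hexp, ← hD]
            calc κ * (Real.exp (η * i) * Real.exp (η * g))
                = κ * Real.exp (η * i) * Real.exp (η * g) := by ring
              _ ≤ _ := mul_le_mul b1 hDg (Real.exp_pos _).le (norm_nonneg _)
          · refine le_trans (le_of_eq ?_) b3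
            rw [hn']
            push_cast
            ring
          · rw [hn', ← hD, ← hD]
            calc κ * ‖(f d c)^[i + g] y‖ ^ (d - 1) *
                  (‖deriv ((f d c)^[i]) ((f d c)^[g] y)‖ * ‖deriv ((f d c)^[g]) y‖)
                = κ * ‖(f d c)^[i + g] y‖ ^ (d - 1) * ‖deriv ((f d c)^[i]) ((f d c)^[g] y)‖ *
                  ‖deriv ((f d c)^[g]) y‖ := by ring
              _ ≤ _ := mul_le_mul_of_nonneg_right b4 (norm_nonneg _)
          · rw [hn']
            exact b5

end Pool.Agent.N253.LS
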