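import Pool.Agent.N253.LS.Stm
import Pool.Agent.N253.LC.Exq
import Pool.Agent.N253.SM.Exp
import Pool.Agent.Y674.CA.Lya

/-!
# Three forms of expansion (project LC of helper253; by helper301)
-/

set_option autoImplicit false

open Set Filter Metric Topology

namespace Pool.Agent.N253.LS

open Pool.Agent.TH279.MD Pool.Agent.Y298.SH Pool.Agent.Y298.SH.CD Pool.Agent.Y298.CA
open Pool.Agent.N253.SM.EXPaux (diff_f chain)



open Pool.Agent.N253.LC.EXQaux

theorem t_EXQ (h1 : S_FREE) (h2 : S_BND2) (h3 : S_EXP) :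
    S_EXQ := by
  classical
  intro d c₀ hd hL
  have hdR : (2 : ℝ) ≤ d := by exact_mod_cast hd
  have hd0 : (0 : ℝ) < d := by linarith
  obtain ⟨⟨C₁, lam, hCE⟩, -⟩ := id hL
  have hc0 : ‖c₀‖ ≤ 2 := hCE.bd 0
  obtain ⟨ρ₀, Γ, hρ₀, hΓ, hfree⟩ := h1 d c₀ hd hL
  obtain ⟨κB, ηB, KB, hκB, hηB, hKB, hbnd⟩ := h2 d c₀ hd hL
  obtain ⟨δ₁, hδ₁, hδ₁4, hb⟩ := hbnd Γ hΓ
  obtain ⟨κF, ηF, e, hκF, hηF, he, hf⟩ := hfree (min ρ₀ δ₁) (lt_min hρ₀ hδ₁) (min_le_left _ _)
  obtain ⟨k0, η0, K, rE, hk0, hk01, hη0, hK, hrE, hexp⟩ := h3 d c₀ hd hL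
  have hΓ0 : 0 < Γ := by linarith
  obtain ⟨δ, hδ⟩ : ∃ δ : ℝ, δ = min ρ₀ δ₁ := ⟨_, rfl⟩
  rw [← hδ] at hf
  have hδδ₁ : δ ≤ δ₁ := by rw [hδ]; exact min_le_right _ _
  -- the constants
  obtain ⟨Q, hQ⟩ : ∃ Q : ℝ, Q = Real.log (d * 3 ^ (d - 1)) := ⟨_, rfl⟩
  have hQbase : (1 : ℝ) < d * 3 ^ (d - 1) := by
    have h4 : (1 : ℝ) ≤ 3 ^ (d - 1) := one_le_pow₀ (by norm_num)
    nlinarith
  have hQ0 : 0 < Q := by rw [hQ]; exact Real.log_pos hQbase
  obtain ⟨a₁, ha₁⟩ : ∃ a₁ : ℝ, a₁ = η0 / (2 * Q) := ⟨_, rfl⟩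
  have ha₁0 : 0 < a₁ := by rw [ha₁]; positivity
  obtain ⟨η, hη⟩ : ∃ η : ℝ, η = min (min ηF ηB) (min (η0 / 2) (Real.log d)) := ⟨_, rfl⟩
  have hlogd : 0 < Real.log d := Real.log_pos (by linarith)
  have hη0' : 0 < η := by
    rw [hη]
    exact lt_min (lt_min hηF hηB) (lt_min (by positivity) hlogd)
  have hηF' : η ≤ ηF := by rw [hη]; exact (min_le_left _ _).trans (min_le_left _ _)
  have hηB' : η ≤ ηB := by rw [hη]; exact (min_le_left _ _).trans (min_le_right _ _)
  have hηE : η ≤ η0 / 2 := by rw [hη]; exact (min_le_right _ _).trans (min_le_left _ _)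
  have hηd : η ≤ Real.log d := by rw [hη]; exact (min_le_right _ _).trans (min_le_right _ _)
  have hηE' : η ≤ η0 := by linarith
  obtain ⟨κ1, hκ1⟩ : ∃ κ1 : ℝ, κ1 = κF * Real.exp (-ηF) := ⟨_, rfl⟩
  obtain ⟨κ2, hκ2⟩ : ∃ κ2 : ℝ, κ2 = k0 * (2 * δ₁) ^ a₁ := ⟨_, rfl⟩
  obtain ⟨κ3, hκ3⟩ : ∃ κ3 : ℝ, κ3 = k0 ^ 2 * Real.exp (-(η0 * K)) := ⟨_, rfl⟩
  have hκ10 : 0 < κ1 := by rw [hκ1]; positivity
  have hκ20 : 0 < κ2 := by rw [hκ2]; positivity
  have hκ30 : 0 < κ3 := by rw [hκ3]; positivity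
  obtain ⟨κ, hκ⟩ : ∃ κ : ℝ, κ = min (min k0 κ1) (min κ2 κ3) := ⟨_, rfl⟩
  have hκ0 : 0 < κ := by rw [hκ]; exact lt_min (lt_min hk0 hκ10) (lt_min hκ20 hκ30)
  have hκk0 : κ ≤ k0 := by rw [hκ]; exact (min_le_left _ _).trans (min_le_left _ _)
  have hκκ1 : κ ≤ κ1 := by rw [hκ]; exact (min_le_left _ _).trans (min_le_right _ _)
  have hκκ2 : κ ≤ κ2 := by rw [hκ]; exact (min_le_right _ _).trans (min_le_left _ _)
  have hκκ3 : κ ≤ κ3 := by rw [hκ]; exact (min_le_right _ _).trans (min_le_right _ _)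
  have hκ1' : κ ≤ 1 := hκk0.trans hk01
  obtain ⟨r₀, hr₀⟩ : ∃ r₀ : ℝ, r₀ = min (min e rE) (min (1 / 2)
      (min ((k0 / 2) ^ (4 * d)) ((κB / 2) ^ (4 * d)))) := ⟨_, rfl⟩
  have hr₀0 : 0 < r₀ := by
    rw [hr₀]
    exact lt_min (lt_min he hrE) (lt_min (by norm_num) (lt_min (by positivity) (by positivity)))
  have hr₀e : r₀ ≤ e := by rw [hr₀]; exact (min_le_left _ _).trans (min_le_left _ _)
  have hr₀E : r₀ ≤ rE := by rw [hr₀]; exact (min_le_left _ _).trans (min_le_right _ _)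
  have hr₀2 : r₀ ≤ 1 / 2 := by rw [hr₀]; exact (min_le_right _ _).trans (min_le_left _ _)
  have hr₀k : r₀ ≤ (k0 / 2) ^ (4 * d) := by
    rw [hr₀]
    exact ((min_le_right _ _).trans (min_le_right _ _)).trans (min_le_left _ _)
  have hr₀B : r₀ ≤ (κB / 2) ^ (4 * d) := by
    rw [hr₀]
    exact ((min_le_right _ _).trans (min_le_right _ _)).trans (min_le_right _ _)
  refine ⟨κ, η, a₁, d + η0 * K, r₀, hκ0, hκ1', hη0', hηd, ha₁0, ?_, hr₀0,
    fun c r y n hr hrr hc => ⟨?_, ?_, ?_⟩⟩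
  · have : 0 ≤ η0 * K := by positivity
    linarith
  · -- up to the escape
    have hcn : ‖c‖ ≤ 5 / 2 := by
      have h4 : ‖c‖ ≤ ‖c - c₀‖ + ‖c₀‖ := by
        calc ‖c‖ = ‖c - c₀ + c₀‖ := by rw [sub_add_cancel]
          _ ≤ _ := norm_add_le _ _
      linarith
    induction n using Nat.strong_induction_on generalizing y with
    | _ n ih =>
      intro h4 hesc hfar
      rcases Nat.eq_zero_or_pos n with hn0 | hn0
      · subst hn0
        simpa using hκ1'
      obtain ⟨n1, rfl⟩ : ∃ n1, n = n1 + 1 := ⟨n - 1, by omega⟩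
      by_cases hcase : ∀ j < n1 + 1, 2 * δ ≤ ‖(f d c)^[j] y‖
      · obtain ⟨g1, -⟩ := hf c (hc.trans (hrr.trans hr₀e)) y n1 (fun j hj => hcase j (by omega))
          (fun j hj => (h4 j (by omega)).trans (by norm_num))
        have h5 : ‖deriv ((f d c)^[n1 + 1]) y‖ =
            (d * ‖(f d c)^[n1] y‖ ^ (d - 1)) * ‖deriv ((f d c)^[n1]) y‖ := by
          rw [add_comm n1 1, chain, norm_mul, Pool.Agent.N253.LC.EXQaux.deriv_one]
        have h6 : 1 ≤ (d : ℝ) * ‖(f d c)^[n1] y‖ ^ (d - 1) := by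
          apply last_factor hd hcn
          rw [← Function.iterate_succ_apply' (f d c) n1 y]
          exact hesc
        rw [h5]
        calc κ * Real.exp (η * ((n1 + 1 : ℕ) : ℝ)) ≤
              (κF * Real.exp (-ηF)) * Real.exp (ηF * ((n1 + 1 : ℕ) : ℝ)) := by
              rw [← hκ1]
              apply mul_le_mul hκκ1 _ (Real.exp_pos _).le hκ10.le
              exact Real.exp_le_exp.2 (mul_le_mul_of_nonneg_right hηF' (Nat.cast_nonneg _))
          _ = 1 * (κF * Real.exp (ηF * n1)) := by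
              rw [one_mul, mul_assoc, ← Real.exp_add]
              congr 2
              push_cast
              ring
          _ ≤ _ := mul_le_mul h6 g1 (by positivity) (by positivity)
      · push Not at hcase
        obtain ⟨m, ⟨hmn, hmδ⟩, hmin⟩ : ∃ m, (m < n1 + 1 ∧ ‖(f d c)^[m] y‖ < 2 * δ) ∧
            ∀ j < m, 2 * δ ≤ ‖(f d c)^[j] y‖ := by
          refine ⟨Nat.find hcase, Nat.find_spec hcase, fun j hj => ?_⟩
          have h5 := Nat.find_min hcase hj
          by_contra hcon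
          push Not at hcon
          exact h5 ⟨hj.trans (Nat.find_spec hcase).1, hcon⟩
        obtain ⟨p, hp⟩ : ∃ p : ℂ, p = (f d c)^[m] y := ⟨_, rfl⟩
        have hDm : Real.exp (η * m) ≤ Γ * ‖deriv ((f d c)^[m]) y‖ := by
          obtain ⟨-, g2⟩ := hf c (hc.trans (hrr.trans hr₀e)) y m hmin
            (fun j hj => (h4 j (by omega)).trans (by norm_num))
          refine le_trans (Real.exp_le_exp.2 ?_) (g2 hmδ.le)
          exact mul_le_mul_of_nonneg_right hηF' (Nat.cast_nonneg _)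
        have hrp : r ≤ ‖p‖ ^ d := by rw [hp]; exact hfar m hmn
        have hp0 : p ≠ 0 := by
          intro h0
          rw [h0, norm_zero, zero_pow (by omega)] at hrp
          linarith
        have hp2 : ‖p‖ ≤ 2 * δ₁ := by rw [hp]; linarith
        obtain ⟨k, -, hk2, hk3, -⟩ := hb c p hp0 hp2 (hc.trans hrp)
        have hlt : m + k + 1 < n1 + 1 := by
          by_contra hcon
          push Not at hcon
          obtain ⟨j, hj, hjk⟩ : ∃ j, n1 + 1 = (j + 1) + m ∧ j ≤ k :=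
            ⟨n1 - m, by omega, by omega⟩
          have h5 := hk3 j hjk
          rw [hp, ← Function.iterate_add_apply, ← hj] at h5
          linarith
        obtain ⟨g, hg⟩ : ∃ g : ℕ, g = (k + 1) + m := ⟨_, rfl⟩
        have hDg : Real.exp (η * g) ≤ ‖deriv ((f d c)^[g]) y‖ := by
          rw [hg, chain, norm_mul, ← hp]
          have e1 : Real.exp (η * ((k + 1 + m : ℕ) : ℝ)) =
              Real.exp (η * ((k + 1 : ℕ) : ℝ)) * Real.exp (η * m) := by
            rw [← Real.exp_add]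
            congr 1
            push_cast
            ring
          have e2 : Real.exp (η * ((k + 1 : ℕ) : ℝ)) ≤ Real.exp (ηB * ((k + 1 : ℕ) : ℝ)) :=
            Real.exp_le_exp.2 (mul_le_mul_of_nonneg_right hηB' (Nat.cast_nonneg _))
          rw [e1]
          calc Real.exp (η * ((k + 1 : ℕ) : ℝ)) * Real.exp (η * m)
              ≤ Real.exp (ηB * ((k + 1 : ℕ) : ℝ)) * (Γ * ‖deriv ((f d c)^[m]) y‖) :=
                mul_le_mul e2 hDm (Real.exp_pos _).le (Real.exp_pos _).le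
            _ = Γ * Real.exp (ηB * ((k + 1 : ℕ) : ℝ)) * ‖deriv ((f d c)^[m]) y‖ := by ring
            _ ≤ _ := mul_le_mul_of_nonneg_right hk2 (norm_nonneg _)
        obtain ⟨n', hn'⟩ : ∃ n', n1 + 1 = n' + g := ⟨n1 + 1 - g, by omega⟩
        have hit : ∀ j, (f d c)^[j] ((f d c)^[g] y) = (f d c)^[j + g] y := fun j =>
          (Function.iterate_add_apply _ _ _ _).symm
        have h7 := ih n' (by omega) ((f d c)^[g] y) (fun j hj => by rw [hit]; exact h4 _ (by omega))
          (by rw [hit, ← hn']; exact hesc) (fun j hj => by rw [hit]; exact hfar _ (by omega))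
        rw [hn', chain, norm_mul]
        have e3 : Real.exp (η * ((n' + g : ℕ) : ℝ)) = Real.exp (η * n') * Real.exp (η * g) := by
          rw [← Real.exp_add]
          congr 1
          push_cast
          ring
        rw [e3]
        calc κ * (Real.exp (η * n') * Real.exp (η * g))
            = κ * Real.exp (η * n') * Real.exp (η * g) := by ring
          _ ≤ _ := mul_le_mul h7 hDg (Real.exp_pos _).le (norm_nonneg _)
  · -- a return near the critical point
    intro hn1 h4 hfar hret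
    have hD : k0 * Real.exp (η0 * n) ≤ ‖deriv ((f d c)^[n]) y‖ := by
      rcases hexp c r y n hr (hrr.trans hr₀E) hc h4 hfar with h5 | ⟨i, hi, -, -, -, -, b5⟩
      · exact h5
      · exact (no_pass hd hk0 hr (hrr.trans hr₀k) (norm_nonneg _) (hfar i hi) b5 hret).elim
    have hry : r ≤ ‖y‖ ^ d := by simpa using hfar 0 (by omega)
    have hy0 : y ≠ 0 := by
      intro h0
      rw [h0, norm_zero, zero_pow (by omega)] at hry
      linarith
    have hyp : 0 < ‖y‖ := norm_pos_iff.2 hy0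
    rcases le_or_gt ‖y‖ (2 * δ₁) with hyδ | hyδ
    · obtain ⟨k, -, hk2, hk3, hk4⟩ := hb c y hy0 hyδ (hc.trans hry)
      have hkn : k + 1 ≤ n := by
        by_contra hcon
        push Not at hcon
        obtain ⟨j, hj, hjk⟩ : ∃ j, n = j + 1 ∧ j < k := ⟨n - 1, by omega, by omega⟩
        have h5 := (hk4 j hjk).2
        rw [← hj] at h5
        exact no_pass hd hκB hr (hrr.trans hr₀B) (norm_nonneg _) hry h5 hret
      have hy1 : ‖y‖ ≤ 1 := by linarith
      have h6 : 1 ≤ ‖deriv ((f d c)^[k + 1]) y‖ := by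
        refine le_trans ?_ hk2
        have : 1 ≤ Real.exp (ηB * ((k + 1 : ℕ) : ℝ)) := Real.one_le_exp (by positivity)
        nlinarith
      have h7 : ‖deriv ((f d c)^[k + 1]) y‖ ≤
          ((d : ℝ) * 3 ^ (d - 1)) ^ k * (d * ‖y‖ ^ (d - 1)) := by
        rw [chain, norm_mul, Pool.Agent.N253.LC.EXQaux.deriv_one]
        apply mul_le_mul_of_nonneg_right _ (by positivity)
        apply Pool.Agent.N253.LC.EXQaux.upper
        intro j hj
        rw [← Function.iterate_add_apply]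
        exact hk3 j (by omega)
      have h8 : ‖y‖ ^ (d - 1) ≤ ‖y‖ := by
        calc ‖y‖ ^ (d - 1) ≤ ‖y‖ ^ 1 := pow_le_pow_of_le_one hyp.le hy1 (by omega)
          _ = ‖y‖ := pow_one _
      have h9 : 1 ≤ ((d : ℝ) * 3 ^ (d - 1)) ^ (k + 1) * ‖y‖ := by
        refine (h6.trans h7).trans ?_
        rw [pow_succ, mul_assoc]
        apply mul_le_mul_of_nonneg_left _ (by positivity)
        apply mul_le_mul _ h8 (by positivity) (by positivity)
        exact le_mul_of_one_le_right hd0.le (one_le_pow₀ (by norm_num))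
      have h11 : Real.log (1 / ‖y‖) ≤ Q * ((k + 1 : ℕ) : ℝ) := by
        have h12 : 1 / ‖y‖ ≤ ((d : ℝ) * 3 ^ (d - 1)) ^ (k + 1) := by
          rw [div_le_iff₀ hyp]
          exact h9
        have h13 := Real.log_le_log (by positivity) h12
        rw [Real.log_pow, ← hQ] at h13
        linarith
      have h14 : ‖y‖ ^ (-a₁) ≤ Real.exp (η0 / 2 * n) := by
        rw [Real.rpow_def_of_pos hyp]
        apply Real.exp_le_exp.2
        have e1 : Real.log ‖y‖ = -Real.log (1 / ‖y‖) := by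
          rw [one_div, Real.log_inv, neg_neg]
        rw [e1]
        calc -Real.log (1 / ‖y‖) * -a₁ = a₁ * Real.log (1 / ‖y‖) := by ring
          _ ≤ a₁ * (Q * ((k + 1 : ℕ) : ℝ)) := mul_le_mul_of_nonneg_left h11 ha₁0.le
          _ = η0 / 2 * ((k + 1 : ℕ) : ℝ) := by
              rw [ha₁]
              field_simp
          _ ≤ η0 / 2 * n := by
              apply mul_le_mul_of_nonneg_left _ (by positivity)
              exact_mod_cast hkn
      refine le_trans ?_ hD
      calc κ * Real.exp (η * n) * ‖y‖ ^ (-a₁) ≤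
            k0 * Real.exp (η0 / 2 * n) * Real.exp (η0 / 2 * n) := by
            apply mul_le_mul _ h14 (by positivity) (by positivity)
            apply mul_le_mul hκk0 _ (Real.exp_pos _).le hk0.le
            exact Real.exp_le_exp.2 (mul_le_mul_of_nonneg_right hηE (Nat.cast_nonneg _))
        _ = k0 * Real.exp (η0 * n) := by
            rw [mul_assoc, ← Real.exp_add]
            congr 2
            ring
    · have h5 : ‖y‖ ^ (-a₁) ≤ ((2 * δ₁) ^ a₁)⁻¹ := by
        rw [Real.rpow_neg hyp.le]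
        apply inv_anti₀ (by positivity)
        exact Real.rpow_le_rpow (by positivity) hyδ.le ha₁0.le
      refine le_trans ?_ hD
      have h6 : (0 : ℝ) < (2 * δ₁) ^ a₁ := by positivity
      calc κ * Real.exp (η * n) * ‖y‖ ^ (-a₁) ≤
            (k0 * (2 * δ₁) ^ a₁) * Real.exp (η0 * n) * ((2 * δ₁) ^ a₁)⁻¹ := by
            rw [← hκ2]
            apply mul_le_mul _ h5 (by positivity) (by positivity)
            apply mul_le_mul hκκ2 _ (Real.exp_pos _).le hκ20.le
            exact Real.exp_le_exp.2 (mul_le_mul_of_nonneg_right hηE' (Nat.cast_nonneg _))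
        _ = k0 * Real.exp (η0 * n) := by
            field_simp
  · -- orbits which stay away from the critical point
    intro t ht ht1 hrt h4 hfar
    have hKη : 0 < η0 * K := by positivity
    have hexpn : Real.exp (η * n) ≤ Real.exp (η0 * n) :=
      Real.exp_le_exp.2 (mul_le_mul_of_nonneg_right hηE' (Nat.cast_nonneg _))
    rcases hexp c r y n hr (hrr.trans hr₀E) hc h4
      (fun j hj => hrt.trans (pow_le_pow_left₀ ht.le (hfar j hj) d)) with h5 | ⟨i, hi, b1, b2, b3, b4, -⟩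
    · refine le_trans ?_ h5
      have h6 : t ^ ((d : ℝ) + η0 * K) ≤ 1 := Real.rpow_le_one ht.le ht1 (by positivity)
      calc κ * t ^ ((d : ℝ) + η0 * K) * Real.exp (η * n) ≤ k0 * 1 * Real.exp (η0 * n) := by
            gcongr
        _ = _ := by ring
    · refine le_trans ?_ b4
      have hpi : t ≤ ‖(f d c)^[i] y‖ := hfar i hi
      have hp0 : 0 < ‖(f d c)^[i] y‖ := ht.trans_le hpi
      have hlog : Real.log (1 / ‖(f d c)^[i] y‖) ≤ Real.log (1 / t) :=
        Real.log_le_log (by positivity) (one_div_le_one_div_of_le ht hpi)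
      have h6 : (n : ℝ) - i ≤ K * (1 + Real.log (1 / t)) := by
        refine b3.trans (mul_le_mul_of_nonneg_left (by linarith) (by linarith))
      have h7 : Real.exp (η0 * n) * (Real.exp (-(η0 * K)) * t ^ (η0 * K)) ≤
          Real.exp (η0 * i) := by
        rw [Real.rpow_def_of_pos ht, ← Real.exp_add, ← Real.exp_add]
        apply Real.exp_le_exp.2
        have e1 : Real.log (1 / t) = -Real.log t := by
          rw [one_div, Real.log_inv]
        rw [e1] at h6
        nlinarith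
      have h8 : t ^ ((d : ℝ) + η0 * K) ≤ t ^ (d - 1) * t ^ (η0 * K) := by
        rw [← Real.rpow_natCast t (d - 1), ← Real.rpow_add ht]
        apply Real.rpow_le_rpow_of_exponent_ge ht ht1
        have : ((d - 1 : ℕ) : ℝ) ≤ d := by exact_mod_cast Nat.sub_le d 1
        linarith
      have h9 : t ^ (d - 1) ≤ ‖(f d c)^[i] y‖ ^ (d - 1) := pow_le_pow_left₀ ht.le hpi _
      calc κ * t ^ ((d : ℝ) + η0 * K) * Real.exp (η * n) ≤
            (k0 ^ 2 * Real.exp (-(η0 * K))) * (t ^ (d - 1) * t ^ (η0 * K)) * Real.exp (η0 * n) := by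
            rw [← hκ3]
            gcongr
        _ = k0 * t ^ (d - 1) * (k0 * (Real.exp (η0 * n) *
              (Real.exp (-(η0 * K)) * t ^ (η0 * K)))) := by ring
        _ ≤ k0 * ‖(f d c)^[i] y‖ ^ (d - 1) * (k0 * Real.exp (η0 * i)) := by
            gcongr
        _ ≤ k0 * ‖(f d c)^[i] y‖ ^ (d - 1) * ‖deriv ((f d c)^[i]) y‖ := by
            gcongr

end Pool.Agent.N253.LS
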