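import Mathlib
import Pool.Agent.N253.LS.Stm
import Pool.Agent.N253.EC.Comp
import Pool.Agent.N253.SM.Zlem
import Pool.Agent.N253.SM.Fin

/-!
# Project LS: impressions, general facts (helper253)
-/

set_option autoImplicit false

open Set Filter Metric Topology

namespace Pool.Agent.N253.LS

open Pool.Agent.TH279.MD Pool.Agent.Y298.SH Pool.Agent.Y298.SH.CD Pool.Agent.Y298.CA
open Pool.Agent.H713R2 (IsExteriorMap)

/-- the part of a small disc about a point of the circle outside the unit disc -/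
def SS (ζ : ℂ) (r : ℝ) : Set ℂ := {w : ℂ | ‖w - ζ‖ < r ∧ 1 < ‖w‖}

theorem re_mul_conj (z u : ℂ) : (z * (starRingEnd ℂ) u).re = z.re * u.re + z.im * u.im := by
  simp [Complex.mul_re]

theorem SS_preconnected {ζ : ℂ} (hζ : ‖ζ‖ = 1) {r : ℝ} (hr : 0 < r) (hr5 : r ≤ 1 / 5) :
    IsPreconnected (SS ζ r) := by
  have hp1 : ‖(((1 + r / 2 : ℝ) : ℂ) * ζ) - ζ‖ = r / 2 := by
    have : (((1 + r / 2 : ℝ) : ℂ) * ζ) - ζ = ((r / 2 : ℝ) : ℂ) * ζ := by push_cast; ring
    rw [this, norm_mul, hζ, mul_one, Complex.norm_real, Real.norm_of_nonneg (by positivity)]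
  have hp2 : ‖(((1 + r / 2 : ℝ) : ℂ) * ζ)‖ = 1 + r / 2 := by
    rw [norm_mul, hζ, mul_one, Complex.norm_real, Real.norm_of_nonneg (by positivity)]
  obtain ⟨p, hp⟩ : ∃ p : ℂ, p = (((1 + r / 2 : ℝ) : ℂ) * ζ) := ⟨_, rfl⟩
  rw [← hp] at hp1 hp2
  have hpS : p ∈ SS ζ r := ⟨by rw [hp1]; linarith, by rw [hp2]; linarith⟩
  have hstar : StarConvex ℝ p (SS ζ r) := by
    intro w hw a b ha hb hab
    obtain ⟨hw1, hw2⟩ := hw
    refine ⟨?_, ?_⟩
    · have e : a • p + b • w - ζ = a • (p - ζ) + b • (w - ζ) := by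
        rw [smul_sub, smul_sub]
        have : ζ = a • ζ + b • ζ := by rw [← add_smul, hab, one_smul]
        nth_rewrite 1 [this]
        abel
      rw [e]
      refine (norm_add_le _ _).trans_lt ?_
      rw [norm_smul, norm_smul, Real.norm_of_nonneg ha, Real.norm_of_nonneg hb, hp1]
      have h1 : b * ‖w - ζ‖ ≤ b * r := by gcongr
      rcases eq_or_lt_of_le ha with h0 | h0
      · rw [← h0] at hab ⊢
        have : b = 1 := by linarith
        rw [this]
        linarith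
      · nlinarith
    · have hw0 : 0 < ‖w‖ := by linarith
      obtain ⟨u, hu⟩ : ∃ u : ℂ, u = w / ‖w‖ := ⟨_, rfl⟩
      have hw0' : (‖w‖ : ℂ) ≠ 0 := by exact_mod_cast hw0.ne'
      have hun : ‖u‖ = 1 := by
        rw [hu, norm_div, Complex.norm_real, norm_norm, div_self hw0.ne']
      have hwu : w = ((‖w‖ : ℝ) : ℂ) * u := by
        rw [hu]; field_simp
      have hsq : u.re * u.re + u.im * u.im = 1 := by
        have := Complex.sq_norm u
        rw [hun, Complex.normSq_apply] at this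
        linarith
      have hζsq : ζ.re * ζ.re + ζ.im * ζ.im = 1 := by
        have := Complex.sq_norm ζ
        rw [hζ, Complex.normSq_apply] at this
        linarith
      have hwR : (w * (starRingEnd ℂ) u).re = ‖w‖ := by
        rw [re_mul_conj]
        have h1 : w.re = ‖w‖ * u.re := by
          have := congrArg Complex.re hwu
          rw [Complex.re_ofReal_mul] at this
          exact this
        have h2 : w.im = ‖w‖ * u.im := by
          have := congrArg Complex.im hwu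
          rw [Complex.im_ofReal_mul] at this
          exact this
        rw [h1, h2]
        linear_combination ‖w‖ * hsq
      have hζu : ‖ζ - u‖ ≤ 2 * r := by
        have h1 : ‖w - u‖ = ‖w‖ - 1 := by
          have h2 : w - u = ((‖w‖ - 1 : ℝ) : ℂ) * u := by
            nth_rewrite 1 [hwu]
            push_cast
            ring
          rw [h2, norm_mul, hun, mul_one, Complex.norm_real, Real.norm_of_nonneg (by linarith)]
        have h2 : ‖w‖ ≤ ‖w - ζ‖ + 1 := by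
          have := norm_add_le (w - ζ) ζ
          rwa [sub_add_cancel, hζ] at this
        have h3 := norm_add_le (ζ - w) (w - u)
        rw [sub_add_sub_cancel, h1, norm_sub_rev ζ w] at h3
        linarith
      have hre : 1 - 2 * r ^ 2 ≤ (ζ * (starRingEnd ℂ) u).re := by
        have h1 : ‖ζ - u‖ ^ 2 = 2 - 2 * (ζ * (starRingEnd ℂ) u).re := by
          rw [Complex.sq_norm, Complex.normSq_apply, re_mul_conj, Complex.sub_re, Complex.sub_im]
          linear_combination hsq + hζsq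
        have h2 : ‖ζ - u‖ ^ 2 ≤ (2 * r) ^ 2 := by gcongr
        nlinarith
      have hpR : 1 < (p * (starRingEnd ℂ) u).re := by
        have h1 : (p * (starRingEnd ℂ) u).re = (1 + r / 2) * (ζ * (starRingEnd ℂ) u).re := by
          rw [hp, mul_assoc, Complex.re_ofReal_mul]
        rw [h1]
        have h2 : (1 + r / 2) * (1 - 2 * r ^ 2) ≤ (1 + r / 2) * (ζ * (starRingEnd ℂ) u).re := by
          gcongr
        nlinarith [mul_pos hr hr, mul_pos (mul_pos hr hr) hr, mul_le_mul_of_nonneg_left hr5 hr.le]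
      have hz : ((a • p + b • w) * (starRingEnd ℂ) u).re =
          a * (p * (starRingEnd ℂ) u).re + b * ‖w‖ := by
        rw [← hwR, add_mul, Complex.add_re, smul_mul_assoc, smul_mul_assoc, Complex.smul_re,
          Complex.smul_re]
        rfl
      have h1 : 1 < ((a • p + b • w) * (starRingEnd ℂ) u).re := by
        rw [hz]
        rcases eq_or_lt_of_le ha with h0 | h0
        · rw [← h0] at hab ⊢
          have : b = 1 := by linarith
          rw [this]
          linarith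
        · nlinarith
      calc (1 : ℝ) < ((a • p + b • w) * (starRingEnd ℂ) u).re := h1
        _ ≤ ‖(a • p + b • w) * (starRingEnd ℂ) u‖ := Complex.re_le_norm _
        _ = ‖a • p + b • w‖ := by rw [norm_mul, Complex.norm_conj, hun, mul_one]
  exact (hstar.isPathConnected hpS).isConnected.isPreconnected

/-- a preconnected set which meets `V` and the complement of `V` meets the frontier -/
theorem meets_frontier {A V : Set ℂ} (hA : IsPreconnected A) (h1 : (A ∩ V).Nonempty)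
    (h2 : (A ∩ (closure V)ᶜ).Nonempty) (hV : IsOpen V) : (A ∩ frontier V).Nonempty := by
  by_contra hcon
  rw [not_nonempty_iff_eq_empty] at hcon
  have hcov : A ⊆ V ∪ (closure V)ᶜ := by
    intro x hx
    by_cases h : x ∈ V
    · exact Or.inl h
    · right
      intro hx2
      have h3 : x ∈ A ∩ frontier V := ⟨hx, by
        rw [hV.frontier_eq]
        exact ⟨hx2, h⟩⟩
      rw [hcon] at h3
      exact h3
  obtain ⟨x, -, hx1, hx2⟩ := hA V (closure V)ᶜ hV isClosed_closure.isOpen_compl hcov h1 h2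
  exact hx2 (subset_closure hx1)

/-- The impression stays in an open set whose frontier it does not meet. -/
theorem impression_subset {ψ : ℂ → ℂ} (hψ : ContinuousOn ψ {w | 1 < ‖w‖}) {ζ : ℂ} (hζ : ‖ζ‖ = 1)
    {V : Set ℂ} (hV : IsOpen V) (hVb : Bornology.IsBounded V) {c₁ : ℂ} (hc₁ : c₁ ∈ V)
    (h1 : MapClusterPt c₁ (𝓝[{w | 1 < ‖w‖}] ζ) ψ)
    (hfr : ∀ y ∈ frontier V, ¬ MapClusterPt y (𝓝[{w | 1 < ‖w‖}] ζ) ψ) {x : ℂ}
    (hx : MapClusterPt x (𝓝[{w | 1 < ‖w‖}] ζ) ψ) : x ∈ V := by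
  by_contra hxV
  have hxc : x ∈ (closure V)ᶜ := by
    intro h
    exact hfr x (by rw [hV.frontier_eq]; exact ⟨h, hxV⟩) hx
  have hcomp : IsCompact (frontier V) :=
    Metric.isCompact_of_isClosed_isBounded isClosed_frontier (hVb.closure.subset frontier_subset_closure)
  have hne : (map ψ (𝓝[{w | 1 < ‖w‖}] ζ) ⊓ 𝓟 (frontier V)).NeBot := by
    rw [inf_principal_neBot_iff]
    intro U hU
    rw [mem_map, Metric.mem_nhdsWithin_iff] at hU
    obtain ⟨r, hr, hrU⟩ := hU
    obtain ⟨r', hr'⟩ : ∃ r' : ℝ, r' = min r (1 / 5) := ⟨_, rfl⟩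
    have hr'0 : 0 < r' := by rw [hr']; exact lt_min hr (by norm_num)
    have hS := SS_preconnected hζ hr'0 (by rw [hr']; exact min_le_right _ _)
    have hSmem : SS ζ r' ∈ 𝓝[{w | 1 < ‖w‖}] ζ := by
      rw [Metric.mem_nhdsWithin_iff]
      exact ⟨r', hr'0, fun w hw => ⟨by simpa [dist_eq_norm] using hw.1, hw.2⟩⟩
    have hI : IsPreconnected (ψ '' SS ζ r') := hS.image ψ (hψ.mono fun w hw => hw.2)
    have e1 : (ψ '' SS ζ r' ∩ V).Nonempty := by
      obtain ⟨w, hw1, hw2⟩ := ((mapClusterPt_iff_frequently.mp h1 V (hV.mem_nhds hc₁)).and_eventually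
        hSmem).exists
      exact ⟨ψ w, mem_image_of_mem ψ hw2, hw1⟩
    have e2 : (ψ '' SS ζ r' ∩ (closure V)ᶜ).Nonempty := by
      obtain ⟨w, hw1, hw2⟩ := ((mapClusterPt_iff_frequently.mp hx _
        (isClosed_closure.isOpen_compl.mem_nhds hxc)).and_eventually hSmem).exists
      exact ⟨ψ w, mem_image_of_mem ψ hw2, hw1⟩
    obtain ⟨y, ⟨w, hw, rfl⟩, hy⟩ := meets_frontier hI e1 e2 hV
    refine ⟨ψ w, ?_, hy⟩
    apply hrU
    refine ⟨?_, hw.2⟩
    rw [mem_ball, dist_eq_norm]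
    exact hw.1.trans_le (by rw [hr']; exact min_le_left _ _)
  obtain ⟨y, hy1, hy2⟩ := hcomp (f := map ψ (𝓝[{w | 1 < ‖w‖}] ζ) ⊓ 𝓟 (frontier V)) inf_le_right
  exact hfr y hy1 (hy2.mono inf_le_left)

/-- Cluster points at the circle are points of `M`. -/
theorem cluster_mem {M : Set ℂ} {ψ : ℂ → ℂ} (hψ : IsExteriorMap M ψ) {ζ : ℂ} (hζ : ‖ζ‖ = 1) {x : ℂ}
    (hx : MapClusterPt x (𝓝[{w | 1 < ‖w‖}] ζ) ψ) : x ∈ M := by
  by_contra hxM
  have h1 : x ∈ ψ '' {z | 1 < ‖z‖} := by rw [hψ.image]; exact hxM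
  obtain ⟨w₀, hw₀, rfl⟩ := h1
  have hw₀ : 1 < ‖w₀‖ := hw₀
  have hopen : IsOpen {z : ℂ | 1 < ‖z‖} := isOpen_lt continuous_const continuous_norm
  have han : AnalyticAt ℂ ψ w₀ := hψ.diff.analyticAt (hopen.mem_nhds hw₀)
  obtain ⟨r, hr⟩ : ∃ r : ℝ, r = (‖w₀‖ - 1) / 2 := ⟨_, rfl⟩
  have hr0 : 0 < r := by rw [hr]; linarith
  have hN : closedBall w₀ r ∈ 𝓝 w₀ := closedBall_mem_nhds w₀ hr0
  rcases han.eventually_constant_or_nhds_le_map_nhds with hconst | hle
  · have h2 : ∀ᶠ z in 𝓝[≠] w₀, False := by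
      filter_upwards [hconst.filter_mono nhdsWithin_le_nhds, self_mem_nhdsWithin,
        nhdsWithin_le_nhds (hopen.mem_nhds hw₀)] with z hz1 hz2 hz3
      exact hz2 (hψ.inj hz3 hw₀ hz1)
    have h3 := h2.exists
    simpa using h3
  · have hU : ψ '' closedBall w₀ r ∈ 𝓝 (ψ w₀) := by
      apply hle
      rw [mem_map]
      exact Filter.mem_of_superset hN (subset_preimage_image ψ _)
    have h2 := mapClusterPt_iff_frequently.mp hx _ hU
    have h3 : ∀ᶠ w in 𝓝[{w | 1 < ‖w‖}] ζ, w ∉ closedBall w₀ r := by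
      apply nhdsWithin_le_nhds
      apply isClosed_closedBall.isOpen_compl.mem_nhds
      intro h
      rw [mem_closedBall, dist_eq_norm] at h
      have := norm_sub_norm_le w₀ ζ
      rw [hζ, norm_sub_rev] at this
      linarith
    obtain ⟨w, ⟨v, hv, hvw⟩, hw2, hw3⟩ := (h2.and_eventually (h3.and self_mem_nhdsWithin)).exists
    have hv1 : 1 < ‖v‖ := by
      rw [mem_closedBall, dist_eq_norm] at hv
      have := norm_sub_norm_le w₀ v
      rw [norm_sub_rev] at this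
      linarith
    have h4 : v = w := hψ.inj hv1 hw3 hvw
    rw [← h4] at hw2
    exact hw2 hv

/-- **Small impressions near a parameter with a Lyapunov exponent.** -/
theorem small {d : ℕ} {χ : ℝ} {c₀ : ℂ} (hd : 2 ≤ d) (hL : Lyap d χ c₀)
    (hC : Pool.Agent.N253.EC.S_COMP) (hS : S_SEMI) (hI : S_INFQ) (hT : S_TRV) {τ ε : ℝ}
    (hτ1 : 3 / (4 * (d : ℝ)) ≤ τ) (hτ2 : τ * ((d : ℝ) - 1) < 1) (hε : 0 < ε) (hε1 : ε < 1 + τ - 1) :
    ∃ R₀ : ℝ, 0 < R₀ ∧ ∀ R : ℝ, 0 < R → R ≤ R₀ → ∀ ψ : ℂ → ℂ,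
    IsExteriorMap (N62a1eb23.multibrotSet d) ψ → ∀ ζ : ℂ, ‖ζ‖ = 1 → ∀ c₁ : ℂ,
    MapClusterPt c₁ (𝓝[{w | 1 < ‖w‖}] ζ) ψ → ‖c₁ - c₀‖ ≤ R / 2 → ∀ c : ℂ,
    MapClusterPt c (𝓝[{w | 1 < ‖w‖}] ζ) ψ → ‖c - c₁‖ ≤ R ^ (1 + τ - ε) := by
  have hdR : (2 : ℝ) ≤ d := by exact_mod_cast hd
  have hτ0 : 0 < τ := lt_of_lt_of_le (by positivity) hτ1
  obtain ⟨R₁, hR₁, H1⟩ := hC d χ c₀ hd hL τ ε hτ1 hτ2 hε
  obtain ⟨R₂, hR₂, H2⟩ := hS d χ c₀ hd hL τ hτ0 hτ2
  obtain ⟨q, hq, hq1, Q⟩ := Pool.Agent.N253.SM.small_pow 4 (τ - ε) (by linarith)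
  refine ⟨min (min R₁ R₂) q, by positivity, ?_⟩
  intro R hR hRR ψ hψ ζ hζ c₁ hc₁ hc₁R c hc
  have hR1 : R ≤ R₁ := hRR.trans ((min_le_left _ _).trans (min_le_left _ _))
  have hR2 : R ≤ R₂ := hRR.trans ((min_le_left _ _).trans (min_le_right _ _))
  have hR3 : R ≤ q := hRR.trans (min_le_right _ _)
  have hρ : R ^ (1 + τ - ε) ≤ R / 4 := by
    have h1 : R ^ (1 + τ - ε) = R * R ^ (τ - ε) := by
      rw [show 1 + τ - ε = 1 + (τ - ε) by ring, Real.rpow_add hR, Real.rpow_one]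
    have h2 := Q R hR hR3
    rw [h1]
    nlinarith
  have hρ0 : 0 < R ^ (1 + τ - ε) := Real.rpow_pos_of_pos hR _
  have hcomp := Pool.Agent.H712R2.isCompact_multibrot hd
  by_cases hcase : ∃ x : ℂ, MapClusterPt x (𝓝[{w | 1 < ‖w‖}] ζ) ψ ∧ ‖x - c₀‖ < R ∧
      ∀ k : ℕ, 1 ≤ k → R ^ τ ≤ ‖(f d x)^[k] 0‖
  · obtain ⟨x, hx1, hx2, hx3⟩ := hcase
    have hxM := cluster_mem hψ hζ hx1
    have hslow := H2 R hR hR2 x hxM hx2.le hx3
    obtain ⟨R₄, hR₄, H4⟩ := hI d x hd hslow
    have hlim := hT (N62a1eb23.multibrotSet d) ψ x hcomp hψ hxM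
      ⟨R₄, hR₄, fun R' h1 h2 => H4 ψ hψ R' h1 h2⟩ ζ hζ hx1
    have huniq : ∀ y : ℂ, MapClusterPt y (𝓝[{w | 1 < ‖w‖}] ζ) ψ → y = x := by
      intro y hy
      have h5 : ClusterPt y (𝓝 x) := hy.clusterPt.mono hlim
      exact eq_of_nhds_neBot h5
    rw [huniq c hc, huniq c₁ hc₁, sub_self, norm_zero]
    exact hρ0.le
  · push Not at hcase
    obtain ⟨W, hW⟩ : ∃ W : Set ℂ, W = {t : ℂ | ‖t - c₀‖ < R ∧ ∃ k : ℕ, 1 ≤ k ∧
      ‖(f d t)^[k] 0‖ < R ^ τ} := ⟨_, rfl⟩
    have hWo : IsOpen W := by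
      have e : W = {t : ℂ | ‖t - c₀‖ < R} ∩ ⋃ k : ℕ, {t : ℂ | ‖(f d t)^[k] t‖ < R ^ τ} := by
        rw [hW]
        ext t
        simp only [mem_setOf_eq, mem_inter_iff, mem_iUnion]
        refine and_congr_right fun _ => ⟨?_, ?_⟩
        · rintro ⟨k, hk, h⟩
          obtain ⟨j, rfl⟩ : ∃ j, k = j + 1 := ⟨k - 1, by omega⟩
          exact ⟨j, by rwa [Pool.Agent.N253.EC.COMPaux.shift hd] at h⟩
        · rintro ⟨j, h⟩
          exact ⟨j + 1, by omega, by rwa [Pool.Agent.N253.EC.COMPaux.shift hd]⟩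
      rw [e]
      refine IsOpen.inter ?_ (isOpen_iUnion fun k => ?_)
      · exact isOpen_lt (continuous_id.sub continuous_const).norm continuous_const
      · exact isOpen_lt (Pool.Agent.N253.EC.COMPaux.diff_it d k).continuous.norm continuous_const
    have hc₁W : c₁ ∈ W := by
      rw [hW]
      exact ⟨by linarith, hcase c₁ hc₁ (by linarith)⟩
    obtain ⟨V, hV⟩ : ∃ V : Set ℂ, V = connectedComponentIn W c₁ := ⟨_, rfl⟩
    have hVo : IsOpen V := by rw [hV]; exact hWo.connectedComponentIn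
    have hVc : IsPreconnected V := by rw [hV]; exact isPreconnected_connectedComponentIn
    have hc₁V : c₁ ∈ V := by rw [hV]; exact mem_connectedComponentIn hc₁W
    have hVW : V ⊆ W := by rw [hV]; exact connectedComponentIn_subset W c₁
    have hVd : ∀ t ∈ V, ‖t - c₁‖ ≤ R ^ (1 + τ - ε) := by
      intro t ht
      refine (H1 R hR hR1).1 V hVc (fun y hy => ?_) t ht c₁ hc₁V
      have := hVW hy
      rwa [hW] at this
    have hVb : V ⊆ closedBall c₁ (R ^ (1 + τ - ε)) := by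
      intro t ht
      rw [mem_closedBall, dist_eq_norm]
      exact hVd t ht
    have hfr : ∀ y ∈ frontier V, ¬ MapClusterPt y (𝓝[{w | 1 < ‖w‖}] ζ) ψ := by
      intro y hy hcl
      have hyc : y ∈ closure V := frontier_subset_closure hy
      have hyb : y ∈ closedBall c₁ (R ^ (1 + τ - ε)) :=
        closure_minimal hVb isClosed_closedBall hyc
      rw [mem_closedBall, dist_eq_norm] at hyb
      have hyR : ‖y - c₀‖ < R := by
        have := norm_add_le (y - c₁) (c₁ - c₀)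
        rw [sub_add_sub_cancel] at this
        linarith
      have hyW : y ∈ W := by
        rw [hW]
        exact ⟨hyR, hcase y hcl hyR⟩
      have hyo : connectedComponentIn W y ∈ 𝓝 y :=
        hWo.connectedComponentIn.mem_nhds (mem_connectedComponentIn hyW)
      obtain ⟨z, hz1, hz2⟩ := mem_closure_iff_nhds.mp hyc _ hyo
      have h6 : connectedComponentIn W y = V := by
        rw [hV] at hz2 ⊢
        rw [connectedComponentIn_eq hz1, connectedComponentIn_eq hz2]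
      have h7 : y ∈ V := by
        rw [← h6]
        exact mem_connectedComponentIn hyW
      rw [hVo.frontier_eq] at hy
      exact hy.2 h7
    have hcV := impression_subset hψ.diff.continuousOn hζ hVo
      (Metric.isBounded_closedBall.subset hVb) hc₁V hc₁ hfr hc
    exact hVd c hcV

end Pool.Agent.N253.LS
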