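import Mathlib
import Pool.Agent.N253.LS.Stm
import Pool.Agent.N253.LC.Pull

/-!
# Project LC (helper253): a curve which comes back near the critical point for the first time has
small diameter (helper721)
-/

set_option autoImplicit false

open Set Filter Metric Topology

namespace Pool.Agent.N253.LS

open Pool.Agent.TH279.MD Pool.Agent.Y298.SH Pool.Agent.Y298.SH.CD Pool.Agent.Y298.CA

open Pool.Agent.N253.LC (S_BACK)


open Pool.Agent.N253.LC.Pull in
theorem t_PULL (h1 : S_EXQ) (h2 : S_BACK) : S_PULL := by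
  intro d c₀ hd hL
  obtain ⟨κ, η, a₁, A, r₀, hκ, hκ1, hη, -, ha₁, -, hr₀, H⟩ := h1 d c₀ hd hL
  obtain ⟨κB, hκB, HB⟩ := h2 d hd
  have hd0 : (0 : ℝ) < d := by
    have : 0 < d := by omega
    exact_mod_cast this
  obtain ⟨a, ha⟩ : ∃ a, a = min a₁ 1 := ⟨_, rfl⟩
  have ha0 : 0 < a := by rw [ha]; exact lt_min ha₁ one_pos
  have haa : a ≤ a₁ := by rw [ha]; exact min_le_left _ _
  have ha1 : a ≤ 1 := by rw [ha]; exact min_le_right _ _
  obtain ⟨G, hG⟩ : ∃ G, G = 1 / (1 - Real.exp (-η)) := ⟨_, rfl⟩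
  have hq : Real.exp (-η) < 1 := by
    rw [Real.exp_lt_one_iff]
    linarith
  have hG0 : 0 < G := by
    rw [hG]
    exact one_div_pos.2 (by linarith)
  have h4 : (1 : ℝ) ≤ 4 ^ a₁ := Real.one_le_rpow (by norm_num) ha₁.le
  obtain ⟨M, hM⟩ : ∃ M : ℝ, M = 2 * 4 ^ a₁ * G / κ := ⟨_, rfl⟩
  have hM0 : 0 < M := by
    rw [hM]
    exact div_pos (mul_pos (mul_pos two_pos (by linarith)) hG0) hκ
  refine ⟨min (1 / (4 * (d : ℝ))) (a / (2 * d)), η,
    lt_min (by positivity) (by positivity), min_le_left _ _, hη, ?_⟩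
  intro δ hδ hδδ
  have hδ1 : δ ≤ 1 / (4 * (d : ℝ)) := hδδ.trans (min_le_left _ _)
  have hδ2 : δ ≤ a / (2 * d) := hδδ.trans (min_le_right _ _)
  refine ⟨4 / κ * 4 ^ a₁, min (min r₀ 1) ((κB / M) ^ (2 * (d : ℝ) / a)), ?_, ?_, ?_⟩
  · have : 1 ≤ 4 / κ := by
      rw [le_div_iff₀ hκ]
      linarith
    nlinarith
  · refine lt_min (lt_min hr₀ one_pos) ?_
    exact Real.rpow_pos_of_pos (div_pos hκB hM0) _
  intro r hr hrr c hc n Y s e hse hY hlow hup hend t ht
  have hr0 : r ≤ r₀ := hrr.trans ((min_le_left _ _).trans (min_le_left _ _))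
  have hr1 : r ≤ 1 := hrr.trans ((min_le_left _ _).trans (min_le_right _ _))
  have hr2 : r ≤ (κB / M) ^ (2 * (d : ℝ) / a) := hrr.trans (min_le_right _ _)
  have hee : e ∈ Icc s e := ⟨hse, le_rfl⟩
  obtain ⟨lam, hlam⟩ : ∃ lam, lam = 2 * r ^ (1 / (d : ℝ) - δ) := ⟨_, rfl⟩
  have hrp : 0 < r ^ (1 / (d : ℝ) - δ) := Real.rpow_pos_of_pos hr _
  have hlam0 : 0 < lam := by rw [hlam]; linarith
  have hdist : ∀ t ∈ Icc s e, ‖(f d c)^[n] (Y t) - (f d c)^[n] (Y e)‖ ≤ lam := by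
    intro t ht
    have h5 := norm_sub_le ((f d c)^[n] (Y t)) ((f d c)^[n] (Y e))
    have h6 := hend t ht
    have h7 := hend e hee
    rw [hlam]
    linarith
  -- the points of the orbit
  have hyn : ∀ i < n, 0 < ‖(f d c)^[i] (Y e)‖ := by
    intro i hi
    by_contra h0
    have h5 : ‖(f d c)^[i] (Y e)‖ = 0 := le_antisymm (not_lt.1 h0) (norm_nonneg _)
    have h6 := hlow i hi
    rw [h5, zero_pow (by omega)] at h6
    linarith
  have hylow : ∀ i < n, r ^ (1 / (d : ℝ)) ≤ ‖(f d c)^[i] (Y e)‖ := by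
    intro i hi
    have h5 := Real.rpow_le_rpow hr.le (hlow i hi) (one_div_pos.2 hd0).le
    rwa [← Real.rpow_natCast, ← Real.rpow_mul (norm_nonneg _), mul_one_div_cancel hd0.ne',
      Real.rpow_one] at h5
  obtain ⟨D, hD⟩ : ∃ D : ℕ → ℝ, D = fun i => ‖deriv ((f d c)^[n - i]) ((f d c)^[i] (Y e))‖ :=
    ⟨_, rfl⟩
  have hDlow : ∀ i < n, κ * Real.exp (η * ((n - i : ℕ) : ℝ)) * ‖(f d c)^[i] (Y e)‖ ^ (-a₁) ≤
      D i := by
    intro i hi
    rw [hD]
    have hadd : ∀ j, (f d c)^[j] ((f d c)^[i] (Y e)) = (f d c)^[j + i] (Y e) := fun j =>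
      (Function.iterate_add_apply _ _ _ _).symm
    refine (H c r ((f d c)^[i] (Y e)) (n - i) hr hr0 hc).2.1 (by omega) ?_ ?_ ?_
    · intro j hj
      rw [hadd]
      exact hup _ (by omega)
    · intro j hj
      rw [hadd]
      exact hlow _ (by omega)
    · rw [hadd, Nat.sub_add_cancel hi.le]
      refine (hend e hee).trans ?_
      refine Real.rpow_le_rpow_of_exponent_ge hr hr1 ?_
      have h5 : (3 : ℝ) / (4 * d) = 1 / d - 1 / (4 * d) := by
        field_simp
        norm_num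
      rw [h5]
      linarith
  have hD0 : ∀ i < n, 0 < D i := by
    intro i hi
    refine lt_of_lt_of_le ?_ (hDlow i hi)
    exact mul_pos (mul_pos hκ (Real.exp_pos _)) (Real.rpow_pos_of_pos (hyn i hi) _)
  have hDn : D n = 1 := by
    rw [hD]
    simp only [Nat.sub_self, Function.iterate_zero]
    rw [deriv_id]
    exact norm_one
  have hDrec : ∀ i < n, D i = D (i + 1) * (d * ‖(f d c)^[i] (Y e)‖ ^ (d - 1)) := by
    intro i hi
    rw [hD]
    show ‖deriv ((f d c)^[n - i]) ((f d c)^[i] (Y e))‖ =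
      ‖deriv ((f d c)^[n - (i + 1)]) ((f d c)^[i + 1] (Y e))‖ * _
    have h5 : n - i = n - (i + 1) + 1 := by omega
    rw [h5, deriv_it_succ', Function.iterate_succ_apply' (f d c) i, norm_mul, norm_mul, norm_pow]
    simp
  -- the upper bound of `lam / D i`
  have hE : ∀ i < n, lam / D i ≤
      lam / κ * Real.exp (-(η * ((n - i : ℕ) : ℝ))) * ‖(f d c)^[i] (Y e)‖ ^ a₁ := by
    intro i hi
    rw [div_le_iff₀ (hD0 i hi)]
    have h5 := mul_le_mul_of_nonneg_left (hDlow i hi)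
      (show 0 ≤ lam / κ * Real.exp (-(η * ((n - i : ℕ) : ℝ))) * ‖(f d c)^[i] (Y e)‖ ^ a₁ by
        have := Real.rpow_pos_of_pos (hyn i hi) a₁
        positivity)
    refine le_trans (le_of_eq ?_) h5
    have e1 : Real.exp (-(η * ((n - i : ℕ) : ℝ))) * Real.exp (η * ((n - i : ℕ) : ℝ)) = 1 := by
      rw [← Real.exp_add]
      simp
    have e2 : ‖(f d c)^[i] (Y e)‖ ^ a₁ * ‖(f d c)^[i] (Y e)‖ ^ (-a₁) = 1 := by
      rw [← Real.rpow_add (hyn i hi)]
      simp
    have e3 : lam / κ * κ = lam := div_mul_cancel₀ _ hκ.ne'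
    calc lam = (lam / κ * κ) * 1 * 1 := by rw [e3]; ring
      _ = (lam / κ * κ) * (Real.exp (-(η * ((n - i : ℕ) : ℝ))) * Real.exp (η * ((n - i : ℕ) : ℝ))) *
          (‖(f d c)^[i] (Y e)‖ ^ a₁ * ‖(f d c)^[i] (Y e)‖ ^ (-a₁)) := by rw [e1, e2]
      _ = _ := by ring
  -- the sum
  have hsum : ∑ i ∈ Finset.range n, lam / D i / ‖(f d c)^[i] (Y e)‖ ≤ κB := by
    have hterm : ∀ i ∈ Finset.range n, lam / D i / ‖(f d c)^[i] (Y e)‖ ≤
        2 * 4 ^ a₁ / κ * r ^ (a / (2 * d)) * Real.exp (-(η * ((n - i : ℕ) : ℝ))) := by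
      intro i hi
      have hi' := Finset.mem_range.1 hi
      have hy0 := hyn i hi'
      rw [div_le_iff₀ hy0]
      refine (hE i hi').trans ?_
      -- the power of the norm
      have h5 : ‖(f d c)^[i] (Y e)‖ ^ a₁ ≤ 4 ^ a₁ * r ^ ((a - 1) / d) * ‖(f d c)^[i] (Y e)‖ := by
        have h6 : ‖(f d c)^[i] (Y e)‖ ^ a₁ = ‖(f d c)^[i] (Y e)‖ ^ (a₁ - 1) *
            ‖(f d c)^[i] (Y e)‖ := by
          rw [← Real.rpow_add_one hy0.ne']
          congr 1
          ring
        rw [h6]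
        refine mul_le_mul_of_nonneg_right ?_ hy0.le
        rcases le_total 1 a₁ with h7 | h7
        · have h8 : a = 1 := by rw [ha]; exact min_eq_right h7
          rw [h8, sub_self, zero_div, Real.rpow_zero, mul_one]
          calc ‖(f d c)^[i] (Y e)‖ ^ (a₁ - 1) ≤ 4 ^ (a₁ - 1) :=
                Real.rpow_le_rpow hy0.le (hup i hi'.le) (by linarith)
            _ ≤ 4 ^ a₁ := Real.rpow_le_rpow_of_exponent_le (by norm_num) (by linarith)
        · have h8 : a = a₁ := by rw [ha]; exact min_eq_left h7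
          have h9 : ‖(f d c)^[i] (Y e)‖ ^ (a₁ - 1) ≤ (r ^ (1 / (d : ℝ))) ^ (a₁ - 1) :=
            Real.rpow_le_rpow_of_nonpos (Real.rpow_pos_of_pos hr _) (hylow i hi') (by linarith)
          have h10 : (r ^ (1 / (d : ℝ))) ^ (a₁ - 1) = r ^ ((a - 1) / d) := by
            rw [← Real.rpow_mul hr.le, h8]
            congr 1
            ring
          rw [h10] at h9
          have h11 : 0 < r ^ ((a - 1) / d) := Real.rpow_pos_of_pos hr _
          calc _ ≤ r ^ ((a - 1) / d) := h9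
            _ ≤ 4 ^ a₁ * r ^ ((a - 1) / d) := by nlinarith
      have h6 : r ^ (1 / (d : ℝ) - δ) * r ^ ((a - 1) / d) ≤ r ^ (a / (2 * d)) := by
        rw [← Real.rpow_add hr]
        refine Real.rpow_le_rpow_of_exponent_ge hr hr1 ?_
        have h7 : 1 / (d : ℝ) - δ + (a - 1) / d = a / d - δ := by ring
        have h8 : a / (d : ℝ) = a / (2 * d) + a / (2 * d) := by
          field_simp
          ring
        rw [h7, h8]
        linarith
      have hex : 0 < Real.exp (-(η * ((n - i : ℕ) : ℝ))) := Real.exp_pos _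
      calc lam / κ * Real.exp (-(η * ((n - i : ℕ) : ℝ))) * ‖(f d c)^[i] (Y e)‖ ^ a₁
          ≤ lam / κ * Real.exp (-(η * ((n - i : ℕ) : ℝ))) *
            (4 ^ a₁ * r ^ ((a - 1) / d) * ‖(f d c)^[i] (Y e)‖) :=
            mul_le_mul_of_nonneg_left h5 (by positivity)
        _ = 2 * 4 ^ a₁ / κ * (r ^ (1 / (d : ℝ) - δ) * r ^ ((a - 1) / d)) *
            Real.exp (-(η * ((n - i : ℕ) : ℝ))) * ‖(f d c)^[i] (Y e)‖ := by
            rw [hlam]; ring
        _ ≤ 2 * 4 ^ a₁ / κ * r ^ (a / (2 * d)) *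
            Real.exp (-(η * ((n - i : ℕ) : ℝ))) * ‖(f d c)^[i] (Y e)‖ := by
            have : 0 ≤ 2 * 4 ^ a₁ / κ := by positivity
            have h7 := mul_le_mul_of_nonneg_left h6 this
            exact mul_le_mul_of_nonneg_right (mul_le_mul_of_nonneg_right h7 hex.le) hy0.le
    refine (Finset.sum_le_sum hterm).trans ?_
    rw [← Finset.mul_sum]
    have hgeo := geo_sum hη n
    rw [← hG] at hgeo
    have hra : r ^ (a / (2 * d)) ≤ κB / M := by
      have h5 := Real.rpow_le_rpow hr.le hr2 (show 0 ≤ a / (2 * (d : ℝ)) by positivity)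
      rwa [← Real.rpow_mul (div_pos hκB hM0).le, show 2 * (d : ℝ) / a * (a / (2 * d)) = 1 by
        field_simp, Real.rpow_one] at h5
    have hra0 : 0 < r ^ (a / (2 * d)) := Real.rpow_pos_of_pos hr _
    calc 2 * 4 ^ a₁ / κ * r ^ (a / (2 * d)) *
          ∑ i ∈ Finset.range n, Real.exp (-(η * ((n - i : ℕ) : ℝ)))
        ≤ 2 * 4 ^ a₁ / κ * r ^ (a / (2 * d)) * G :=
          mul_le_mul_of_nonneg_left hgeo (by positivity)
      _ = M * r ^ (a / (2 * d)) := by rw [hM]; ring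
      _ ≤ M * (κB / M) := mul_le_mul_of_nonneg_left hra hM0.le
      _ = κB := mul_div_cancel₀ _ hM0.ne'
  have hfin := HB n s e e lam 0 (fun i t => (f d c)^[i] (Y t)) (fun _ => c) D
    (fun i => lam / D i + 0 * ∑ l ∈ Finset.Ico (i + 1) (n + 1), D l / D i) hee hlam0.le le_rfl
    (fun i _ => (cont_it d c i).comp_continuousOn hY)
    (fun i _ t _ => by
      show (f d c)^[i + 1] (Y t) = _
      rw [Function.iterate_succ_apply']
      rfl)
    (fun t _ => by simp) hdist (fun i hi => norm_pos_iff.1 (hyn i hi)) hDrec hDn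
    (fun i _ => rfl)
    (by
      refine le_trans (le_of_eq ?_) hsum
      refine Finset.sum_congr rfl fun i _ => ?_
      rw [zero_mul, add_zero])
    0 (Nat.zero_le _) t ht
  simp only [Function.iterate_zero, id_eq, zero_mul, add_zero] at hfin
  refine hfin.trans ?_
  rcases Nat.eq_zero_or_pos n with hn | hn
  · subst hn
    rw [hDn, hlam]
    have h5 : 4 ≤ 4 / κ := by
      rw [le_div_iff₀ hκ]
      linarith
    have h6 : (4 : ℝ) ≤ 4 / κ * 4 ^ a₁ := by nlinarith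
    simp only [Nat.cast_zero, mul_zero, neg_zero, Real.exp_zero, mul_one, div_one]
    nlinarith
  · have h5 := hE 0 hn
    simp only [Function.iterate_zero, id_eq, Nat.sub_zero] at h5
    have h6 : ‖Y e‖ ^ a₁ ≤ 4 ^ a₁ := by
      refine Real.rpow_le_rpow (norm_nonneg _) ?_ ha₁.le
      have := hup 0 (Nat.zero_le _)
      simpa using this
    calc 2 * (lam / D 0) ≤ 2 * (lam / κ * Real.exp (-(η * n)) * ‖Y e‖ ^ a₁) := by linarith
      _ ≤ 2 * (lam / κ * Real.exp (-(η * n)) * 4 ^ a₁) := by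
        have : 0 ≤ lam / κ * Real.exp (-(η * n)) := by positivity
        have := mul_le_mul_of_nonneg_left h6 this
        linarith
      _ = 4 / κ * 4 ^ a₁ * Real.exp (-(η * n)) * r ^ (1 / (d : ℝ) - δ) := by
        rw [hlam]; ring

end Pool.Agent.N253.LS
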