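import Pool.Agent.N253.LS.Stm
import Pool.Agent.N253.EC.Stm

/-!
# Parameters whose critical orbit stays away from the critical point

Project LS (helper253), part SEMI.
-/

set_option autoImplicit false

open Set Filter Metric Topology

namespace Pool.Agent.N253.EC

open Pool.Agent.TH279.MD Pool.Agent.Y298.SH Pool.Agent.Y298.SH.CD Pool.Agent.Y298.CA
open Pool.Agent.H713R2 (IsExteriorMap IsGm)
open Pool.Agent.H712R2 (P)
open Pool.Agent.N253.LS (Slow S_SEMI)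

theorem semi_diff (d : ℕ) (c : ℂ) : Differentiable ℂ (f d c) := by
  unfold f
  fun_prop

theorem semi_chain (d : ℕ) (c x : ℂ) (l n : ℕ) : deriv ((f d c)^[l + n]) x =
    deriv ((f d c)^[l]) ((f d c)^[n] x) * deriv ((f d c)^[n]) x := by
  rw [Function.iterate_add]
  exact deriv_comp x ((semi_diff d c).iterate l _) ((semi_diff d c).iterate n _)

/-- **SEMI.** -/
theorem t_SEMI (h1 : S_PASS) (h2 : S_EXN) : S_SEMI := by
  intro d χ c₀ hd hL τ hτ hτ1
  obtain ⟨g, hg⟩ : ∃ g : ℝ, g = (1 - τ * ((d : ℝ) - 1)) / 2 := ⟨_, rfl⟩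
  have hg0 : 0 < g := by
    rw [hg]
    linarith
  have hg1 : τ * ((d : ℝ) - 1) < 1 - g := by
    rw [hg]
    linarith
  obtain ⟨κ', η, a, r', hκ', hκ'1, hη, ha, ha1, hr', hr'4, hE⟩ := h2 d χ c₀ hd hL τ g hτ hg1 hg0
  obtain ⟨C, κ, r₀, hC, hκ, hκ1, hr₀, hr₀4, hP⟩ := h1 d χ c₀ hd hL (1 / 4) (by norm_num) (by norm_num)
  refine ⟨min r₀ r', lt_min hr₀ hr', fun R hR hRR c hM hc hk => ?_⟩
  have hR1 : R ≤ r₀ := hRR.trans (min_le_left _ _)
  have hR2 : R ≤ r' := hRR.trans (min_le_right _ _)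
  obtain ⟨n, -, hn, -⟩ := hP R hR hR1
  have hbd : ∀ j, ‖zz d c j‖ ≤ 2 := by
    intro j
    have h1 := (Pool.Agent.H712R2.mem_multibrot_iff hd c).mp hM (j + 1)
    rw [P_succ_eq hd] at h1
    exact h1
  have hlow : ∀ j, R ^ τ ≤ ‖zz d c j‖ := by
    intro j
    have h3 := hk (j + 1) (by omega)
    rw [Function.iterate_succ_apply] at h3
    have h4 : f d c 0 = c := by
      unfold f
      rw [zero_pow (by omega), zero_add]
    rw [h4] at h3
    exact h3
  have hRτ : 0 < R ^ τ := Real.rpow_pos_of_pos hR τ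
  obtain ⟨q, hq⟩ : ∃ q : ℝ, q = κ' * R ^ (1 - g) := ⟨_, rfl⟩
  have hq0 : 0 < q := by
    rw [hq]
    exact mul_pos hκ' (Real.rpow_pos_of_pos hR _)
  obtain ⟨m, hm⟩ : ∃ m : ℝ, m = min 1 q := ⟨_, rfl⟩
  have hm0 : 0 < m := by
    rw [hm]
    exact lt_min one_pos hq0
  have hm1 : m ≤ 1 := by
    rw [hm]
    exact min_le_left _ _
  have hmq : m ≤ q := by
    rw [hm]
    exact min_le_right _ _
  obtain ⟨C₁, hC₁⟩ : ∃ C₁ : ℝ, C₁ = max 1 (Real.exp (η * n) / (κ * m)) := ⟨_, rfl⟩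
  have hC₁1 : 1 ≤ C₁ := by
    rw [hC₁]
    exact le_max_left _ _
  have hC₁2 : Real.exp (η * n) ≤ C₁ * (κ * m) := by
    rw [← div_le_iff₀ (mul_pos hκ hm0), hC₁]
    exact le_max_right _ _
  have hPn : ∀ j ≤ n, κ ≤ Pd d c j := by
    intro j hj
    exact ((hn c c hc (by rw [sub_self, norm_zero]; exact hR.le)).1 j hj).2
  refine ⟨⟨C₁, Real.exp η, cep_of_mem hd hC₁1 (Real.one_lt_exp_iff.2 hη) hM fun j => ?_⟩,
    fun e he => ⟨max 1 ((R ^ τ)⁻¹), le_max_left _ _, fun j => ?_⟩⟩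
  · rw [← Real.exp_nat_mul]
    rcases le_total j n with hj | hj
    · have h5 : (j : ℝ) * η ≤ η * n := by
        have : (j : ℝ) ≤ n := by exact_mod_cast hj
        nlinarith
      calc Real.exp (j * η) ≤ Real.exp (η * n) := Real.exp_le_exp.2 h5
        _ ≤ C₁ * (κ * m) := hC₁2
        _ ≤ C₁ * (κ * 1) := by gcongr
        _ = C₁ * κ := by rw [mul_one]
        _ ≤ C₁ * Pd d c j := by
            have := hPn j hj
            gcongr
    · obtain ⟨l, rfl⟩ : ∃ l, j = l + n := ⟨j - n, by omega⟩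
      have h5 : ∀ i, (f d c)^[i] ((f d c)^[n] c) = zz d c (i + n) := by
        intro i
        rw [zz, Function.iterate_add_apply]
      have h6 := (hE c R ((f d c)^[n] c) l hR hR2 hc
        (fun i _ => by rw [h5]; linarith [hbd (i + n)]) (fun i _ => by rw [h5]; exact hlow _)).1
      have h7 : Pd d c (l + n) = ‖deriv ((f d c)^[l]) ((f d c)^[n] c)‖ * Pd d c n := by
        rw [Pd, Pd, semi_chain, norm_mul]
      change Real.exp (((l + n : ℕ) : ℝ) * η) ≤ C₁ * Pd d c (l + n)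
      rw [h7]
      rw [← hq] at h6
      have h8 := hPn n le_rfl
      have e1 : ((l + n : ℕ) : ℝ) * η = η * n + η * l := by
        push_cast
        ring
      rw [e1, Real.exp_add]
      calc Real.exp (η * n) * Real.exp (η * l) ≤ (C₁ * (κ * m)) * Real.exp (η * l) := by gcongr
        _ ≤ (C₁ * (κ * q)) * Real.exp (η * l) := by gcongr
        _ = C₁ * ((q * Real.exp (η * l)) * κ) := by ring
        _ ≤ C₁ * (‖deriv ((f d c)^[l]) ((f d c)^[n] c)‖ * Pd d c n) := by gcongr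
  · have h5 : (R ^ τ)⁻¹ ≤ max 1 ((R ^ τ)⁻¹) := le_max_right _ _
    have h6 : 1 ≤ Real.exp (e * j) := Real.one_le_exp (by positivity)
    have h7 := hlow j
    have h8 : 0 < (R ^ τ)⁻¹ := inv_pos.2 hRτ
    calc (1 : ℝ) = (R ^ τ)⁻¹ * 1 * R ^ τ := by rw [mul_one, inv_mul_cancel₀ hRτ.ne']
      _ ≤ max 1 ((R ^ τ)⁻¹) * Real.exp (e * j) * ‖zz d c j‖ := by gcongr

end Pool.Agent.N253.EC
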