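import Mathlib
import Pool.Agent.N253.LS.Stm

/-!
# Project LS (helper253): small displacement along the rays implies trivial impressions
(by helper565, after `Pool/Agent/N253/LC/Fin.lean`)
-/

set_option autoImplicit false

open Set Filter Metric Topology

namespace Pool.Agent.N253.LS

open Pool.Agent.H713R2 (IsExteriorMap)

namespace Trv

theorem nexp (t : ℝ) {u : ℂ} (hu : ‖u‖ = 1) : ‖(Real.exp t : ℂ) * u‖ = Real.exp t := by
  rw [norm_mul, hu, mul_one, Complex.norm_real, Real.norm_of_nonneg (Real.exp_pos _).le]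

theorem nexp_gt {t : ℝ} (ht : 0 < t) {u : ℂ} (hu : ‖u‖ = 1) : 1 < ‖(Real.exp t : ℂ) * u‖ := by
  rw [nexp t hu]; exact Real.one_lt_exp_iff.mpr ht

theorem isOpen_ext : IsOpen {z : ℂ | 1 < ‖z‖} := isOpen_lt continuous_const continuous_norm

theorem polar {w : ℂ} (hw : 1 < ‖w‖) : ∃ (b : ℝ) (u : ℂ), 0 < b ∧ ‖u‖ = 1 ∧ b = Real.log ‖w‖ ∧
    u = w / ‖w‖ ∧ w = (Real.exp b : ℂ) * u := by
  have h0 : (‖w‖ : ℂ) ≠ 0 := by
    have : ‖w‖ ≠ 0 := by linarith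
    exact_mod_cast this
  refine ⟨Real.log ‖w‖, w / ‖w‖, Real.log_pos hw, ?_, rfl, rfl, ?_⟩
  · rw [norm_div, Complex.norm_real, norm_norm, div_self (by linarith)]
  · rw [Real.exp_log (by linarith)]
    field_simp

variable {M : Set ℂ} {ψ : ℂ → ℂ} {c₀ : ℂ}

theorem cont (h : IsExteriorMap M ψ) (c₀ : ℂ) {u : ℂ} (hu : ‖u‖ = 1) {a b : ℝ} (ha : 0 < a) :
    ContinuousOn (fun t : ℝ => ‖ψ (Real.exp t * u) - c₀‖) (Icc a b) := by
  have h1 : ContinuousOn (fun t : ℝ => ψ (Real.exp t * u)) (Icc a b) := by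
    refine h.diff.continuousOn.comp (by fun_prop) ?_
    intro t ht
    exact nexp_gt (lt_of_lt_of_le ha ht.1) hu
  exact (h1.sub continuousOn_const).norm

/-- A point of the ray where the distance from `c₀` is `R`. -/
theorem ivt (h : IsExteriorMap M ψ) {u : ℂ} (hu : ‖u‖ = 1) {a b R : ℝ} (ha : 0 < a) (hb : 0 < b)
    (h1 : ‖ψ (Real.exp a * u) - c₀‖ ≤ R) (h2 : R ≤ ‖ψ (Real.exp b * u) - c₀‖) :
    ∃ t, min a b ≤ t ∧ t ≤ max a b ∧ ‖ψ (Real.exp t * u) - c₀‖ = R := by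
  rcases le_total a b with hab | hab
  · have h3 := intermediate_value_Icc hab (cont h c₀ hu (b := b) ha)
    obtain ⟨t, ht, h4⟩ := h3 ⟨h1, h2⟩
    refine ⟨t, ?_, ?_, h4⟩
    · rw [min_eq_left hab]; exact ht.1
    · rw [max_eq_right hab]; exact ht.2
  · have h3 := intermediate_value_Icc' hab (cont h c₀ hu (b := a) hb)
    obtain ⟨t, ht, h4⟩ := h3 ⟨h1, h2⟩
    refine ⟨t, ?_, ?_, h4⟩
    · rw [min_eq_right hab]; exact ht.1
    · rw [max_eq_left hab]; exact ht.2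

/-- the displacement hypothesis at the scale `R`, with the level `T` -/
def Dis (ψ : ℂ → ℂ) (c₀ : ℂ) (R T : ℝ) : Prop := ∀ u : ℂ, ‖u‖ = 1 →
  ∀ t₁ t₂ : ℝ, 0 < t₁ → 0 < t₂ → ‖ψ (Real.exp t₁ * u) - c₀‖ ≤ R →
    ‖ψ (Real.exp t₂ * u) - c₀‖ ≤ R → R / 4 ≤ ‖ψ (Real.exp t₁ * u) - ψ (Real.exp t₂ * u)‖ →
    T ≤ max t₁ t₂

/-- (1) A ray which is near `c₀` at some level below `T` is near `c₀` at all levels below `T`. -/
theorem near (h : IsExteriorMap M ψ) {R T : ℝ} (hR : 0 < R) (H : Dis ψ c₀ R T) {u : ℂ}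
    (hu : ‖u‖ = 1) {b t : ℝ} (hb : 0 < b) (hbT : b < T) (hb1 : ‖ψ (Real.exp b * u) - c₀‖ ≤ R / 2)
    (ht : 0 < t) (htT : t < T) : ‖ψ (Real.exp t * u) - c₀‖ ≤ R := by
  by_contra hcon
  push Not at hcon
  obtain ⟨s, hs1, hs2, hs3⟩ := ivt h hu hb ht (hb1.trans (by linarith)) hcon.le
  have hs0 : 0 < s := (lt_min hb ht).trans_le hs1
  have hsT : s < T := hs2.trans_lt (max_lt hbT htT)
  have h2 := H u hu s b hs0 hb hs3.le (hb1.trans (by linarith)) (by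
    have h3 : ‖ψ (Real.exp s * u) - c₀‖ ≤ ‖ψ (Real.exp s * u) - ψ (Real.exp b * u)‖ +
        ‖ψ (Real.exp b * u) - c₀‖ := by
      have := norm_add_le (ψ (Real.exp s * u) - ψ (Real.exp b * u)) (ψ (Real.exp b * u) - c₀)
      rwa [sub_add_sub_cancel] at this
    linarith)
  exact absurd h2 (not_le.2 (max_lt hsT hbT))

/-- (2) The ray at `ζ` is near `c₀` at all levels below `T`. -/
theorem upper (h : IsExteriorMap M ψ) {R T : ℝ} (hR : 0 < R) (H : Dis ψ c₀ R T) {ζ : ℂ}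
    (hζ : ‖ζ‖ = 1) (hc : MapClusterPt c₀ (𝓝[{w | 1 < ‖w‖}] ζ) ψ) {t : ℝ} (ht0 : 0 < t)
    (htT : t < T) : ‖ψ (Real.exp t * ζ) - c₀‖ ≤ R := by
  by_contra hcon
  push Not at hcon
  have hζ0 : (‖ζ‖ : ℂ) ≠ 0 := by rw [hζ]; norm_num
  have hg : ContinuousAt (fun w : ℂ => ‖ψ (Real.exp t * (w / ‖w‖)) - c₀‖) ζ := by
    have e1 : ContinuousAt (fun w : ℂ => (Real.exp t : ℂ) * (w / ‖w‖)) ζ := by
      refine continuousAt_const.mul (continuousAt_id.div ?_ hζ0)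
      exact (Complex.continuous_ofReal.comp continuous_norm).continuousAt
    have e2 : ContinuousAt ψ ((Real.exp t : ℂ) * (ζ / ‖ζ‖)) := by
      rw [hζ]
      have e3 : (Real.exp t : ℂ) * (ζ / ((1 : ℝ) : ℂ)) = (Real.exp t : ℂ) * ζ := by simp
      rw [e3]
      exact (h.diff.differentiableAt (isOpen_ext.mem_nhds (nexp_gt ht0 hζ))).continuousAt
    have e4 : ContinuousAt (fun w : ℂ => ψ ((Real.exp t : ℂ) * (w / ‖w‖))) ζ :=
      ContinuousAt.comp (f := fun w : ℂ => (Real.exp t : ℂ) * (w / ‖w‖)) (g := ψ) e2 e1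
    exact (e4.sub continuousAt_const).norm
  have hg' : ∀ᶠ w in 𝓝[{w | 1 < ‖w‖}] ζ, R < ‖ψ (Real.exp t * (w / ‖w‖)) - c₀‖ := by
    refine nhdsWithin_le_nhds (hg.eventually_const_lt ?_)
    show R < ‖ψ (↑(Real.exp t) * (ζ / ↑‖ζ‖)) - c₀‖
    rw [hζ]
    simpa using hcon
  have hlog : ∀ᶠ w : ℂ in 𝓝[{w | 1 < ‖w‖}] ζ, ‖w‖ < Real.exp t := by
    refine nhdsWithin_le_nhds (continuous_norm.continuousAt.eventually_lt_const ?_)
    show ‖ζ‖ < Real.exp t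
    rw [hζ]
    exact Real.one_lt_exp_iff.mpr ht0
  have hfr : ∃ᶠ w in 𝓝[{w | 1 < ‖w‖}] ζ, ψ w ∈ closedBall c₀ (R / 2) :=
    (mapClusterPt_iff_frequently.mp hc) _ (closedBall_mem_nhds c₀ (by positivity))
  obtain ⟨w, hw1, hw2, hw3, hw4⟩ := (hfr.and_eventually (hg'.and (hlog.and
    self_mem_nhdsWithin))).exists
  have hw4 : 1 < ‖w‖ := hw4
  obtain ⟨b, u, hb, hu, hb', hu', hwu⟩ := polar hw4
  rw [mem_closedBall, dist_eq_norm, hwu] at hw1
  have hbt : b ≤ t := by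
    rw [hb', ← Real.log_exp t]
    exact Real.log_le_log (by linarith) hw3.le
  have h5 := near h hR H hu hb (hbt.trans_lt htT) hw1 ht0 htT
  rw [← hu'] at hw2
  linarith

end Trv

open Trv in
/-- **Trivial impressions.** -/
theorem t_TRV (hK : LC.S_KOE) : S_TRV := by
  intro M ψ c₀ _ h hmem hH ζ hζ hc
  obtain ⟨R₀, hR₀, hH⟩ := hH
  obtain ⟨K, hK1, HK⟩ := hK
  rw [Metric.tendsto_nhds]
  intro η hη
  obtain ⟨R, hRd⟩ : ∃ R : ℝ, R = min R₀ (η / 2) := ⟨_, rfl⟩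
  have hR : 0 < R := by rw [hRd]; positivity
  have hRR₀ : R ≤ R₀ := by rw [hRd]; exact min_le_left _ _
  have hRη : R ≤ η / 2 := by rw [hRd]; exact min_le_right _ _
  obtain ⟨R₂, hR₂d⟩ : ∃ R₂ : ℝ, R₂ = R / (2 * (K + 1)) := ⟨_, rfl⟩
  have hR₂ : 0 < R₂ := by rw [hR₂d]; positivity
  have hR₂e : (K + 1) * R₂ = R / 2 := by rw [hR₂d]; field_simp
  have hR₂R₀ : R₂ ≤ R₀ := by nlinarith
  obtain ⟨T₁, hT₁, H₁⟩ := hH R hR hRR₀
  obtain ⟨T₂, hT₂, H₂⟩ := hH R₂ hR₂ hR₂R₀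
  have hball : ∀ᶠ w : ℂ in 𝓝[{w | 1 < ‖w‖}] ζ, ‖w - ζ‖ < min (min T₁ T₂) (1 / 8) := by
    have h1 : ball ζ (min (min T₁ T₂) (1 / 8)) ∈ 𝓝 ζ := ball_mem_nhds _ (by positivity)
    filter_upwards [nhdsWithin_le_nhds h1] with w hw
    rwa [mem_ball, dist_eq_norm] at hw
  filter_upwards [hball, self_mem_nhdsWithin] with w h1 h6
  have h6 : 1 < ‖w‖ := h6
  obtain ⟨s, hsw⟩ : ∃ s : ℝ, s = ‖w - ζ‖ := ⟨_, rfl⟩
  rw [← hsw] at h1
  have hsT₁ : s < T₁ := h1.trans_le ((min_le_left _ _).trans (min_le_left _ _))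
  have hsT₂ : s < T₂ := h1.trans_le ((min_le_left _ _).trans (min_le_right _ _))
  have h4 : s ≤ 1 / 8 := (h1.trans_le (min_le_right _ _)).le
  have hs0 : 0 < s := by
    rw [hsw, norm_pos_iff, sub_ne_zero]
    rintro rfl
    linarith
  obtain ⟨b, u, hb, hu, hb', hu', hwu⟩ := polar h6
  have hws : ‖w‖ ≤ 1 + s := by
    have := norm_add_le ζ (w - ζ)
    rw [add_sub_cancel, hζ, ← hsw] at this
    exact this
  have hbs : b ≤ s := by
    rw [hb']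
    have := Real.log_le_sub_one_of_pos (by linarith : 0 < ‖w‖)
    linarith
  have hes : Real.exp s ≤ 2 := by
    have h7 : Real.exp s ≤ Real.exp (1 / 8) := Real.exp_le_exp.mpr h4
    have h8 : Real.exp (1 / 8 : ℝ) ^ 8 = Real.exp 1 := by
      rw [← Real.exp_nat_mul]; norm_num
    have h9 : Real.exp (1 / 8 : ℝ) ≤ 2 := by
      by_contra hcon
      push Not at hcon
      have : (2 : ℝ) ^ 8 < Real.exp (1 / 8 : ℝ) ^ 8 := pow_lt_pow_left₀ hcon (by norm_num) (by norm_num)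
      rw [h8] at this
      nlinarith [Real.exp_one_lt_d9]
    linarith
  have huw : ‖ζ - u‖ ≤ 2 * s := by
    have e1 : ‖w - u‖ = ‖w‖ - 1 := by
      have e2 : w - u = ((‖w‖ - 1 : ℝ) : ℂ) * u := by
        have e3 : w = (‖w‖ : ℂ) * u := by
          rw [hu']
          have : (‖w‖ : ℂ) ≠ 0 := by
            have : ‖w‖ ≠ 0 := by linarith
            exact_mod_cast this
          field_simp
        calc w - u = (‖w‖ : ℂ) * u - u := by rw [← e3]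
          _ = _ := by push_cast; ring
      rw [e2, norm_mul, hu, mul_one, Complex.norm_real, Real.norm_of_nonneg (by linarith)]
    have e4 := norm_add_le (ζ - w) (w - u)
    rw [sub_add_sub_cancel, e1, norm_sub_rev ζ w, ← hsw] at e4
    linarith
  have h7 := HK ψ h.diff h.inj s ((Real.exp s : ℂ) * ζ) ((Real.exp s : ℂ) * u) c₀ hs0 h4
    (by rw [nexp s hζ]; linarith [Real.add_one_le_exp s])
    (by rw [nexp s hu]; linarith [Real.add_one_le_exp s])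
    (by
      rw [← mul_sub, norm_mul, Complex.norm_real, Real.norm_of_nonneg (Real.exp_pos _).le]
      calc Real.exp s * ‖ζ - u‖ ≤ 2 * (2 * s) := by gcongr
        _ = 4 * s := by ring)
    (by
      rw [h.image]
      exact fun hh => hh hmem)
  have hup := upper h hR₂ H₂ hζ hc hs0 hsT₂
  have h8 : ‖ψ (Real.exp s * u) - c₀‖ ≤ R / 2 := by
    have e1 := norm_sub_le (ψ (Real.exp s * ζ) - c₀) (ψ (Real.exp s * ζ) - ψ (Real.exp s * u))
    rw [sub_sub_sub_cancel_left] at e1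
    have e2 : K * ‖ψ (Real.exp s * ζ) - c₀‖ ≤ K * R₂ := by gcongr
    linarith
  have h10 := near h hR H₁ hu hs0 hsT₁ h8 hb (hbs.trans_lt hsT₁)
  rw [← hwu] at h10
  rw [dist_eq_norm]
  linarith

end Pool.Agent.N253.LS
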