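import Mathlib
import Pool.Agent.N253.LS.Imp
import Pool.Agent.N253.LS.Coarse
import Pool.Agent.N253.LS.Trv
import Pool.Agent.N253.LS.Two
import Pool.Agent.N253.LS.Cmp
import Pool.Agent.N253.LS.Exc
import Pool.Agent.N253.LS.Semi
import Pool.Agent.N253.LS.Free
import Pool.Agent.N253.LS.Bnd2
import Pool.Agent.N253.LS.Exp
import Pool.Agent.N253.LS.Exq
import Pool.Agent.N253.LS.Pull
import Pool.Agent.N253.LS.Disp
import Pool.Agent.N253.LC.All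
import Pool.Agent.N253.LC.Continuum
import Pool.Agent.N253.EC.Exn
import Pool.Agent.N253.EC.Exp2
import Pool.Agent.N253.EC.Dvg
import Pool.Agent.N253.EC.Chn
import Pool.Agent.N253.EC.Comp

/-!
# Projects EC and LS: the final statements, from the remaining leaves (helper253)
-/

set_option autoImplicit false

open Set Filter Metric Topology

namespace Pool.Agent.N253.LS

open Pool.Agent.TH279.MD Pool.Agent.Y298.SH Pool.Agent.Y298.SH.CD Pool.Agent.Y298.CA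
open Pool.Agent.H713R2 (IsExteriorMap)

theorem t_EXP' : S_EXP := t_EXP t_FREE t_BND2

theorem t_EXQ' : S_EXQ := t_EXQ t_FREE t_BND2 t_EXP'

theorem t_PULL' : S_PULL := t_PULL t_EXQ' LC.t_BACK

theorem disp (h : S_SHAD) : S_DISP := t_DISP t_EXQ' t_PULL' (t_EXC h) LC.t_DER LC.t_INT

theorem infq (h : S_SHAD) : S_INFQ :=
  t_INFQ (t_TWOQ (disp h) (t_CMP h t_EXQ') LC.t_COORD h) LC.t_LIM

theorem exp2 (h : EC.S_PASS) : EC.S_EXP2 := EC.t_EXP2 SM.t_FREE LC.t_BND2 h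

theorem exn (h : EC.S_PASS) : EC.S_EXN := EC.t_EXN (exp2 h)

theorem comp (h : EC.S_ENT) : EC.S_COMP := EC.t_COMP h EC.t_CHN

/-- Powers of `2 R`. -/
theorem pow_two_R {a b : ℝ} (hab : b < a) (ha : 0 < a) : ∃ R₀ : ℝ, 0 < R₀ ∧ ∀ R : ℝ, 0 < R →
    R ≤ R₀ → 4 * (4 * R) ^ a ≤ R ^ b := by
  refine ⟨(4 * 4 ^ a)⁻¹ ^ (1 / (a - b)), by positivity, fun R hR hRR => ?_⟩
  have hab' : 0 < a - b := by linarith
  have h4 : (0 : ℝ) < 4 ^ a := by positivity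
  have h1 : R ^ (a - b) ≤ (4 * 4 ^ a)⁻¹ := by
    have h2 : R ^ (a - b) ≤ ((4 * 4 ^ a)⁻¹ ^ (1 / (a - b))) ^ (a - b) :=
      Real.rpow_le_rpow hR.le hRR hab'.le
    rwa [← Real.rpow_mul (by positivity), one_div, inv_mul_cancel₀ hab'.ne', Real.rpow_one] at h2
  have h3 : R ^ a = R ^ b * R ^ (a - b) := by rw [← Real.rpow_add hR]; congr 1; ring
  have hb : 0 < R ^ b := by positivity
  rw [Real.mul_rpow (by norm_num) hR.le, h3]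
  calc 4 * (4 ^ a * (R ^ b * R ^ (a - b))) = (4 * 4 ^ a) * R ^ (a - b) * R ^ b := by ring
    _ ≤ (4 * 4 ^ a) * (4 * 4 ^ a)⁻¹ * R ^ b := by gcongr
    _ = R ^ b := by rw [mul_inv_cancel₀ (by positivity), one_mul]

/-- the choice of the exponents -/
theorem choice {d : ℕ} (hd : 2 ≤ d) {ε : ℝ} (hε : 0 < ε) : ∃ τ ε' : ℝ, 3 / (4 * (d : ℝ)) ≤ τ ∧
    τ * ((d : ℝ) - 1) < 1 ∧ 0 < ε' ∧ ε' < τ ∧ (d : ℝ) / (d - 1) - ε < 1 + τ - ε' := by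
  have hdR : (2 : ℝ) ≤ d := by exact_mod_cast hd
  have hd1 : (0 : ℝ) < (d : ℝ) - 1 := by linarith
  obtain ⟨e, he⟩ : ∃ e : ℝ, e = min (ε / 4) (1 / (8 * d)) := ⟨_, rfl⟩
  have he0 : 0 < e := by rw [he]; positivity
  have he1 : e ≤ ε / 4 := by rw [he]; exact min_le_left _ _
  have he2 : e ≤ 1 / (8 * d) := by rw [he]; exact min_le_right _ _
  have h1 : (1 : ℝ) / d < 1 / (d - 1) := one_div_lt_one_div_of_lt hd1 (by linarith)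
  have h2 : (1 : ℝ) / (8 * d) = (1 / d) / 8 := by rw [div_div]; ring_nf
  have h3 : (3 : ℝ) / (4 * d) = (1 / d) * (3 / 4) := by field_simp
  have h4 : (0 : ℝ) < 1 / d := by positivity
  refine ⟨1 / (d - 1) - e, e, ?_, ?_, he0, ?_, ?_⟩
  · rw [h3]
    rw [h2] at he2
    linarith
  · have : (1 / ((d : ℝ) - 1) - e) * (d - 1) = 1 - e * (d - 1) := by
      rw [sub_mul, one_div, inv_mul_cancel₀ hd1.ne']
    rw [this]
    nlinarith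
  · rw [h2] at he2
    linarith
  · have h5 : (d : ℝ) / (d - 1) = 1 + 1 / (d - 1) := by field_simp; ring
    rw [h5]
    linarith

/-- The set of the parameters of the disc whose critical orbit comes nearer than `s` to `0`. -/
def Ent (d : ℕ) (c₀ : ℂ) (R s : ℝ) : Set ℂ :=
  {t : ℂ | ‖t - c₀‖ < R ∧ ∃ k : ℕ, 1 ≤ k ∧ ‖(f d t)^[k] 0‖ < s}

/-- The impression of `ζ`. -/
def impr (ψ : ℂ → ℂ) (ζ : ℂ) : Set ℂ := {c | MapClusterPt c (𝓝[{w | 1 < ‖w‖}] ζ) ψ}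

/-- **Small impressions**, final form. -/
theorem impressions {d : ℕ} {χ : ℝ} {c₀ : ℂ} (hd : 2 ≤ d) (hL : Lyap d χ c₀)
    (hP : EC.S_PASS) (hE : EC.S_ENT) (hS : S_SHAD) {ε : ℝ} (hε : 0 < ε) :
    ∃ R₀ : ℝ, 0 < R₀ ∧ ∀ R : ℝ, 0 < R → R ≤ R₀ → ∀ ψ : ℂ → ℂ,
    IsExteriorMap (N62a1eb23.multibrotSet d) ψ → ∀ ζ : ℂ, ‖ζ‖ = 1 → ∀ c₁ ∈ impr ψ ζ,
    ‖c₁ - c₀‖ ≤ 2 * R → ∀ c ∈ impr ψ ζ, ‖c - c₁‖ ≤ R ^ ((d : ℝ) / (d - 1) - ε) / 4 := by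
  obtain ⟨τ, ε', hτ1, hτ2, hε', hετ, hlt⟩ := choice hd hε
  have hdR : (2 : ℝ) ≤ d := by exact_mod_cast hd
  have hτ0 : 0 < τ := lt_of_lt_of_le (by positivity) hτ1
  obtain ⟨R₁, hR₁, H⟩ := small hd hL (comp hE) (EC.t_SEMI hP (exn hP)) (infq hS) (t_TRV LC.t_KOE)
    hτ1 hτ2 hε' (by linarith)
  obtain ⟨R₂, hR₂, H2⟩ := pow_two_R hlt (by linarith)
  refine ⟨min (R₁ / 4) R₂, by positivity, ?_⟩
  intro R hR hRR ψ hψ ζ hζ c₁ hc₁ hcR c hc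
  have h1 : 4 * R ≤ R₁ := by
    have := hRR.trans (min_le_left _ _)
    linarith
  have h2 := H (4 * R) (by positivity) h1 ψ hψ ζ hζ c₁ hc₁ (by linarith) c hc
  have h3 := H2 R hR (hRR.trans (min_le_right _ _))
  linarith

/-- **Local connectivity up to a small size**, final form. -/
theorem up_to_size {d : ℕ} {χ : ℝ} {c₀ : ℂ} (hd : 2 ≤ d) (hL : Lyap d χ c₀)
    (hP : EC.S_PASS) (hE : EC.S_ENT) (hS : S_SHAD) {ε : ℝ} (hε : 0 < ε) :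
    ∃ R₀ : ℝ, 0 < R₀ ∧ ∀ R : ℝ, 0 < R → R ≤ R₀ → ∃ δ : ℝ, 0 < δ ∧
    ∀ c ∈ N62a1eb23.multibrotSet d, ‖c - c₀‖ ≤ R → ∀ c' ∈ N62a1eb23.multibrotSet d, ‖c' - c‖ ≤ δ →
      ∃ S : Set ℂ, S ⊆ N62a1eb23.multibrotSet d ∧ IsCompact S ∧ IsConnected S ∧ c ∈ S ∧ c' ∈ S ∧
        S ⊆ closedBall c (R ^ ((d : ℝ) / (d - 1) - ε)) := by
  obtain ⟨τ, ε', hτ1, hτ2, hε', hετ, hlt⟩ := choice hd hε
  obtain ⟨β, hβ⟩ := Pool.Agent.H713R2.exists_beta (d := d) hd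
  have hψ := Pool.Agent.H713R2.exteriorMap_of_beta hβ
  obtain ⟨R₁, hR₁, H⟩ := impressions hd hL hP hE hS hε
  refine ⟨R₁, hR₁, fun R hR hRR => ?_⟩
  have hρ : 0 < R ^ ((d : ℝ) / (d - 1) - ε) := by positivity
  obtain ⟨δ, hδ, H2⟩ := coarse (M := N62a1eb23.multibrotSet d) (c₀ := c₀) (R := 4 * R)
    (ρ := R ^ ((d : ℝ) / (d - 1) - ε) / 4) LC.t_CON
    (Pool.Agent.H712R2.isCompact_multibrot hd) hψ (by positivity) (by positivity)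
    (fun ζ hζ c₁ hc₁ hcR c hc => H R hR hRR _ hψ ζ hζ c₁ hc₁ (by linarith) c hc)
  refine ⟨δ, hδ, fun c hc hcR c' hc' hcc => ?_⟩
  obtain ⟨S, s1, s2, s3, s4, s5, s6⟩ := H2 c hc (by linarith) c' hc' hcc
  exact ⟨S, s1, s2, s3, s4, s5, s6.trans (closedBall_subset_closedBall (by linarith))⟩

end Pool.Agent.N253.LS
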