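import Mathlib
import Pool.Agent.N253.LS.Fin

/-!
# Connected sets of parameters (helper253)
-/

set_option autoImplicit false

open Set Filter Metric Topology

namespace Pool.Agent.N253.LS

open Pool.Agent.TH279.MD Pool.Agent.Y298.SH Pool.Agent.Y298.SH.CD Pool.Agent.Y298.CA
open Pool.Agent.H713R2 (IsExteriorMap)

/-- A connected set all of whose points near `c₀` enter the small disc. -/
theorem conn_small {d : ℕ} {χ : ℝ} {c₀ : ℂ} (hd : 2 ≤ d) (hL : Lyap d χ c₀)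
    (hC : Pool.Agent.N253.EC.S_COMP) {τ ε : ℝ}
    (hτ1 : 3 / (4 * (d : ℝ)) ≤ τ) (hτ2 : τ * ((d : ℝ) - 1) < 1) (hε : 0 < ε) (hε1 : ε < τ) :
    ∃ R₀ : ℝ, 0 < R₀ ∧ ∀ R : ℝ, 0 < R → R ≤ R₀ → ∀ Γ : Set ℂ, IsPreconnected Γ →
    (∀ t ∈ Γ, ‖t - c₀‖ < R → ∃ k : ℕ, 1 ≤ k ∧ ‖(f d t)^[k] 0‖ < R ^ τ) →
    ∀ c₁ ∈ Γ, ‖c₁ - c₀‖ ≤ R / 2 → ∀ c ∈ Γ, ‖c - c₁‖ ≤ R ^ (1 + τ - ε) := by
  have hdR : (2 : ℝ) ≤ d := by exact_mod_cast hd
  have hτ0 : 0 < τ := lt_of_lt_of_le (by positivity) hτ1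
  obtain ⟨R₁, hR₁, H1⟩ := hC d χ c₀ hd hL τ ε hτ1 hτ2 hε
  obtain ⟨q, hq, hq1, Q⟩ := Pool.Agent.N253.SM.small_pow 4 (τ - ε) (by linarith)
  refine ⟨min R₁ q, by positivity, ?_⟩
  intro R hR hRR Γ hΓ hent c₁ hc₁ hc₁R c hc
  have hR1 : R ≤ R₁ := hRR.trans (min_le_left _ _)
  have hR3 : R ≤ q := hRR.trans (min_le_right _ _)
  have hρ : R ^ (1 + τ - ε) ≤ R / 4 := by
    have h1 : R ^ (1 + τ - ε) = R * R ^ (τ - ε) := by
      rw [show 1 + τ - ε = 1 + (τ - ε) by ring, Real.rpow_add hR, Real.rpow_one]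
    have h2 := Q R hR hR3
    rw [h1]
    nlinarith
  have hρ0 : 0 < R ^ (1 + τ - ε) := Real.rpow_pos_of_pos hR _
  obtain ⟨W, hW⟩ : ∃ W : Set ℂ, W = {t : ℂ | ‖t - c₀‖ < R ∧ ∃ k : ℕ, 1 ≤ k ∧
    ‖(f d t)^[k] 0‖ < R ^ τ} := ⟨_, rfl⟩
  have hWo : IsOpen W := by
    have e : W = {t : ℂ | ‖t - c₀‖ < R} ∩ ⋃ k : ℕ, {t : ℂ | ‖(f d t)^[k] t‖ < R ^ τ} := by
      rw [hW]
      ext t
      simp only [mem_setOf_eq, mem_inter_iff, mem_iUnion]
      refine and_congr_right fun _ => ⟨?_, ?_⟩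
      · rintro ⟨k, hk, h⟩
        obtain ⟨j, rfl⟩ : ∃ j, k = j + 1 := ⟨k - 1, by omega⟩
        exact ⟨j, by rwa [Pool.Agent.N253.EC.COMPaux.shift hd] at h⟩
      · rintro ⟨j, h⟩
        exact ⟨j + 1, by omega, by rwa [Pool.Agent.N253.EC.COMPaux.shift hd]⟩
    rw [e]
    refine IsOpen.inter ?_ (isOpen_iUnion fun k => ?_)
    · exact isOpen_lt (continuous_id.sub continuous_const).norm continuous_const
    · exact isOpen_lt (Pool.Agent.N253.EC.COMPaux.diff_it d k).continuous.norm continuous_const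
  have hc₁W : c₁ ∈ W := by
    rw [hW]
    exact ⟨by linarith, hent c₁ hc₁ (by linarith)⟩
  obtain ⟨V, hV⟩ : ∃ V : Set ℂ, V = connectedComponentIn W c₁ := ⟨_, rfl⟩
  have hVo : IsOpen V := by rw [hV]; exact hWo.connectedComponentIn
  have hVc : IsPreconnected V := by rw [hV]; exact isPreconnected_connectedComponentIn
  have hc₁V : c₁ ∈ V := by rw [hV]; exact mem_connectedComponentIn hc₁W
  have hVW : V ⊆ W := by rw [hV]; exact connectedComponentIn_subset W c₁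
  have hVd : ∀ t ∈ V, ‖t - c₁‖ ≤ R ^ (1 + τ - ε) := by
    intro t ht
    refine (H1 R hR hR1).1 V hVc (fun y hy => ?_) t ht c₁ hc₁V
    have := hVW hy
    rwa [hW] at this
  have hVb : V ⊆ closedBall c₁ (R ^ (1 + τ - ε)) := by
    intro t ht
    rw [mem_closedBall, dist_eq_norm]
    exact hVd t ht
  have hfr : ∀ y ∈ frontier V, y ∉ Γ := by
    intro y hy hcl
    have hyc : y ∈ closure V := frontier_subset_closure hy
    have hyb : y ∈ closedBall c₁ (R ^ (1 + τ - ε)) :=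
      closure_minimal hVb isClosed_closedBall hyc
    rw [mem_closedBall, dist_eq_norm] at hyb
    have hyR : ‖y - c₀‖ < R := by
      have := norm_add_le (y - c₁) (c₁ - c₀)
      rw [sub_add_sub_cancel] at this
      linarith
    have hyW : y ∈ W := by
      rw [hW]
      exact ⟨hyR, hent y hcl hyR⟩
    have hyo : connectedComponentIn W y ∈ 𝓝 y :=
      hWo.connectedComponentIn.mem_nhds (mem_connectedComponentIn hyW)
    obtain ⟨z, hz1, hz2⟩ := mem_closure_iff_nhds.mp hyc _ hyo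
    have h6 : connectedComponentIn W y = V := by
      rw [hV] at hz2 ⊢
      rw [connectedComponentIn_eq hz1, connectedComponentIn_eq hz2]
    have h7 : y ∈ V := by
      rw [← h6]
      exact mem_connectedComponentIn hyW
    rw [hVo.frontier_eq] at hy
    exact hy.2 h7
  have hcV : c ∈ V := by
    by_contra hcV
    have hcc : c ∈ (closure V)ᶜ := by
      intro h
      exact hfr c (by rw [hVo.frontier_eq]; exact ⟨h, hcV⟩) hc
    obtain ⟨y, hy1, hy2⟩ := meets_frontier hΓ ⟨c₁, hc₁, hc₁V⟩ ⟨c, hc, hcc⟩ hVo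
    exact hfr y hy2 hy1
  exact hVd c hcV

/-- The semihyperbolic parameters: the critical orbit stays away from the critical point and the
critical value is expanding. -/
def Semihyp (d : ℕ) (c : ℂ) : Prop := Slow d c ∧ ∃ s : ℝ, 0 < s ∧ ∀ k : ℕ, 1 ≤ k → s ≤ ‖(f d c)^[k] 0‖

/-- **Connected sets of parameters which are interior or not semihyperbolic.** -/
theorem sets {d : ℕ} {χ : ℝ} {c₀ : ℂ} (hd : 2 ≤ d) (hL : Lyap d χ c₀)
    (hP : EC.S_PASS) (hE : EC.S_ENT) {ε : ℝ} (hε : 0 < ε) :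
    ∃ R₀ : ℝ, 0 < R₀ ∧ ∀ R : ℝ, 0 < R → R ≤ R₀ → ∀ Γ : Set ℂ, IsPreconnected Γ →
    (∀ t ∈ Γ, ‖t - c₀‖ < 4 * R → t ∈ N62a1eb23.multibrotSet d ∧
      (t ∈ interior (N62a1eb23.multibrotSet d) ∨ ¬ Semihyp d t)) →
    ∀ c₁ ∈ Γ, ‖c₁ - c₀‖ ≤ 2 * R → ∀ c ∈ Γ, ‖c - c₁‖ ≤ R ^ ((d : ℝ) / (d - 1) - ε) / 4 := by
  obtain ⟨τ, ε', hτ1, hτ2, hε', hετ, hlt⟩ := choice hd hε
  have hdR : (2 : ℝ) ≤ d := by exact_mod_cast hd
  have hτ0 : 0 < τ := lt_of_lt_of_le (by positivity) hτ1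
  obtain ⟨R₁, hR₁, H⟩ := conn_small hd hL (comp hE) hτ1 hτ2 hε' hετ
  obtain ⟨R₂, hR₂, H2⟩ := pow_two_R hlt (by linarith)
  obtain ⟨R₃, hR₃, H3⟩ := comp hE d χ c₀ hd hL τ ε' hτ1 hτ2 hε'
  obtain ⟨R₄, hR₄, H4⟩ := EC.t_SEMI hP (exn hP) d χ c₀ hd hL τ hτ0 hτ2
  refine ⟨min (min (R₁ / 4) R₂) (min (R₃ / 4) (R₄ / 4)), by positivity, ?_⟩
  intro R hR hRR Γ hΓ hent c₁ hc₁ hcR c hc
  have h1 : 4 * R ≤ R₁ := by
    have := hRR.trans ((min_le_left _ _).trans (min_le_left _ _))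
    linarith
  have h3 : 4 * R ≤ R₃ := by
    have := hRR.trans ((min_le_right _ _).trans (min_le_left _ _))
    linarith
  have h4 : 4 * R ≤ R₄ := by
    have := hRR.trans ((min_le_right _ _).trans (min_le_right _ _))
    linarith
  have h5 := H (4 * R) (by positivity) h1 Γ hΓ (fun t ht htR => by
    obtain ⟨htM, hor⟩ := hent t ht htR
    rcases hor with hi | hs
    · exact (H3 (4 * R) (by positivity) h3).2 t hi htR
    · by_contra hcon
      push Not at hcon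
      exact hs ⟨H4 (4 * R) (by positivity) h4 t htM htR.le hcon, (4 * R) ^ τ, by positivity, hcon⟩)
    c₁ hc₁ (by linarith) c hc
  have h6 := H2 R hR (hRR.trans ((min_le_left _ _).trans (min_le_right _ _)))
  linarith

end Pool.Agent.N253.LS
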