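import Mathlib
import Pool.Agent.N253.LS.Stm
import Pool.Agent.Y434.CA.Pa
import Pool.Agent.Y298.CD.Grw
import Pool.Agent.N253.LC.Shad
import Pool.Agent.N253.LC.Bnd2

/-!
# Shadowing at the scale `σ` (S_SHAD), Collet-Eckmann parameters with slow recurrence

Project LS (helper253); this file by helper346. Models: Pool/Agent/N253/LC/Shad.lean (helper139)
and Pool/Agent/N253/LC/Bnd2.lean (helper8).
-/

set_option autoImplicit false

open Set Filter Metric Topology

namespace Pool.Agent.N253.LS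

open Pool.Agent.TH279.MD Pool.Agent.Y298.SH Pool.Agent.Y298.SH.CD Pool.Agent.Y298.CA
open Pool.Agent.H712R2 (P)

namespace Shad_

/-- Growth of the derivative along the critical orbit, one step. -/
theorem Pd_step {d : ℕ} {C₁ lam : ℝ} {c₀ : ℂ} (hCE : CEp d C₁ lam c₀) (k : ℕ) :
    Pd d c₀ (k + 1) ≤ (d : ℝ) * 3 ^ (d - 1) * Pd d c₀ k := by
  rw [Pd_succ]
  have h1 : ‖zz d c₀ k‖ ^ (d - 1) ≤ 3 ^ (d - 1) :=
    pow_le_pow_left₀ (norm_nonneg _) ((hCE.bd k).trans (by norm_num)) _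
  have h2 := Pd_nonneg d c₀ k
  gcongr

/-- Growth of the derivative along the critical orbit, logarithmic form. -/
theorem log_Pd_le {d : ℕ} {C₁ lam : ℝ} {c₀ : ℂ} (hCE : CEp d C₁ lam c₀) (m k : ℕ) :
    Real.log (Pd d c₀ (m + k)) ≤ Real.log (Pd d c₀ m) + QQ d * k := by
  induction k with
  | zero => simp
  | succ k ih =>
    have hd0 : (0 : ℝ) < d := by
      have := hCE.hd
      exact_mod_cast (by omega : 0 < d)
    have h1 := Pd_step hCE (m + k)
    have h2 := Real.log_le_log (hCE.Pd_pos (m + k + 1)) h1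
    rw [Real.log_mul (by positivity) (hCE.Pd_pos (m + k)).ne'] at h2
    have h3 : QQ d = Real.log (d * 3 ^ (d - 1)) := rfl
    rw [← h3] at h2
    push_cast
    have h4 : m + (k + 1) = m + k + 1 := by ring
    rw [h4]
    linarith

end Shad_

open Shad_

theorem t_SHAD : S_SHAD := by
  intro d c₀ hd hSl ε hε0 hε1
  obtain ⟨⟨C₁, lam, hCE⟩, hrec⟩ := hSl
  have hC1 := hCE.C1
  have hlam := hCE.lam1
  have hlam0 : 0 < lam := by linarith
  have hd0 : (0 : ℝ) < d := by exact_mod_cast (by omega : 0 < d)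
  obtain ⟨l, hl⟩ : ∃ l : ℝ, l = Real.log lam := ⟨_, rfl⟩
  have hl0 : 0 < l := by rw [hl]; exact Real.log_pos hlam
  obtain ⟨A, hA⟩ : ∃ A : ℝ, A = Real.log (2 * C₁) := ⟨_, rfl⟩
  have hA0 : 0 ≤ A := by rw [hA]; exact Real.log_nonneg (by linarith)
  obtain ⟨W, hW⟩ : ∃ W : ℝ, W = 2 + A / l + 1 / l := ⟨_, rfl⟩
  have hAl : 0 ≤ A / l := by positivity
  have hl1 : 0 ≤ 1 / l := by positivity
  have hW2 : 2 ≤ W := by rw [hW]; linarith
  have hW0 : 0 < W := by linarith
  obtain ⟨e, he⟩ : ∃ e : ℝ, e = ε / (8 * W) := ⟨_, rfl⟩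
  have he0 : 0 < e := by rw [he]; positivity
  have heW : 2 * e * W = ε / 4 := by
    rw [he]
    field_simp
    ring
  obtain ⟨C, hC1', hC⟩ := hrec e he0
  have hθ : 1 < Real.exp e := Real.one_lt_exp_iff.mpr he0
  obtain ⟨B₀, Ca, hPC₀⟩ := Pool.Agent.Y434.CA.pa d C₁ lam (Real.exp e) hd hC1 hlam hθ
  obtain ⟨B, hBdef⟩ : ∃ B : ℝ, B = max B₀ (4 * (d * (5 / 2) ^ (d - 1)) * Ca) := ⟨_, rfl⟩
  have hB0B : B₀ ≤ B := by rw [hBdef]; exact le_max_left _ _
  have hBM : 4 * (d * (5 / 2) ^ (d - 1)) * Ca ≤ B := by rw [hBdef]; exact le_max_right _ _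
  have hPC : PC d C₁ lam (Real.exp e) B Ca := by
    refine ⟨hPC₀.Ca1, hPC₀.CaB.trans hB0B, fun c₁ h1 c s k hs hc hk =>
      hPC₀.pass c₁ h1 c s k hs hc fun j hj => le_trans ?_ (hk j hj)⟩
    refine mul_le_mul_of_nonneg_right ?_ (Pd_nonneg _ _ _)
    refine mul_le_mul_of_nonneg_right ?_ hs.le
    exact mul_le_mul_of_nonneg_right hB0B (by positivity)
  have hCa1 := hPC.Ca1
  have hB1 : 1 ≤ B := hPC.Ca1.trans hPC.CaB
  obtain ⟨κ, εg, J, hκ, hεg, hg⟩ := hCE.grow
  obtain ⟨S, hS⟩ : ∃ S : ℝ, S = 8 + 64 * Ca + 64 * Ca / κ := ⟨_, rfl⟩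
  have hS0 : 0 < 64 * Ca / κ := by positivity
  have hS8 : 8 ≤ S := by linarith
  have hS1 : 16 * Ca / S ≤ 1 / 4 := by
    rw [div_le_iff₀ (by linarith)]
    linarith
  have hS2 : 16 * Ca / S ≤ κ / 4 := by
    rw [div_le_iff₀ (by linarith)]
    have h3 : κ / 4 * (64 * Ca / κ) = 16 * Ca := by
      field_simp
      ring
    have h4 : κ / 4 * S = κ / 4 * (8 + 64 * Ca) + κ / 4 * (64 * Ca / κ) := by rw [hS]; ring
    rw [h4, h3]
    have : 0 ≤ κ / 4 * (8 + 64 * Ca) := by positivity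
    linarith
  have hθ1 : 1 ≤ Real.exp e := hθ.le
  have hBθ : ∀ j : ℕ, 1 ≤ B * Real.exp e ^ j := fun j =>
    one_le_mul_of_one_le_of_one_le hB1 (one_le_pow₀ hθ1)
  -- one step of the passage condition bounds the derivative
  have hstep : ∀ (σ : ℝ) (j : ℕ), 0 < σ → B * Real.exp e ^ j * (S * σ) * Pd d c₀ j ≤ ‖zz d c₀ j‖ →
      σ * Pd d c₀ j ≤ 2 := by
    intro σ j hσ hj
    have h1 : 1 ≤ B * Real.exp e ^ j * S :=
      one_le_mul_of_one_le_of_one_le (hBθ j) (by linarith)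
    have h2 : σ * Pd d c₀ j ≤ B * Real.exp e ^ j * S * (σ * Pd d c₀ j) :=
      le_mul_of_one_le_left (mul_nonneg hσ.le (Pd_nonneg _ _ _)) h1
    have h3 : B * Real.exp e ^ j * S * (σ * Pd d c₀ j) =
        B * Real.exp e ^ j * (S * σ) * Pd d c₀ j := by ring
    rw [h3] at h2
    linarith [hCE.bd j]
  -- the time
  have hex : ∀ σ : ℝ, ∃ n : ℕ, 0 < σ → ‖zz d c₀ n‖ < B * Real.exp e ^ n * (S * σ) * Pd d c₀ n ∧
      ∀ j < n, B * Real.exp e ^ j * (S * σ) * Pd d c₀ j ≤ ‖zz d c₀ j‖ := by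
    classical
    intro σ
    by_cases hσ : 0 < σ
    · have hex1 : ∃ j, ‖zz d c₀ j‖ < B * Real.exp e ^ j * (S * σ) * Pd d c₀ j := by
        obtain ⟨j, hj⟩ := pow_unbounded_of_one_lt (2 * C₁ / σ) hlam
        refine ⟨j, ?_⟩
        by_contra hcon
        rw [not_lt] at hcon
        have h1 := hstep σ j hσ hcon
        have h2 := hCE.exp j
        rw [div_lt_iff₀ hσ] at hj
        have h3 : lam ^ j * σ ≤ C₁ * Pd d c₀ j * σ := mul_le_mul_of_nonneg_right h2 hσ.le
        have h4 : C₁ * (σ * Pd d c₀ j) ≤ C₁ * 2 := mul_le_mul_of_nonneg_left h1 (by linarith)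
        have h5 : C₁ * (σ * Pd d c₀ j) = C₁ * Pd d c₀ j * σ := by ring
        linarith
      exact ⟨Nat.find hex1, fun _ => ⟨Nat.find_spec hex1, fun j hj =>
        not_lt.1 (Nat.find_min hex1 hj)⟩⟩
    · exact ⟨0, fun h => absurd h hσ⟩
  choose N hN using hex
  -- the constants
  have hQ0 : 0 ≤ QQ d := by
    unfold QQ
    apply Real.log_nonneg
    have h1 : (1 : ℝ) ≤ d := by exact_mod_cast (by omega : 1 ≤ d)
    exact one_le_mul_of_one_le_of_one_le h1 (one_le_pow₀ (by norm_num))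
  obtain ⟨D, hD⟩ : ∃ D : ℝ, D = Real.log (C * B * S) + 1 := ⟨_, rfl⟩
  have hCBS : 1 ≤ C * B * S :=
    one_le_mul_of_one_le_of_one_le (one_le_mul_of_one_le_of_one_le hC1' hB1) (by linarith)
  have hD1 : 1 ≤ D := by
    have := Real.log_nonneg hCBS
    linarith
  obtain ⟨G, hG⟩ : ∃ G : ℝ, G = Real.log (4 + 2 / κ) := ⟨_, rfl⟩
  have h4κ : 4 ≤ 4 + 2 / κ := by
    have : 0 < 2 / κ := by positivity
    linarith
  have hG0 : 0 ≤ G := by rw [hG]; exact Real.log_nonneg (by linarith)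
  have hl2 : 0 ≤ Real.log 2 := Real.log_nonneg (by norm_num)
  obtain ⟨X₀, hX₀⟩ : ∃ X₀ : ℝ, X₀ = max (Real.log 4) (max ((D + G) / ε) (2 * (D + QQ d * J))) :=
    ⟨_, rfl⟩
  have hX1 : Real.log 4 ≤ X₀ := by rw [hX₀]; exact le_max_left _ _
  have hX2 : (D + G) / ε ≤ X₀ := by
    rw [hX₀]; exact (le_max_left _ _).trans (le_max_right _ _)
  have hX3 : 2 * (D + QQ d * J) ≤ X₀ := by
    rw [hX₀]; exact (le_max_right _ _).trans (le_max_right _ _)
  have hr4 : Real.exp (-X₀) ≤ 1 / 4 := by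
    have h3 : Real.exp (-X₀) ≤ Real.exp (-Real.log 4) := by
      rw [Real.exp_le_exp]
      linarith
    rw [Real.exp_neg (Real.log 4), Real.exp_log (by norm_num)] at h3
    linarith
  -- the facts at one scale
  have hfact : ∀ σ : ℝ, 0 < σ → σ ≤ Real.exp (-X₀) → ∃ X : ℝ, X = Real.log (1 / σ) ∧
      σ = Real.exp (-X) ∧ X₀ ≤ X ∧ 0 ≤ X ∧ (N σ : ℝ) ≤ W * (1 + X) ∧
      Real.log (Pd d c₀ (N σ)) ≤ QQ d + Real.log 2 + X ∧
      (1 - ε / 4) * X - D ≤ Real.log (Pd d c₀ (N σ)) := by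
    intro σ hσ hσ0
    obtain ⟨X, hX⟩ : ∃ X : ℝ, X = Real.log (1 / σ) := ⟨_, rfl⟩
    have hX' : X = - Real.log σ := by rw [hX, one_div, Real.log_inv]
    have hσX : σ = Real.exp (-X) := by rw [hX', neg_neg, Real.exp_log hσ]
    have hXX : X₀ ≤ X := by
      rw [hσX, Real.exp_le_exp] at hσ0
      linarith
    have hlog4 : 0 ≤ Real.log 4 := Real.log_nonneg (by norm_num)
    have hX0 : 0 ≤ X := by linarith
    obtain ⟨hn1, hn2⟩ := hN σ hσ
    -- the last step
    have hlast : ((N σ : ℝ) ≤ 1 + A / l + X / l) ∧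
        Real.log (Pd d c₀ (N σ)) ≤ QQ d + Real.log 2 + X := by
      obtain ⟨n, hn⟩ : ∃ n : ℕ, n = N σ := ⟨_, rfl⟩
      rw [← hn] at hn2 ⊢
      rcases n with _ | m
      · rw [Pd_zero, Real.log_one]
        have h1 : 0 ≤ X / l := by positivity
        push_cast
        constructor <;> linarith
      · have h1 := hstep σ m hσ (hn2 m (Nat.lt_succ_self m))
        have hPm := hCE.Pd_pos m
        have h2 := Real.log_le_log (mul_pos hσ hPm) h1
        rw [Real.log_mul hσ.ne' hPm.ne'] at h2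
        have h3 := log_Pd_le hCE m 1
        push_cast at h3
        have h4 : lam ^ m ≤ C₁ * Pd d c₀ m := hCE.exp m
        have h5 := Real.log_le_log (pow_pos hlam0 m) h4
        rw [Real.log_pow, ← hl, Real.log_mul (by linarith) hPm.ne'] at h5
        have h6 : A = Real.log 2 + Real.log C₁ := by
          rw [hA, Real.log_mul (by norm_num) (by linarith)]
        constructor
        · have h7 : (m : ℝ) * l ≤ A + X := by linarith
          have h8 : (m : ℝ) ≤ (A + X) / l := by rwa [le_div_iff₀ hl0]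
          have h9 : (A + X) / l = A / l + X / l := by ring
          push_cast
          linarith
        · linarith
    have hNW : (N σ : ℝ) ≤ W * (1 + X) := by
      refine hlast.1.trans ?_
      have h1 : 0 ≤ A / l * X := by positivity
      have h2 : X / l = 1 / l * X := by ring
      rw [hW, h2]
      nlinarith
    refine ⟨X, hX, hσX, hXX, hX0, hNW, hlast.2, ?_⟩
    have hPN := hCE.Pd_pos (N σ)
    have h1 := hC (N σ)
    have e1 : Real.exp e ^ (N σ) = Real.exp (e * (N σ)) := by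
      rw [← Real.exp_nat_mul]; congr 1; ring
    rw [e1] at hn1
    have h2 : C * Real.exp (e * (N σ)) * ‖zz d c₀ (N σ)‖ ≤
        C * Real.exp (e * (N σ)) * (B * Real.exp (e * (N σ)) * (S * σ) * Pd d c₀ (N σ)) :=
      mul_le_mul_of_nonneg_left hn1.le (by positivity)
    have h3 : C * Real.exp (e * (N σ)) * (B * Real.exp (e * (N σ)) * (S * σ) * Pd d c₀ (N σ)) =
        C * B * S * Real.exp (2 * e * (N σ) - X) * Pd d c₀ (N σ) := by
      have h4 : Real.exp (2 * e * (N σ) - X) =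
          Real.exp (e * (N σ)) * Real.exp (e * (N σ)) * Real.exp (-X) := by
        rw [← Real.exp_add, ← Real.exp_add]
        congr 1
        ring
      rw [h4, ← hσX]
      ring
    rw [h3] at h2
    have h5 : 1 ≤ C * B * S * Real.exp (2 * e * (N σ) - X) * Pd d c₀ (N σ) := h1.trans h2
    have h6 := Real.log_le_log zero_lt_one h5
    have hCBS0 : C * B * S ≠ 0 := by positivity
    rw [Real.log_one, Real.log_mul (by positivity) hPN.ne', Real.log_mul hCBS0 (by positivity),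
      Real.log_exp] at h6
    have h7 : 2 * e * (N σ) ≤ ε / 4 * (1 + X) := by
      rw [← heW]
      have h8 : 2 * e * (N σ) ≤ 2 * e * (W * (1 + X)) :=
        mul_le_mul_of_nonneg_left hNW (by positivity)
      linarith
    linarith
  refine ⟨max W (D + QQ d + Real.log 2), Real.exp (-X₀), N, ?_, Real.exp_pos _, hr4, ?_⟩
  · exact le_trans (by linarith) (le_max_left _ _)
  intro σ hσ hσ0
  obtain ⟨X, hX, hσX, hXX, hX0, hNW, hPup, hPlo⟩ := hfact σ hσ hσ0
  rw [← hX]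
  have hεX : D + G ≤ ε * X := by
    have h1 : (D + G) / ε ≤ X := hX2.trans hXX
    rw [div_le_iff₀ hε0] at h1
    linarith
  have hPlo' : G + (1 - 2 * ε) * X ≤ Real.log (Pd d c₀ (N σ)) := by
    have h1 : 0 ≤ ε * X := by positivity
    have h2 : (1 - 2 * ε) * X = X - 2 * (ε * X) := by ring
    have h3 : (1 - ε / 4) * X = X - (ε * X) / 4 := by ring
    linarith
  have hr1 : σ ≤ 1 / 4 := hσ0.trans hr4
  refine ⟨?_, ?_, ?_, ?_⟩
  · refine hNW.trans ?_
    exact mul_le_mul_of_nonneg_right (le_max_left _ _) (by linarith)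
  · have h1 := log_Pd_le hCE 0 (N σ)
    rw [Pd_zero, Real.log_one, zero_add, zero_add] at h1
    linarith
  · intro σ' hσ' hσ'0
    have hσ'1 : 0 < σ' := lt_of_lt_of_le hσ hσ'
    have hmono : N σ' ≤ N σ := by
      by_contra hcon
      rw [not_le] at hcon
      have h1 := (hN σ' hσ'1).2 (N σ) hcon
      have h2 := (hN σ hσ).1
      have h3 : B * Real.exp e ^ (N σ) * (S * σ) * Pd d c₀ (N σ) ≤
          B * Real.exp e ^ (N σ) * (S * σ') * Pd d c₀ (N σ) := by
        have := Pd_nonneg d c₀ (N σ)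
        gcongr
      linarith
    refine ⟨hmono, ?_⟩
    obtain ⟨X', hX', hσX', hXX', hX0', hNW', hPup', hPlo''⟩ := hfact σ' hσ'1 hσ'0
    rw [← hX']
    obtain ⟨k, hk⟩ := Nat.exists_eq_add_of_le hmono
    have h1 := log_Pd_le hCE (N σ') k
    rw [← hk] at h1
    have h2 : (N σ : ℝ) - N σ' = k := by rw [hk]; push_cast; ring
    rw [h2]
    have h3 : D + QQ d + Real.log 2 ≤ max W (D + QQ d + Real.log 2) := le_max_right _ _
    linarith
  -- the shadowing
  obtain ⟨n, hn⟩ : ∃ n : ℕ, n = N σ := ⟨_, rfl⟩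
  have hJn : J ≤ n := by
    have h1 := log_Pd_le hCE 0 (N σ)
    rw [Pd_zero, Real.log_one, zero_add, zero_add] at h1
    have h2 : QQ d * J < QQ d * (N σ) := by
      have h4 : (1 - ε / 4) * X = X - ε * X / 4 := by ring
      have h5 : ε * X ≤ 1 / 2 * X := mul_le_mul_of_nonneg_right hε1.le hX0
      have h6 : 0 ≤ QQ d * J := mul_nonneg hQ0 (Nat.cast_nonneg _)
      linarith
    have h7 := lt_of_mul_lt_mul_left h2 hQ0
    rw [hn]
    exact_mod_cast h7.le
  have hpassn : ∀ j < n, B * Real.exp e ^ j * (S * σ) * Pd d c₀ j ≤ ‖zz d c₀ j‖ := by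
    rw [hn]
    exact (hN σ hσ).2
  rw [← hn]
  rw [← hn] at hPlo'
  have hPn := hCE.Pd_pos n
  have hPlow : (4 + 2 / κ) * σ ^ (2 * ε - 1) ≤ Pd d c₀ n := by
    have h1 : σ ^ (2 * ε - 1) = Real.exp ((1 - 2 * ε) * X) := by
      rw [Real.rpow_def_of_pos hσ]
      have h2 : Real.log σ = -X := by rw [hX, one_div, Real.log_inv]; ring
      rw [h2]
      congr 1
      ring
    have h3 : 4 + 2 / κ = Real.exp G := by rw [hG, Real.exp_log (by linarith)]
    rw [h1, h3, ← Real.exp_add]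
    exact (Real.le_log_iff_exp_le hPn).1 hPlo'
  have hrp0 : 0 < σ ^ (2 * ε - 1) := Real.rpow_pos_of_pos hσ _
  have hP2 : σ ^ (2 * ε - 1) ≤ Pd d c₀ n / 4 := by
    have h3 : 0 < 2 / κ * σ ^ (2 * ε - 1) := by positivity
    linarith
  have hPκ : σ ^ (2 * ε - 1) ≤ κ / 2 * Pd d c₀ n := by
    calc σ ^ (2 * ε - 1) = κ / 2 * (2 / κ * σ ^ (2 * ε - 1)) := by field_simp
      _ ≤ κ / 2 * ((4 + 2 / κ) * σ ^ (2 * ε - 1)) := by gcongr; linarith
      _ ≤ _ := by gcongr
  have hSr : 0 < S * σ := by positivity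
  have hrS : σ < S * σ := by nlinarith
  have hconst : 16 * (Ca * (S * σ) * Pd d c₀ n) / (S ^ 2 * σ) = 16 * Ca / S * Pd d c₀ n := by
    field_simp
  refine ⟨?_, ?_, ?_⟩
  · -- no escape
    intro c x hc hx j hj
    have hx' : x ∈ ball c (S * σ) := by
      rw [mem_ball, dist_eq_norm]
      linarith
    have hpass := hPC.pass c₀ hCE c (S * σ) n hSr (by linarith) hpassn x hx'
    rcases hj.lt_or_eq with hj' | hj'
    · have h4 := (hpass j hj).2.2.2 hj'
      have h5 := hCE.bd j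
      have h6 := norm_le_insert' ((f d c)^[j] x) (zz d c₀ j)
      linarith
    · subst hj'
      rcases j with _ | m
      · have h5 := hCE.bd 0
        rw [zz_zero] at h5
        change ‖x‖ ≤ 3
        have h7 : x = (x - c) + (c - c₀) + c₀ := by ring
        have h8 := norm_add_le ((x - c) + (c - c₀)) c₀
        have h9 := norm_add_le (x - c) (c - c₀)
        rw [← h7] at h8
        linarith
      · obtain ⟨w, hw⟩ : ∃ w : ℂ, w = (f d c)^[m] x := ⟨_, rfl⟩
        obtain ⟨z, hz⟩ : ∃ z : ℂ, z = zz d c₀ m := ⟨_, rfl⟩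
        have hm := hpass m (Nat.le_succ m)
        have h4 := hm.2.2.2 (Nat.lt_succ_self m)
        have h5 := hm.1
        have h6 := hpassn m (Nat.lt_succ_self m)
        have h7 := hCE.bd m
        have h8 := hCE.bd (m + 1)
        rw [← hw, ← hz] at h4 h5
        rw [← hz] at h6 h7
        have e1 : (f d c)^[m + 1] x = w ^ d + c := by
          rw [Function.iterate_succ_apply', ← hw]; rfl
        have e2 : zz d c₀ (m + 1) = z ^ d + c₀ := by rw [zz_succ, hz]
        have hwn : ‖w‖ ≤ 5 / 2 := by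
          have := norm_le_insert' w z
          linarith
        have hM0 : 0 < (d : ℝ) * (5 / 2) ^ (d - 1) := by positivity
        have hwz : (d : ℝ) * (5 / 2) ^ (d - 1) * ‖w - z‖ ≤ 1 / 2 := by
          have h9 : 4 * (d * (5 / 2) ^ (d - 1)) * Ca * (S * σ) * Pd d c₀ m ≤ ‖z‖ := by
            refine le_trans ?_ h6
            refine mul_le_mul_of_nonneg_right ?_ (Pd_nonneg _ _ _)
            refine mul_le_mul_of_nonneg_right ?_ hSr.le
            exact hBM.trans (le_mul_of_one_le_right (by linarith) (one_le_pow₀ hθ1))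
          have h10 : (d : ℝ) * (5 / 2) ^ (d - 1) * ‖w - z‖ ≤
              (d : ℝ) * (5 / 2) ^ (d - 1) * (Ca * (S * σ) * Pd d c₀ m) :=
            mul_le_mul_of_nonneg_left h5 hM0.le
          have h11 : 4 * ((d : ℝ) * (5 / 2) ^ (d - 1) * (Ca * (S * σ) * Pd d c₀ m)) =
              4 * (d * (5 / 2) ^ (d - 1)) * Ca * (S * σ) * Pd d c₀ m := by ring
          linarith
        have h9 := Pool.Agent.N253.LC.Bnd2_.pow_sub_le (by norm_num : (0 : ℝ) ≤ 5 / 2) hwn
          (by linarith : ‖z‖ ≤ 5 / 2) d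
        rw [e1]
        have e3 : w ^ d + c = (w ^ d - z ^ d) + (c - c₀) + (z ^ d + c₀) := by ring
        rw [e3, ← e2]
        have h10 := norm_add_le ((w ^ d - z ^ d) + (c - c₀)) (zz d c₀ (m + 1))
        have h11 := norm_add_le (w ^ d - z ^ d) (c - c₀)
        linarith
  · intro c x x' hc hx hx'
    have hcS : ‖c - c₀‖ ≤ S * σ := by linarith
    have hpass := hPC.pass c₀ hCE c (S * σ) n hSr hcS hpassn
    have h3 := Pool.Agent.N253.LC.Shad_.two_pt ((f d c)^[n]) c (zz d c₀ n) σ S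
      (Ca * (S * σ) * Pd d c₀ n) hσ hS8
      (differentiable_fn d c n).differentiableOn (fun z hz => (hpass z hz n le_rfl).1) x x' hx hx'
    rw [hconst] at h3
    have h4 := (hpass c (mem_ball_self hSr) n le_rfl).2.1
    have h5 : ‖deriv ((f d c)^[n]) c * (x - x')‖ ≤ ‖(f d c)^[n] x - (f d c)^[n] x'‖ +
        16 * Ca / S * Pd d c₀ n * ‖x - x'‖ := by
      have e1 : deriv ((f d c)^[n]) c * (x - x') = ((f d c)^[n] x - (f d c)^[n] x') -
        ((f d c)^[n] x - (f d c)^[n] x' - deriv ((f d c)^[n]) c * (x - x')) := by ring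
      rw [e1]
      exact (norm_sub_le _ _).trans (by linarith)
    rw [norm_mul] at h5
    have h6 : Pd d c₀ n / 2 * ‖x - x'‖ ≤ ‖deriv ((f d c)^[n]) c‖ * ‖x - x'‖ := by gcongr
    have h7 : 16 * Ca / S * Pd d c₀ n * ‖x - x'‖ ≤ 1 / 4 * Pd d c₀ n * ‖x - x'‖ := by gcongr
    have h8 : σ ^ (2 * ε - 1) * ‖x - x'‖ ≤ Pd d c₀ n / 4 * ‖x - x'‖ := by gcongr
    linarith
  · intro c c' hc hc'
    have hpass : ∀ b ∈ ball c₀ (S * σ), ∀ j ≤ n,
        ‖(f d b)^[j] b - zz d c₀ j‖ ≤ Ca * (S * σ) * Pd d c₀ j ∧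
        Pd d c₀ j / 2 ≤ ‖deriv ((f d b)^[j]) b‖ := by
      intro b hb j hj
      rw [mem_ball, dist_eq_norm] at hb
      have h3 := hPC.pass c₀ hCE b (S * σ) n hSr hb.le hpassn b (mem_ball_self hSr) j hj
      exact ⟨h3.1, h3.2.1⟩
    have hne : ∀ b ∈ ball c₀ (S * σ), ∀ j ≤ n, deriv ((f d b)^[j]) b ≠ 0 := by
      intro b hb j hj
      have h4 := hCE.Pd_pos j
      rw [← norm_pos_iff]
      linarith [(hpass b hb j hj).2]
    have h3 := Pool.Agent.N253.LC.Shad_.two_pt (fun b => (f d b)^[n] b) c₀ (zz d c₀ n) σ S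
      (Ca * (S * σ) * Pd d c₀ n) hσ
      hS8 (fun b hb => (der_sum d hd b n (hne b hb)).differentiableAt.differentiableWithinAt)
      (fun z hz => (hpass z hz n le_rfl).1) c c' hc hc'
    rw [hconst] at h3
    have h4 := hg c₀ hCE c₀ (by rw [sub_self, norm_zero]; exact hεg.le) n hJn (fun j hj =>
      (hpass c₀ (mem_ball_self hSr) j hj).2)
    rw [P_succ_eq hd] at h4
    have h5 : ‖deriv (fun b => (f d b)^[n] b) c₀ * (c - c')‖ ≤
        ‖(f d c)^[n] c - (f d c')^[n] c'‖ + 16 * Ca / S * Pd d c₀ n * ‖c - c'‖ := by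
      have e1 : deriv (fun b => (f d b)^[n] b) c₀ * (c - c') =
        ((f d c)^[n] c - (f d c')^[n] c') -
        ((f d c)^[n] c - (f d c')^[n] c' - deriv (fun b => (f d b)^[n] b) c₀ * (c - c')) := by
          ring
      rw [e1]
      exact (norm_sub_le _ _).trans (by linarith)
    rw [norm_mul] at h5
    have h6 : κ * Pd d c₀ n * ‖c - c'‖ ≤ ‖deriv (fun b => (f d b)^[n] b) c₀‖ * ‖c - c'‖ := by
      gcongr
    have h7 : 16 * Ca / S * Pd d c₀ n * ‖c - c'‖ ≤ κ / 4 * Pd d c₀ n * ‖c - c'‖ := by gcongr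
    have h8 : σ ^ (2 * ε - 1) * ‖c - c'‖ ≤ κ / 2 * Pd d c₀ n * ‖c - c'‖ := by gcongr
    have h9 : 0 ≤ κ / 4 * Pd d c₀ n * ‖c - c'‖ := by positivity
    linarith

end Pool.Agent.N253.LS
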