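import Mathlib
import Pool.Agent.N253.LS.Gam
import Pool.Agent.N253.LS.Shad
import Pool.Agent.N253.EC.Pass
import Pool.Agent.N253.EC.Ent

/-!
# Projects EC and LS: the final theorems (helper253)
-/

set_option autoImplicit false

open Set Filter Metric Topology

namespace Pool.Agent.N253.LS

open Pool.Agent.TH279.MD Pool.Agent.Y298.SH Pool.Agent.Y298.SH.CD Pool.Agent.Y298.CA
open Pool.Agent.H713R2 (IsExteriorMap)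

theorem ent : EC.S_ENT := EC.t_ENT EC.t_PASS (exn EC.t_PASS) LC.t_BACK EC.t_DVG

/-- **Small impressions.** -/
theorem impressions_all {d : ℕ} {χ : ℝ} {c₀ : ℂ} (hd : 2 ≤ d) (hL : Lyap d χ c₀) {ε : ℝ}
    (hε : 0 < ε) :
    ∃ R₀ : ℝ, 0 < R₀ ∧ ∀ R : ℝ, 0 < R → R ≤ R₀ → ∀ ψ : ℂ → ℂ,
    IsExteriorMap (N62a1eb23.multibrotSet d) ψ → ∀ ζ : ℂ, ‖ζ‖ = 1 → ∀ c₁ ∈ impr ψ ζ,
    ‖c₁ - c₀‖ ≤ 2 * R → ∀ c ∈ impr ψ ζ, ‖c - c₁‖ ≤ R ^ ((d : ℝ) / (d - 1) - ε) / 4 :=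
  impressions hd hL EC.t_PASS ent t_SHAD hε

/-- **Local connectivity up to a small size.** -/
theorem up_to_size_all {d : ℕ} {χ : ℝ} {c₀ : ℂ} (hd : 2 ≤ d) (hL : Lyap d χ c₀) {ε : ℝ}
    (hε : 0 < ε) :
    ∃ R₀ : ℝ, 0 < R₀ ∧ ∀ R : ℝ, 0 < R → R ≤ R₀ → ∃ δ : ℝ, 0 < δ ∧
    ∀ c ∈ N62a1eb23.multibrotSet d, ‖c - c₀‖ ≤ R → ∀ c' ∈ N62a1eb23.multibrotSet d, ‖c' - c‖ ≤ δ →
      ∃ S : Set ℂ, S ⊆ N62a1eb23.multibrotSet d ∧ IsCompact S ∧ IsConnected S ∧ c ∈ S ∧ c' ∈ S ∧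
        S ⊆ closedBall c (R ^ ((d : ℝ) / (d - 1) - ε)) :=
  up_to_size hd hL EC.t_PASS ent t_SHAD hε

/-- **Connected sets of parameters which are interior or not semihyperbolic.** -/
theorem sets_all {d : ℕ} {χ : ℝ} {c₀ : ℂ} (hd : 2 ≤ d) (hL : Lyap d χ c₀) {ε : ℝ} (hε : 0 < ε) :
    ∃ R₀ : ℝ, 0 < R₀ ∧ ∀ R : ℝ, 0 < R → R ≤ R₀ → ∀ Γ : Set ℂ, IsPreconnected Γ →
    (∀ t ∈ Γ, ‖t - c₀‖ < 4 * R → t ∈ N62a1eb23.multibrotSet d ∧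
      (t ∈ interior (N62a1eb23.multibrotSet d) ∨ ¬ Semihyp d t)) →
    ∀ c₁ ∈ Γ, ‖c₁ - c₀‖ ≤ 2 * R → ∀ c ∈ Γ, ‖c - c₁‖ ≤ R ^ ((d : ℝ) / (d - 1) - ε) / 4 :=
  sets hd hL EC.t_PASS ent hε

end Pool.Agent.N253.LS
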