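import Mathlib
import Pool.Agent.N253.LS.All
import Pool.Agent.N253.NR.C
import Pool.Agent.N253.NR.Null

/-!
# Infinitely renormalizable parameters and positive area near Lyapunov parameters (helper253)
-/

set_option autoImplicit false

open Set Filter Metric Topology MeasureTheory

namespace Pool.Agent.N253.LS

open Pool.Agent.TH279.MD Pool.Agent.Y298.SH Pool.Agent.Y298.SH.CD Pool.Agent.Y298.CA
open Pool.Agent.H713R2.AR (KK)
open Pool.Agent.N253.NR (RenC finite_ren null_KK)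

/-- **A covering by small disjoint open sets.** -/
theorem cover_all {d : ℕ} {χ : ℝ} {c₀ : ℂ} (hd : 2 ≤ d) (hL : Lyap d χ c₀) {ε : ℝ} (hε : 0 < ε) :
    ∃ R₀ : ℝ, 0 < R₀ ∧ ∀ R : ℝ, 0 < R → R ≤ R₀ → ∃ 𝒲 : Set (Set ℂ),
    (∀ W ∈ 𝒲, IsOpen W ∧ IsConnected W ∧
      ∀ c ∈ W, ∀ c' ∈ W, ‖c - c'‖ ≤ R ^ ((d : ℝ) / (d - 1) - ε)) ∧
    𝒲.PairwiseDisjoint id ∧
    ∀ t ∈ N62a1eb23.multibrotSet d, ‖t - c₀‖ < R →
      (t ∈ interior (N62a1eb23.multibrotSet d) ∨ ¬ Semihyp d t) → ∃ W ∈ 𝒲, t ∈ W := by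
  obtain ⟨τ, ε', hτ1, hτ2, hε', hετ, hlt⟩ := choice hd hε
  have hdR : (2 : ℝ) ≤ d := by exact_mod_cast hd
  have hτ0 : 0 < τ := lt_of_lt_of_le (by positivity) hτ1
  obtain ⟨R₃, hR₃, H3⟩ := comp ent d χ c₀ hd hL τ ε' hτ1 hτ2 hε'
  obtain ⟨R₄, hR₄, H4⟩ := EC.t_SEMI EC.t_PASS (exn EC.t_PASS) d χ c₀ hd hL τ hτ0 hτ2
  refine ⟨min 1 (min R₃ R₄), by positivity, ?_⟩
  intro R hR hRR
  have hR1 : R ≤ 1 := hRR.trans (min_le_left _ _)
  have h3 : R ≤ R₃ := hRR.trans ((min_le_right _ _).trans (min_le_left _ _))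
  have h4 : R ≤ R₄ := hRR.trans ((min_le_right _ _).trans (min_le_right _ _))
  obtain ⟨W, hW⟩ : ∃ W : Set ℂ, W = {t : ℂ | ‖t - c₀‖ < R ∧ ∃ k : ℕ, 1 ≤ k ∧
    ‖(f d t)^[k] 0‖ < R ^ τ} := ⟨_, rfl⟩
  have hWo : IsOpen W := by
    have e : W = {t : ℂ | ‖t - c₀‖ < R} ∩ ⋃ k : ℕ, {t : ℂ | ‖(f d t)^[k] t‖ < R ^ τ} := by
      rw [hW]
      ext t
      simp only [mem_setOf_eq, mem_inter_iff, mem_iUnion]
      refine and_congr_right fun _ => ⟨?_, ?_⟩
      · rintro ⟨k, hk, h⟩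
        obtain ⟨j, rfl⟩ : ∃ j, k = j + 1 := ⟨k - 1, by omega⟩
        exact ⟨j, by rwa [Pool.Agent.N253.EC.COMPaux.shift hd] at h⟩
      · rintro ⟨j, h⟩
        exact ⟨j + 1, by omega, by rwa [Pool.Agent.N253.EC.COMPaux.shift hd]⟩
    rw [e]
    refine IsOpen.inter ?_ (isOpen_iUnion fun k => ?_)
    · exact isOpen_lt (continuous_id.sub continuous_const).norm continuous_const
    · exact isOpen_lt (Pool.Agent.N253.EC.COMPaux.diff_it d k).continuous.norm continuous_const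
  refine ⟨{V | ∃ x ∈ W, V = connectedComponentIn W x}, ?_, ?_, ?_⟩
  · rintro V ⟨x, hx, rfl⟩
    refine ⟨hWo.connectedComponentIn, ⟨⟨x, mem_connectedComponentIn hx⟩,
      isPreconnected_connectedComponentIn⟩, ?_⟩
    intro c hc c' hc'
    have h5 := (H3 R hR h3).1 _ isPreconnected_connectedComponentIn (fun y hy => by
      have := connectedComponentIn_subset W x hy
      rwa [hW] at this) c hc c' hc'
    refine h5.trans ?_
    exact Real.rpow_le_rpow_of_exponent_ge hR hR1 hlt.le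
  · rintro V ⟨x, hx, rfl⟩ V' ⟨x', hx', rfl⟩ hne
    show Disjoint (connectedComponentIn W x) (connectedComponentIn W x')
    rw [Set.disjoint_left]
    intro y hy hy'
    apply hne
    rw [connectedComponentIn_eq hy, connectedComponentIn_eq hy']
  · intro t htM htR hor
    have htW : t ∈ W := by
      rw [hW]
      refine ⟨htR, ?_⟩
      rcases hor with hi | hs
      · exact (H3 R hR h3).2 t hi htR
      · by_contra hcon
        push Not at hcon
        exact hs ⟨H4 R hR h4 t htM htR.le hcon, R ^ τ, by positivity, hcon⟩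
    exact ⟨_, ⟨t, htW, rfl⟩, mem_connectedComponentIn htW⟩

/-- infinitely renormalizable parameters are not semihyperbolic -/
theorem not_semihyp_of_ren {d : ℕ} (hd : 2 ≤ d) {c : ℂ} (h : {p : ℕ | RenC d c p}.Infinite) :
    ¬ Semihyp d c := fun hs => h (finite_ren hd hs.1)

/-- parameters with positive area are not semihyperbolic -/
theorem not_semihyp_of_vol {d : ℕ} {c : ℂ} (h : volume (KK d c) ≠ 0) : ¬ Semihyp d c := by
  rintro ⟨⟨⟨C₁, lam, hCE⟩, -⟩, -⟩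
  exact h (null_KK hCE)

end Pool.Agent.N253.LS
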